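import Pool.Agent.H7.SF.Iter

/-!
# Relations and functions on a model `N` which are definable with parameters

`DN N S`: the relation `S` of the assignment `u` (with values in `N`) is definable over `N` with
a parameter. `TN N F`: the same for a function with values in `N`.
-/

set_option linter.unusedVariables false

open Ordinal Order Set
open scoped ZFSet

namespace UZ

open SF

variable {N : V → Prop} {S T : (ℕ → V) → Prop} {F G E : (ℕ → V) → V}

/-- definable over `N` with a parameter -/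
def DN (N : V → Prop) (S : (ℕ → V) → Prop) : Prop :=
  ∃ R : (V → Prop) → (ℕ → V) → Prop, Dfb ZFm R ∧ ∃ q, N q ∧ ∀ u, In N u → (S u ↔ R N (cons q u))

/-- a function on `N` which is definable with a parameter -/
def TN (N : V → Prop) (F : (ℕ → V) → V) : Prop :=
  ∃ f : (V → Prop) → (ℕ → V) → V, Tm ZFm f ∧ ∃ q, N q ∧ ∀ u, In N u → F u = f N (cons q u)

theorem TN.mem (hN : ZFm N) (h : TN N F) {u : ℕ → V} (hu : In N u) : N (F u) := by
  obtain ⟨f, hf, q, hq, h2⟩ := h
  rw [h2 u hu]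
  exact hf.1 N hN _ (hu.cons hq)

theorem DN.congr (h : DN N S) (h' : ∀ u, In N u → (S u ↔ T u)) : DN N T := by
  obtain ⟨R, hR, q, hq, h2⟩ := h
  exact ⟨R, hR, q, hq, fun u hu => (h' u hu).symm.trans (h2 u hu)⟩

theorem TN.congr (h : TN N F) (h' : ∀ u, In N u → F u = G u) : TN N G := by
  obtain ⟨f, hf, q, hq, h2⟩ := h
  exact ⟨f, hf, q, hq, fun u hu => (h' u hu).symm.trans (h2 u hu)⟩

/-! ### merging the parameters -/

theorem tm_p1 {f : (V → Prop) → (ℕ → V) → V} (hf : Tm ZFm f) :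
    Tm ZFm (fun M v => f M (cons (fst (v 0)) fun i => v (i + 1))) :=
  hf.push (Tm.fst (Tm.var 0)) _

theorem tm_p2 {f : (V → Prop) → (ℕ → V) → V} (hf : Tm ZFm f) :
    Tm ZFm (fun M v => f M (cons (snd (v 0)) fun i => v (i + 1))) :=
  hf.push (Tm.snd (Tm.var 0)) _

theorem dfb_p1 {f : (V → Prop) → (ℕ → V) → Prop} (hf : Dfb ZFm f) :
    Dfb ZFm (fun M v => f M (cons (fst (v 0)) fun i => v (i + 1))) :=
  hf.push (Tm.fst (Tm.var 0)) _

theorem dfb_p2 {f : (V → Prop) → (ℕ → V) → Prop} (hf : Dfb ZFm f) :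
    Dfb ZFm (fun M v => f M (cons (snd (v 0)) fun i => v (i + 1))) :=
  hf.push (Tm.snd (Tm.var 0)) _

theorem npair (hN : ZFm N) {x y : V} (hx : N x) (hy : N y) : N (ZFSet.pair x y) :=
  (Tm.pair (Tm.var 0) (Tm.var 1)).1 N hN (cons x fun _ => y) (In.cons (fun _ => hy) hx)

theorem TN.two (hN : ZFm N) (hF : TN N F) (hG : TN N G) :
    ∃ f g : (V → Prop) → (ℕ → V) → V, Tm ZFm f ∧ Tm ZFm g ∧ ∃ q, N q ∧ ∀ u, In N u →
      F u = f N (cons q u) ∧ G u = g N (cons q u) := by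
  obtain ⟨f, hf, q, hq, h⟩ := hF
  obtain ⟨g, hg, q', hq', h'⟩ := hG
  refine ⟨_, _, tm_p1 hf, tm_p2 hg, ZFSet.pair q q', npair hN hq hq', fun u hu => ?_⟩
  simp only [cons_zero, cons_succ, fst_pair, snd_pair]
  exact ⟨h u hu, h' u hu⟩

theorem DN.two (hN : ZFm N) (hS : DN N S) (hT : DN N T) :
    ∃ f g : (V → Prop) → (ℕ → V) → Prop, Dfb ZFm f ∧ Dfb ZFm g ∧ ∃ q, N q ∧ ∀ u, In N u →
      (S u ↔ f N (cons q u)) ∧ (T u ↔ g N (cons q u)) := by
  obtain ⟨f, hf, q, hq, h⟩ := hS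
  obtain ⟨g, hg, q', hq', h'⟩ := hT
  refine ⟨_, _, dfb_p1 hf, dfb_p2 hg, ZFSet.pair q q', npair hN hq hq', fun u hu => ?_⟩
  simp only [cons_zero, cons_succ, fst_pair, snd_pair]
  exact ⟨h u hu, h' u hu⟩

theorem DN.mix (hN : ZFm N) (hS : DN N S) (hF : TN N F) :
    ∃ (f : (V → Prop) → (ℕ → V) → Prop) (g : (V → Prop) → (ℕ → V) → V), Dfb ZFm f ∧ Tm ZFm g ∧
      ∃ q, N q ∧ ∀ u, In N u → (S u ↔ f N (cons q u)) ∧ F u = g N (cons q u) := by
  obtain ⟨f, hf, q, hq, h⟩ := hS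
  obtain ⟨g, hg, q', hq', h'⟩ := hF
  refine ⟨_, _, dfb_p1 hf, tm_p2 hg, ZFSet.pair q q', npair hN hq hq', fun u hu => ?_⟩
  simp only [cons_zero, cons_succ, fst_pair, snd_pair]
  exact ⟨h u hu, h' u hu⟩

/-! ### logic -/

theorem DN.not (h : DN N S) : DN N (fun u => ¬ S u) := by
  obtain ⟨f, hf, q, hq, h⟩ := h
  exact ⟨_, hf.not, q, hq, fun u hu => not_congr (h u hu)⟩

theorem DN.and (hN : ZFm N) (h : DN N S) (h' : DN N T) : DN N (fun u => S u ∧ T u) := by
  obtain ⟨f, g, hf, hg, q, hq, h⟩ := DN.two hN h h'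
  exact ⟨_, hf.and hg, q, hq, fun u hu => and_congr (h u hu).1 (h u hu).2⟩

theorem DN.or (hN : ZFm N) (h : DN N S) (h' : DN N T) : DN N (fun u => S u ∨ T u) := by
  obtain ⟨f, g, hf, hg, q, hq, h⟩ := DN.two hN h h'
  exact ⟨_, hf.or hg, q, hq, fun u hu => or_congr (h u hu).1 (h u hu).2⟩

theorem DN.imp (hN : ZFm N) (h : DN N S) (h' : DN N T) : DN N (fun u => S u → T u) := by
  obtain ⟨f, g, hf, hg, q, hq, h⟩ := DN.two hN h h'
  exact ⟨_, hf.imp hg, q, hq, fun u hu => imp_congr (h u hu).1 (h u hu).2⟩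

theorem DN.iff (hN : ZFm N) (h : DN N S) (h' : DN N T) : DN N (fun u => S u ↔ T u) := by
  obtain ⟨f, g, hf, hg, q, hq, h⟩ := DN.two hN h h'
  exact ⟨_, hf.iff hg, q, hq, fun u hu => iff_congr (h u hu).1 (h u hu).2⟩

/-- exchange of the first two variables -/
def sw : ℕ → ℕ
  | 0 => 1
  | 1 => 0
  | n + 2 => n + 2

theorem cons_sw (x q : V) (u : ℕ → V) :
    (fun i => cons x (cons q u) (sw i)) = cons q (cons x u) := by
  funext i
  match i with
  | 0 => rfl
  | 1 => rfl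
  | n + 2 => rfl

theorem DN.ex (h : DN N S) : DN N (fun u => ∃ x, N x ∧ S (cons x u)) := by
  obtain ⟨f, hf, q, hq, h⟩ := h
  refine ⟨_, (hf.rn sw).ex, q, hq, fun u hu => ?_⟩
  refine exists_congr fun x => and_congr_right fun hx => ?_
  rw [h _ (hu.cons hx), cons_sw]

theorem DN.all (h : DN N S) : DN N (fun u => ∀ x, N x → S (cons x u)) :=
  h.not.ex.not.congr fun u hu => by
    simp only [not_exists, not_and, not_not]

theorem DN.rn (h : DN N S) (ρ : ℕ → ℕ) : DN N (fun u => S fun i => u (ρ i)) := by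
  obtain ⟨f, hf, q, hq, h⟩ := h
  refine ⟨_, hf.rn (upr ρ), q, hq, fun u hu => ?_⟩
  refine (h (fun i => u (ρ i)) fun i => hu _).trans ?_
  rw [cons_upr]

theorem TN.rn (h : TN N F) (ρ : ℕ → ℕ) : TN N (fun u => F fun i => u (ρ i)) := by
  obtain ⟨f, hf, q, hq, h⟩ := h
  refine ⟨_, hf.rn (upr ρ), q, hq, fun u hu => ?_⟩
  refine (h (fun i => u (ρ i)) fun i => hu _).trans ?_
  rw [cons_upr]

/-- relations and functions without parameters -/
theorem DN.of {R : (V → Prop) → (ℕ → V) → Prop} (hN : ZFm N) (hR : Dfb ZFm R) :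
    DN N (fun u => R N u) :=
  ⟨_, hR.rn (fun i => i + 1), om, hN.inf, fun u hu => Iff.rfl⟩

theorem TN.of {f : (V → Prop) → (ℕ → V) → V} (hN : ZFm N) (hf : Tm ZFm f) :
    TN N (fun u => f N u) :=
  ⟨_, hf.rn (fun i => i + 1), om, hN.inf, fun u hu => rfl⟩

theorem TN.var (hN : ZFm N) (i : ℕ) : TN N (fun u => u i) := TN.of hN (Tm.var i)

theorem TN.cst {q : V} (hq : N q) : TN N (fun _ => q) :=
  ⟨_, Tm.var 0, q, hq, fun u hu => rfl⟩

theorem DN.cst (hN : ZFm N) (P : Prop) : DN N (fun _ => P) := by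
  by_cases h : P
  · exact (DN.of hN Dfb.tru).congr fun u hu => by simp [h]
  · exact (DN.of hN Dfb.fls).congr fun u hu => by simp [h]

/-- substitution for the first variable -/
theorem DN.push (hN : ZFm N) (h : DN N S) (h' : TN N G) (ρ : ℕ → ℕ) :
    DN N (fun u => S (cons (G u) fun i => u (ρ i))) := by
  obtain ⟨f, g, hf, hg, q, hq, h2⟩ := DN.mix hN h h'
  have h3 : Dfb ZFm (fun M v => f M (cons (v 0) (cons (g M v) fun i => v (ρ i + 1)))) := by
    refine (hf.comp (fun i => match i with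
      | 0 => fun _ v => v 0
      | 1 => g
      | i + 2 => fun _ v => v (ρ i + 1)) fun i => ?_).congr fun M k v hv => ?_
    · match i with
      | 0 => exact Tm.var 0
      | 1 => exact hg
      | i + 2 => exact Tm.var _
    · have e : (fun i => (match i with
        | 0 => fun _ v => v 0
        | 1 => g
        | i + 2 => fun _ v => v (ρ i + 1) : (V → Prop) → (ℕ → V) → V) M v) =
          cons (v 0) (cons (g M v) fun i => v (ρ i + 1)) := by
        funext i
        match i with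
        | 0 => rfl
        | 1 => rfl
        | i + 2 => rfl
      rw [e]
  refine ⟨_, h3, q, hq, fun u hu => ?_⟩
  have hGN : N (G u) := TN.mem hN h' hu
  have h4 : In N (cons (G u) fun i => u (ρ i)) := In.cons (fun i => hu _) hGN
  refine (h2 _ h4).1.trans ?_
  rw [(h2 u hu).2]
  rfl

theorem TN.push (hN : ZFm N) (h : TN N F) (h' : TN N G) (ρ : ℕ → ℕ) :
    TN N (fun u => F (cons (G u) fun i => u (ρ i))) := by
  obtain ⟨f, g, hf, hg, q, hq, h2⟩ := TN.two hN h h'
  have h3 : Tm ZFm (fun M v => f M (cons (v 0) (cons (g M v) fun i => v (ρ i + 1)))) := by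
    refine (hf.comp (fun i => match i with
      | 0 => fun _ v => v 0
      | 1 => g
      | i + 2 => fun _ v => v (ρ i + 1)) fun i => ?_).congr fun M k v hv => ?_
    · match i with
      | 0 => exact Tm.var 0
      | 1 => exact hg
      | i + 2 => exact Tm.var _
    · show f M _ = f M _
      congr 1
      funext i
      match i with
      | 0 => rfl
      | 1 => rfl
      | i + 2 => rfl
  refine ⟨_, h3, q, hq, fun u hu => ?_⟩
  have hGN : N (G u) := TN.mem hN h' hu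
  have h4 : In N (cons (G u) fun i => u (ρ i)) := In.cons (fun i => hu _) hGN
  refine (h2 _ h4).1.trans ?_
  rw [(h2 u hu).2]
  rfl

/-! ### substitution -/

theorem cons3 (x y z : V) (u : ℕ → V) (i : ℕ) : cons x (cons y (cons z u)) (i + 3) = u i := rfl

theorem DN.at1 (hN : ZFm N) {P : V → Prop} (hP : DN N (fun u => P (u 0))) (hF : TN N F) :
    DN N (fun u => P (F u)) := DN.push hN hP hF id

theorem DN.at2 (hN : ZFm N) {P : V → V → Prop} (hP : DN N (fun u => P (u 0) (u 1)))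
    (hF : TN N F) (hG : TN N G) : DN N (fun u => P (F u) (G u)) := by
  have h1 : DN N (fun u => P (F fun i => u (i + 1)) (u 0)) :=
    DN.push hN hP (hF.rn (fun i => i + 1)) (fun i => i)
  exact DN.push hN h1 hG id

theorem DN.at3 (hN : ZFm N) {P : V → V → V → Prop} (hP : DN N (fun u => P (u 0) (u 1) (u 2)))
    (hF : TN N F) (hG : TN N G) (hE : TN N E) : DN N (fun u => P (F u) (G u) (E u)) := by
  have h1 : DN N (fun u => P (F fun i => u (i + 2)) (u 0) (u 1)) :=
    DN.push hN hP (hF.rn (fun i => i + 2)) (fun i => i)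
  have h2 : DN N (fun u => P (F fun i => u (i + 1)) (G fun i => u (i + 1)) (u 0)) :=
    DN.push hN h1 (hG.rn (fun i => i + 1)) (fun i => i)
  exact DN.push hN h2 hE id

theorem TN.at1 (hN : ZFm N) {P : V → V} (hP : TN N (fun u => P (u 0))) (hF : TN N F) :
    TN N (fun u => P (F u)) := TN.push hN hP hF id

theorem TN.at2 (hN : ZFm N) {P : V → V → V} (hP : TN N (fun u => P (u 0) (u 1)))
    (hF : TN N F) (hG : TN N G) : TN N (fun u => P (F u) (G u)) := by
  have h1 : TN N (fun u => P (F fun i => u (i + 1)) (u 0)) :=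
    TN.push hN hP (hF.rn (fun i => i + 1)) (fun i => i)
  exact TN.push hN h1 hG id

theorem TN.at3 (hN : ZFm N) {P : V → V → V → V} (hP : TN N (fun u => P (u 0) (u 1) (u 2)))
    (hF : TN N F) (hG : TN N G) (hE : TN N E) : TN N (fun u => P (F u) (G u) (E u)) := by
  have h1 : TN N (fun u => P (F fun i => u (i + 2)) (u 0) (u 1)) :=
    TN.push hN hP (hF.rn (fun i => i + 2)) (fun i => i)
  have h2 : TN N (fun u => P (F fun i => u (i + 1)) (G fun i => u (i + 1)) (u 0)) :=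
    TN.push hN h1 (hG.rn (fun i => i + 1)) (fun i => i)
  exact TN.push hN h2 hE id

/-- relations and functions of few variables, without parameters -/
theorem DN.of1 (hN : ZFm N) {P : (V → Prop) → V → Prop} (hP : Dfb ZFm (fun M v => P M (v 0)))
    (hF : TN N F) : DN N (fun u => P N (F u)) := DN.at1 hN (DN.of hN hP) hF

theorem DN.of2 (hN : ZFm N) {P : (V → Prop) → V → V → Prop}
    (hP : Dfb ZFm (fun M v => P M (v 0) (v 1))) (hF : TN N F) (hG : TN N G) :
    DN N (fun u => P N (F u) (G u)) := DN.at2 hN (DN.of hN hP) hF hG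

theorem DN.of3 (hN : ZFm N) {P : (V → Prop) → V → V → V → Prop}
    (hP : Dfb ZFm (fun M v => P M (v 0) (v 1) (v 2))) (hF : TN N F) (hG : TN N G)
    (hE : TN N E) : DN N (fun u => P N (F u) (G u) (E u)) := DN.at3 hN (DN.of hN hP) hF hG hE

theorem TN.of1 (hN : ZFm N) {P : (V → Prop) → V → V} (hP : Tm ZFm (fun M v => P M (v 0)))
    (hF : TN N F) : TN N (fun u => P N (F u)) := TN.at1 hN (TN.of hN hP) hF

theorem TN.of2 (hN : ZFm N) {P : (V → Prop) → V → V → V}
    (hP : Tm ZFm (fun M v => P M (v 0) (v 1))) (hF : TN N F) (hG : TN N G) :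
    TN N (fun u => P N (F u) (G u)) := TN.at2 hN (TN.of hN hP) hF hG

theorem TN.of3 (hN : ZFm N) {P : (V → Prop) → V → V → V → V}
    (hP : Tm ZFm (fun M v => P M (v 0) (v 1) (v 2))) (hF : TN N F) (hG : TN N G)
    (hE : TN N E) : TN N (fun u => P N (F u) (G u) (E u)) := TN.at3 hN (TN.of hN hP) hF hG hE

/-! ### basic relations and functions -/

theorem DN.mem (hN : ZFm N) (hF : TN N F) (hG : TN N G) : DN N (fun u => F u ∈ G u) :=
  DN.of2 hN (P := fun _ x y => x ∈ y) (Dfb.mem (Tm.var 0) (Tm.var 1)) hF hG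

theorem DN.eq (hN : ZFm N) (hF : TN N F) (hG : TN N G) : DN N (fun u => F u = G u) :=
  DN.of2 hN (P := fun _ x y => x = y) (Dfb.eq (Tm.var 0) (Tm.var 1)) hF hG

theorem DN.subset (hN : ZFm N) (hF : TN N F) (hG : TN N G) : DN N (fun u => F u ⊆ G u) :=
  DN.of2 hN (P := fun _ x y => x ⊆ y) (Dfb.subset (Tm.var 0) (Tm.var 1)) hF hG

theorem TN.pair (hN : ZFm N) (hF : TN N F) (hG : TN N G) :
    TN N (fun u => ZFSet.pair (F u) (G u)) :=
  TN.of2 hN (P := fun _ x y => ZFSet.pair x y) (Tm.pair (Tm.var 0) (Tm.var 1)) hF hG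

theorem TN.fst (hN : ZFm N) (hF : TN N F) : TN N (fun u => fst (F u)) :=
  TN.of1 hN (P := fun _ x => SF.fst x) (Tm.fst (Tm.var 0)) hF

theorem TN.snd (hN : ZFm N) (hF : TN N F) : TN N (fun u => snd (F u)) :=
  TN.of1 hN (P := fun _ x => SF.snd x) (Tm.snd (Tm.var 0)) hF

theorem TN.app (hN : ZFm N) (hF : TN N F) (hG : TN N G) : TN N (fun u => app (F u) (G u)) :=
  TN.of2 hN (P := fun _ x y => SF.app x y) (Tm.app (Tm.var 0) (Tm.var 1)) hF hG

theorem TN.union (hN : ZFm N) (hF : TN N F) (hG : TN N G) : TN N (fun u => F u ∪ G u) :=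
  TN.of2 hN (P := fun _ x y => x ∪ y) (Tm.union (Tm.var 0) (Tm.var 1)) hF hG

theorem TN.inter (hN : ZFm N) (hF : TN N F) (hG : TN N G) : TN N (fun u => F u ∩ G u) :=
  TN.of2 hN (P := fun _ x y => x ∩ y) (Tm.inter (Tm.var 0) (Tm.var 1)) hF hG

theorem TN.diff (hN : ZFm N) (hF : TN N F) (hG : TN N G) : TN N (fun u => F u \ G u) :=
  TN.of2 hN (P := fun _ x y => x \ y) (Tm.diff (Tm.var 0) (Tm.var 1)) hF hG

theorem TN.prod (hN : ZFm N) (hF : TN N F) (hG : TN N G) :
    TN N (fun u => ZFSet.prod (F u) (G u)) :=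
  TN.of2 hN (P := fun _ x y => ZFSet.prod x y) (Tm.prod (Tm.var 0) (Tm.var 1)) hF hG

theorem TN.ins (hN : ZFm N) (hF : TN N F) (hG : TN N G) : TN N (fun u => insert (F u) (G u)) :=
  TN.of2 hN (P := fun _ x y => insert x y) (Tm.ins (Tm.var 0) (Tm.var 1)) hF hG

theorem TN.sing (hN : ZFm N) (hF : TN N F) : TN N (fun u => ({F u} : V)) :=
  TN.of1 hN (P := fun _ x => ({x} : V)) (Tm.sing (Tm.var 0)) hF

theorem TN.sUnion (hN : ZFm N) (hF : TN N F) : TN N (fun u => (⋃₀ (F u) : ZFSet)) :=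
  TN.of1 hN (P := fun _ x => (⋃₀ x : ZFSet)) (Tm.sUnion (Tm.var 0)) hF

theorem TN.dm (hN : ZFm N) (hF : TN N F) : TN N (fun u => dm (F u)) :=
  TN.of1 hN (P := fun _ x => SF.dm x) (Tm.dm (Tm.var 0)) hF

theorem TN.rg (hN : ZFm N) (hF : TN N F) : TN N (fun u => rg (F u)) :=
  TN.of1 hN (P := fun _ x => SF.rg x) (Tm.rg (Tm.var 0)) hF

theorem TN.empty (hN : ZFm N) : TN N (fun _ => (∅ : V)) := TN.of hN Tm.empty

theorem TN.om (hN : ZFm N) : TN N (fun _ => SF.om) := TN.of hN Tm.om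

theorem TN.nS (hN : ZFm N) (n : ℕ) : TN N (fun _ => SF.nS n) := TN.of hN (Tm.nS n)

theorem TN.sel (hN : ZFm N) (hS : DN N S) (hF : TN N F) (hG : TN N G) :
    TN N (fun u => sel (S u) (F u) (G u)) := by
  obtain ⟨f, g, hf, hg, q, hq, h⟩ := TN.two hN hF hG
  obtain ⟨R, hR, q', hq', h'⟩ := hS
  refine ⟨_, Tm.sel (dfb_p1 hR) (tm_p2 hf) (tm_p2 hg), ZFSet.pair q' q, npair hN hq' hq,
    fun u hu => ?_⟩
  simp only [cons_zero, cons_succ, fst_pair, snd_pair]
  have e : S u = R N (cons q' fun i => u i) := propext (h' u hu)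
  rw [e, (h u hu).1, (h u hu).2]

/-! ### bounded quantifiers, separation, replacement -/

theorem DN.bex (hN : ZFm N) (hF : TN N F) (hS : DN N S) :
    DN N (fun u => ∃ x ∈ F u, S (cons x u)) := by
  refine (((DN.mem hN (TN.var hN 0) (hF.rn (fun i => i + 1))).and hN hS).ex).congr
    fun u hu => ?_
  constructor
  · rintro ⟨x, hx, h1, h2⟩
    exact ⟨x, h1, h2⟩
  · rintro ⟨x, h1, h2⟩
    exact ⟨x, hN.trans _ (TN.mem hN hF hu) x h1, h1, h2⟩

theorem DN.ball (hN : ZFm N) (hF : TN N F) (hS : DN N S) :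
    DN N (fun u => ∀ x ∈ F u, S (cons x u)) :=
  (DN.bex hN hF hS.not).not.congr fun u hu => by
    simp only [not_exists, not_and, not_not]

theorem TN.sep (hN : ZFm N) (hS : DN N S) (hF : TN N F) :
    TN N (fun u => (F u).sep fun x => S (cons x u)) := by
  obtain ⟨f, g, hf, hg, q, hq, h⟩ := DN.mix hN hS hF
  refine ⟨_, Tm.sep (hf.rn sw) hg, q, hq, fun u hu => ?_⟩
  ext x
  simp only [ZFSet.mem_sep]
  rw [← (h u hu).2]
  refine and_congr_right fun hx => ?_
  rw [cons_sw]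
  exact (h _ (hu.cons (hN.trans _ (TN.mem hN hF hu) x hx))).1

theorem TN.image (hN : ZFm N) (hF : TN N F) (hG : TN N G) :
    TN N (fun u => imS (F u) fun x => G (cons x u)) := by
  obtain ⟨f, g, hf, hg, q, hq, h⟩ := TN.two hN hF hG
  refine ⟨_, Tm.image hf (hg.rn sw), q, hq, fun u hu => ?_⟩
  rw [← (h u hu).1]
  ext y
  simp only [mem_imS]
  refine exists_congr fun x => and_congr_right fun hx => ?_
  rw [(h _ (hu.cons (hN.trans _ (TN.mem hN hF hu) x hx))).2, cons_sw]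

theorem TN.resS (hN : ZFm N) (hF : TN N F) (hG : TN N G) :
    TN N (fun u => resS (F u) fun x => G (cons x u)) := by
  have h := TN.image hN hF (TN.pair hN (TN.var hN 0) hG)
  exact h

theorem TN.iUn (hN : ZFm N) (hF : TN N F) (hG : TN N G) :
    TN N (fun u => (⋃₀ (imS (F u) fun x => G (cons x u)) : ZFSet)) :=
  TN.sUnion hN (TN.image hN hF hG)

/-- the separation axiom -/
theorem DN.sepN (hN : ZFm N) (hS : DN N S) {a : V} (ha : N a) {u : ℕ → V} (hu : In N u) :
    N (a.sep fun x => S (cons x u)) :=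
  TN.mem hN (TN.sep hN hS (TN.cst ha)) hu

/-- the unique element with the property `R`, or `∅` -/
noncomputable def pick (R : (V → Prop) → (ℕ → V) → Prop) (M : V → Prop) (v : ℕ → V) : V :=
  open Classical in
  if h : ∃ x, M x ∧ R M (cons x v) ∧ ∀ y, M y → R M (cons y v) → y = x then h.choose else ∅

theorem pick_eq {R : (V → Prop) → (ℕ → V) → Prop} {M : V → Prop} {v : ℕ → V} {x : V}
    (hx : M x) (h1 : R M (cons x v)) (h2 : ∀ y, M y → R M (cons y v) → y = x) :
    pick R M v = x := by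
  have h : ∃ x, M x ∧ R M (cons x v) ∧ ∀ y, M y → R M (cons y v) → y = x := ⟨x, hx, h1, h2⟩
  unfold pick
  rw [dif_pos h]
  exact h2 _ h.choose_spec.1 h.choose_spec.2.1

theorem pick_neg {R : (V → Prop) → (ℕ → V) → Prop} {M : V → Prop} {v : ℕ → V}
    (h : ¬ ∃ x, M x ∧ R M (cons x v) ∧ ∀ y, M y → R M (cons y v) → y = x) :
    pick R M v = ∅ := by
  unfold pick
  rw [dif_neg h]

theorem tm_pick {R : (V → Prop) → (ℕ → V) → Prop} (hR : Dfb ZFm R) : Tm ZFm (pick R) := by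
  -- `U`: `v 0` is the unique element
  have h1 : Dfb ZFm (fun M v => R M v ∧ ∀ y, M y → R M (cons y fun i => v (i + 1)) →
      y = v 0) := by
    refine hR.and ((Dfb.all (R := fun M w => (R M fun i => w (shr 1 i)) → w 0 = w 1)
      ((hR.rn _).imp (Dfb.eq (Tm.var 0) (Tm.var 1)))).congr fun M k v hv => ?_)
    refine forall_congr' fun y => imp_congr_right fun _ => ?_
    rw [cons_shr_one]
    rfl
  have h2 : Dfb ZFm (fun M v => ∃ x, M x ∧ R M (cons x v) ∧ ∀ y, M y → R M (cons y v) → y = x) :=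
    h1.ex
  refine Tm.of_graph (R := fun M v => (R M v ∧ ∀ y, M y → R M (cons y fun i => v (i + 1)) →
      y = v 0) ∨ (¬ (∃ x, M x ∧ R M (cons x fun i => v (i + 1)) ∧ ∀ y, M y →
        R M (cons y fun i => v (i + 1)) → y = x) ∧ v 0 = ∅)) ?_ ?_ ?_
  · intro M k v hv
    by_cases h : ∃ x, M x ∧ R M (cons x v) ∧ ∀ y, M y → R M (cons y v) → y = x
    · obtain ⟨x, hx, h3, h4⟩ := h
      rw [pick_eq hx h3 h4]
      exact hx
    · rw [pick_neg h]
      exact Tm.empty.1 M k v hv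
  · exact h1.or ((h2.rn (fun i => i + 1)).not.and (Dfb.eq (Tm.var 0) Tm.empty))
  · intro M k v hv x hx
    simp only [cons_zero, cons_succ]
    by_cases h : ∃ x, M x ∧ R M (cons x v) ∧ ∀ y, M y → R M (cons y v) → y = x
    · obtain ⟨z, hz, h3, h4⟩ := id h
      rw [pick_eq hz h3 h4]
      constructor
      · rintro (⟨h5, h6⟩ | ⟨h5, -⟩)
        · exact h4 x hx h5
        · exact absurd h h5
      · rintro rfl
        exact Or.inl ⟨h3, h4⟩
    · rw [pick_neg h]
      constructor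
      · rintro (⟨h5, h6⟩ | ⟨-, h5⟩)
        · exact absurd ⟨x, hx, h5, h6⟩ h
        · exact h5
      · exact fun h5 => Or.inr ⟨h, h5⟩

/-- a function whose graph is definable -/
theorem TN.of_graph (hN : ZFm N) (h0 : ∀ u, In N u → N (F u))
    (h1 : DN N (fun u => u 0 = F fun i => u (i + 1))) : TN N F := by
  obtain ⟨R, hR, q, hq, h⟩ := h1
  have h2 : Dfb ZFm (fun M v => R M fun i => v (sw i)) := hR.rn sw
  refine ⟨_, tm_pick h2, q, hq, fun u hu => ?_⟩
  symm
  have hval : ∀ x, N x → ((R N fun i => cons x (cons q u) (sw i)) ↔ x = F u) := by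
    intro x hx
    rw [cons_sw]
    exact (h (cons x u) (hu.cons hx)).symm
  exact pick_eq (h0 u hu) ((hval _ (h0 u hu)).2 rfl) fun y hy h3 => (hval y hy).1 h3

/-- a function whose membership relation is definable -/
theorem TN.of_mem (hN : ZFm N) (h0 : ∀ u, In N u → N (F u))
    (h1 : DN N (fun u => u 0 ∈ F fun i => u (i + 1))) : TN N F := by
  refine TN.of_graph hN h0 ?_
  have h2 : DN N (fun u => u 0 ∈ u 1 ↔ u 0 ∈ F fun i => u (i + 2)) :=
    (DN.mem hN (TN.var hN 0) (TN.var hN 1)).iff hN (h1.rn (shr 1))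
  refine h2.all.congr fun u hu => ?_
  constructor
  · intro h
    ext x
    constructor
    · intro hx
      exact (h x (hN.trans _ (hu 0) x hx)).1 hx
    · intro hx
      exact (h x (hN.trans _ (h0 _ fun i => hu (i + 1)) x hx)).2 hx
  · intro h x _
    show x ∈ u 0 ↔ _
    rw [h]
    rfl

end UZ
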