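import Pool.Agent.H41.SE.W
import Pool.Agent.H72.UZ.Proc
import Pool.Agent.H41.UZ.TN

/-!
# The calculus of decided relations

`Dc D C r X`: for all parameters `u` in the ground model with `C u` and all generic filters `G` for
the forcing of the closed set of labels `r u`, the property `X u G` is decided by conditions, and
the relation of `p` deciding it is definable in the ground model, with parameters.
-/

set_option linter.unusedVariables false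

open Ordinal Order Set
open scoped ZFSet

namespace SE

open SF

namespace UZ

/-- the library facts which are used; they are all proved in `Pool.Agent.H38.SE.All` -/
structure Lb : Prop where
  AF : T_AF
  AG : T_AG
  AH : SE.T_AH
  AI : T_AI
  BA : T_BA
  BBa : T_BBa
  BBb : T_BBb
  BBc : T_BBc
  BC : T_BC
  BD : T_BD
  BJ : T_BJ
  BK : T_BK
  BL : T_BL
  BM : T_BM
  BN : T_BN
  BO : T_BO
  BP : T_BP
  BQ : T_BQ
  BR : T_BR
  BS : T_BS
  DS : CAA.T_DS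

theorem Lb.F (h : Lb) : Dfn := dfn_of h.AI h.BBa h.BBb

theorem Lb.B (h : Lb) : Frc := frc_of h.BD h.BJ h.BL h.BM

open _root_.UZ

variable {D : Cx} {C C' : (ℕ → V) → Prop} {r s : (ℕ → V) → V} {X Y : (ℕ → V) → V → Prop}
  {S : (ℕ → V) → Prop} {F G' : (ℕ → V) → V}

/-- `r u` is a closed set in `H` -/
def Cr (D : Cx) (r : (ℕ → V) → V) (u : ℕ → V) : Prop := r u ∈ D.H ∧ Cld D.L (r u)

/-- the relation `X` is decided by conditions, definably -/
def Dc (D : Cx) (C : (ℕ → V) → Prop) (r : (ℕ → V) → V) (X : (ℕ → V) → V → Prop) : Prop :=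
  ∃ R : (ℕ → V) → Prop, DN D.N R ∧ ∀ u, In D.N u → Cr D r u → C u →
    ∀ G, D.Gn (r u) G → (X u G ↔ ∃ p ∈ G, R (cons p u))

theorem tnL (hD : D.Ok) : TN D.N (fun _ => D.L) := TN.cst hD.nL

theorem tnH (hD : D.Ok) : TN D.N (fun _ => D.H) := TN.cst hD.hN

theorem tnP (hL : Lb) (hD : D.Ok) (hr : TN D.N r) : TN D.N (fun u => Pos D.L (r u)) :=
  TN.of2 hD.zfm (P := fun _ x y => Pos x y) hL.F.pos (tnL hD) hr

theorem tnO (hL : Lb) (hD : D.Ok) (hr : TN D.N r) : TN D.N (fun u => Odr D.L (r u)) :=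
  TN.of2 hD.zfm (P := fun _ x y => Odr x y) hL.F.odr (tnL hD) hr

theorem dnCr (hL : Lb) (hD : D.Ok) (hr : TN D.N r) : DN D.N (fun u => Cr D r u) :=
  (DN.mem hD.zfm hr (tnH hD)).and hD.zfm
    (DN.of2 hD.zfm (P := fun _ x y => Cld x y) hL.F.cld (tnL hD) hr)

theorem Dc.congr (h : Dc D C r X) (hC : ∀ u, In D.N u → Cr D r u → C' u → C u)
    (hX : ∀ u, In D.N u → Cr D r u → C' u → ∀ G, D.Gn (r u) G → (X u G ↔ Y u G)) :
    Dc D C' r Y := by
  obtain ⟨R, hR, h2⟩ := h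
  exact ⟨R, hR, fun u h3 h4 h5 G hG =>
    (hX u h3 h4 h5 G hG).symm.trans (h2 u h3 h4 (hC u h3 h4 h5) G hG)⟩

theorem Dc.mono (h : Dc D C r X) (hC : ∀ u, In D.N u → Cr D r u → C' u → C u) : Dc D C' r X :=
  h.congr hC fun _ _ _ _ _ _ => Iff.rfl

theorem Dc.cg (h : Dc D C r X)
    (hX : ∀ u, In D.N u → Cr D r u → C u → ∀ G, D.Gn (r u) G → (X u G ↔ Y u G)) :
    Dc D C r Y := h.congr (fun _ _ _ h => h) hX

/-- properties of the ground model -/
theorem Dc.gr (hS : DN D.N S) : Dc D C r (fun u _ => S u) := by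
  refine ⟨fun w => S fun i => w (i + 1), hS.rn _, fun u h3 h4 h5 G hG => ?_⟩
  constructor
  · intro h
    obtain ⟨p, hp⟩ := hG.1.ne
    exact ⟨p, hp, h⟩
  · rintro ⟨p, hp, h⟩
    exact h

/-- properties which are definable in the extension -/
theorem Dc.base (hL : Lb) (hD : D.Ok) (hr : TN D.N r) {S : (V → Prop) → (ℕ → V) → Prop}
    (hS : Dfb ZFm S) : Dc D C r (fun u G => S (D.W G) (cons G u)) := by
  obtain ⟨O, hO, hO2⟩ := hL.DS S hS
  have h1 : TN D.N (fun w => O D.N (cons (Pos D.L (r fun i => w (i + 1)))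
      (cons (Odr D.L (r fun i => w (i + 1))) fun i => w (i + 1)))) := by
    have h2 : TN D.N (fun w => O D.N (cons (Pos D.L (r fun i => w (i + 1))) w)) :=
      TN.push hD.zfm (TN.of hD.zfm hO) (tnP hL hD (hr.rn (fun i => i + 1))) (fun i => i)
    exact TN.push hD.zfm h2 (tnO hL hD (hr.rn (fun i => i + 1))) (fun i => i + 1)
  refine ⟨_, DN.mem hD.zfm (TN.var hD.zfm 0) h1, fun u h3 h4 h5 G hG => ?_⟩
  exact (hO2 D.N (Pos D.L (r u)) (Odr D.L (r u)) u hD.zfm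
    (TN.mem hD.zfm (tnP hL hD hr) h3) (TN.mem hD.zfm (tnO hL hD hr) h3) (hL.B.po _ _ h4.2) h3).2.1 G hG

/-- the negation -/
theorem Dc.not (hL : Lb) (hD : D.Ok) (hr : TN D.N r) (h : Dc D C r X) : Dc D C r (fun u G => ¬ X u G) := by
  obtain ⟨R, hR, h2⟩ := h
  have hP := tnP hL hD hr
  have hle : ∀ i j : ℕ, DN D.N (fun w => Le (w i) (w j)) := fun i j =>
    DN.of2 hD.zfm (P := fun _ x y => Le x y) hL.F.le (TN.var hD.zfm i) (TN.var hD.zfm j)
  have hR' : DN D.N (fun w => ∀ q ∈ Pos D.L (r fun i => w (i + 1)),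
      R (cons q fun i => w (i + 1)) → ∀ t ∈ Pos D.L (r fun i => w (i + 1)),
        Le t (w 0) → ¬ Le t q) := by
    have h3 : DN D.N (fun w => ∀ t ∈ Pos D.L (r fun i => w (i + 2)), Le t (w 1) → ¬ Le t (w 0)) :=
      DN.ball hD.zfm (hP.rn (fun i => i + 2)) ((hle 0 2).imp hD.zfm (hle 0 1).not)
    refine (DN.ball hD.zfm (hP.rn (fun i => i + 1)) ((hR.rn (shr 1)).imp hD.zfm h3)).congr
      fun u hu => ?_
    refine forall_congr' fun q => imp_congr_right fun _ => ?_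
    rw [cons_shr_one]
    rfl
  refine ⟨_, hR', fun u h3 h4 h5 G hG => ?_⟩
  show ¬ X u G ↔ ∃ p ∈ G, ∀ q ∈ Pos D.L (r u), R (cons q u) →
      ∀ t ∈ Pos D.L (r u), Le t p → ¬ Le t q
  rw [h2 u h3 h4 h5 G hG]
  have hPN := TN.mem hD.zfm hP h3
  have hN1 : D.N ((Pos D.L (r u)).sep fun p => R (cons p u)) := hR.sepN hD.zfm hPN h3
  have hN2 : D.N ((Pos D.L (r u)).sep fun p => ∀ q ∈ Pos D.L (r u), R (cons q u) →
      ∀ t ∈ Pos D.L (r u), Le t p → ¬ Le t q) := hR'.sepN hD.zfm hPN h3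
  have hpo := hL.B.po D.L (r u) h4.2
  constructor
  · intro h
    have hN3 : D.N (((Pos D.L (r u)).sep fun p => ∃ q ∈ ((Pos D.L (r u)).sep fun p =>
        R (cons p u)), Le p q) ∪ (Pos D.L (r u)).sep fun p =>
        ∀ q ∈ Pos D.L (r u), R (cons q u) → ∀ t ∈ Pos D.L (r u), Le t p → ¬ Le t q) := by
      have h7 : TN D.N (fun w => ((w 0).sep fun p => ∃ q ∈ w 1, Le p q) ∪ w 2) :=
        TN.union hD.zfm (TN.sep (S := fun w => ∃ q ∈ w 2, Le (w 0) q) hD.zfm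
          (DN.bex hD.zfm (TN.var hD.zfm 2) (hle 1 0)) (TN.var hD.zfm 0)) (TN.var hD.zfm 2)
      exact TN.mem hD.zfm h7 (u := cons (Pos D.L (r u)) (cons ((Pos D.L (r u)).sep fun p =>
        R (cons p u)) (cons ((Pos D.L (r u)).sep fun p => ∀ q ∈ Pos D.L (r u), R (cons q u) →
          ∀ t ∈ Pos D.L (r u), Le t p → ¬ Le t q) u)))
        (((h3.cons hN2).cons hN1).cons hPN)
    obtain ⟨p, hp, hp2⟩ := hG.2 _ hN3 (by
      constructor
      · intro p hp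
        rcases ZFSet.mem_union.1 hp with h7 | h7
        · exact (ZFSet.mem_sep.1 h7).1
        · exact (ZFSet.mem_sep.1 h7).1
      · intro p hp
        by_cases h7 : ∃ q ∈ Pos D.L (r u), R (cons q u) ∧
            ∃ t ∈ Pos D.L (r u), Le t p ∧ Le t q
        · obtain ⟨q, hq, h8, t, ht, h9, h10⟩ := h7
          refine ⟨t, ZFSet.mem_union.2 (Or.inl (ZFSet.mem_sep.2 ⟨ht, q,
            ZFSet.mem_sep.2 ⟨hq, h8⟩, h10⟩)), mem_Odr.2 ⟨ht, hp, h9⟩⟩
        · refine ⟨p, ZFSet.mem_union.2 (Or.inr (ZFSet.mem_sep.2 ⟨hp, ?_⟩)), hpo.refl p hp⟩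
          intro q hq h8 t ht h9 h10
          exact h7 ⟨q, hq, h8, t, ht, h9, h10⟩)
    rcases ZFSet.mem_union.1 hp2 with h7 | h7
    · obtain ⟨h8, q, hq, h9⟩ := ZFSet.mem_sep.1 h7
      obtain ⟨hq1, hq2⟩ := ZFSet.mem_sep.1 hq
      exact absurd ⟨q, hG.1.up p hp q (mem_Odr.2 ⟨h8, hq1, h9⟩), hq2⟩ h
    · exact ⟨p, hp, (ZFSet.mem_sep.1 h7).2⟩
  · rintro ⟨p, hp, h7⟩ ⟨q, hq, h8⟩
    obtain ⟨t, ht, h9, h10⟩ := hG.1.dir p hp q hq
    exact h7 q (gn_sub hG hq) h8 t (gn_sub hG ht) (mem_Odr.1 h9).2.2 (mem_Odr.1 h10).2.2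

/-- the conjunction -/
theorem Dc.and (hL : Lb) (hD : D.Ok) (hr : TN D.N r) (h : Dc D C r X) (h' : Dc D C r Y) :
    Dc D C r (fun u G => X u G ∧ Y u G) := by
  obtain ⟨R, hR, h2⟩ := h
  obtain ⟨R', hR', h2'⟩ := h'
  have hle : ∀ i j : ℕ, DN D.N (fun w => Le (w i) (w j)) := fun i j =>
    DN.of2 hD.zfm (P := fun _ x y => Le x y) hL.F.le (TN.var hD.zfm i) (TN.var hD.zfm j)
  have h3 : ∀ {R : (ℕ → V) → Prop}, DN D.N R → DN D.N (fun w =>
      ∃ q ∈ Pos D.L (r fun i => w (i + 1)), Le (w 0) q ∧ R (cons q fun i => w (i + 1))) := by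
    intro R hR
    refine (DN.bex hD.zfm ((tnP hL hD hr).rn (fun i => i + 1))
      ((hle 1 0).and hD.zfm (hR.rn (shr 1)))).congr fun u hu => ?_
    refine exists_congr fun q => and_congr_right fun _ => ?_
    rw [cons_shr_one]
    rfl
  refine ⟨_, (h3 hR).and hD.zfm (h3 hR'), fun u h3 h4 h5 G hG => ?_⟩
  show (X u G ∧ Y u G) ↔ ∃ p ∈ G, (∃ q ∈ Pos D.L (r u), Le p q ∧ R (cons q u)) ∧
        ∃ q ∈ Pos D.L (r u), Le p q ∧ R' (cons q u)
  rw [h2 u h3 h4 h5 G hG, h2' u h3 h4 h5 G hG]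
  constructor
  · rintro ⟨⟨p, hp, h7⟩, q, hq, h8⟩
    obtain ⟨t, ht, h9, h10⟩ := hG.1.dir p hp q hq
    exact ⟨t, ht, ⟨p, gn_sub hG hp, (mem_Odr.1 h9).2.2, h7⟩,
      q, gn_sub hG hq, (mem_Odr.1 h10).2.2, h8⟩
  · rintro ⟨p, hp, ⟨q, hq, h7, h8⟩, q', hq', h9, h10⟩
    exact ⟨⟨q, hG.1.up p hp q (mem_Odr.2 ⟨gn_sub hG hp, hq, h7⟩), h8⟩,
      q', hG.1.up p hp q' (mem_Odr.2 ⟨gn_sub hG hp, hq', h9⟩), h10⟩

theorem Dc.or (hL : Lb) (hD : D.Ok) (hr : TN D.N r) (h : Dc D C r X) (h' : Dc D C r Y) :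
    Dc D C r (fun u G => X u G ∨ Y u G) :=
  (((h.not hL hD hr).and hL hD hr (h'.not hL hD hr)).not hL hD hr).cg fun u _ _ _ G _ => by tauto

theorem Dc.imp (hL : Lb) (hD : D.Ok) (hr : TN D.N r) (h : Dc D C r X) (h' : Dc D C r Y) :
    Dc D C r (fun u G => X u G → Y u G) :=
  ((h.and hL hD hr (h'.not hL hD hr)).not hL hD hr).cg fun u _ _ _ G _ => by tauto

theorem Dc.iff (hL : Lb) (hD : D.Ok) (hr : TN D.N r) (h : Dc D C r X) (h' : Dc D C r Y) :
    Dc D C r (fun u G => (X u G ↔ Y u G)) :=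
  ((h.imp hL hD hr h').and hL hD hr (h'.imp hL hD hr h)).cg fun u _ _ _ G _ => by tauto

/-- quantifier over the elements of the ground model with a definable property -/
theorem Dc.ex (hL : Lb) (hD : D.Ok) (hS : DN D.N S) (h : Dc D C' (fun u => r fun i => u (i + 1)) X)
    (hC : ∀ u y, In D.N u → Cr D r u → C u → D.N y → S (cons y u) → C' (cons y u)) :
    Dc D C r (fun u G => ∃ y, D.N y ∧ S (cons y u) ∧ X (cons y u) G) := by
  obtain ⟨R, hR, h2⟩ := h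
  have h3 : DN D.N (fun w => ∃ y, D.N y ∧ S (cons y fun i => w (i + 1)) ∧
      R (cons (w 0) (cons y fun i => w (i + 1)))) := by
    refine (((hS.rn (shr 1)).and hD.zfm (hR.rn sw)).ex).congr fun w hw => ?_
    refine exists_congr fun y => and_congr_right fun _ => ?_
    have e1 : (fun i => cons y w (sw i)) = cons (w 0) (cons y fun i => w (i + 1)) := by
      funext i
      match i with
      | 0 => rfl
      | 1 => rfl
      | n + 2 => rfl
    rw [cons_shr_one, e1]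
  refine ⟨_, h3, fun u h3 h4 h5 G hG => ?_⟩
  constructor
  · rintro ⟨y, hy, h6, h7⟩
    obtain ⟨p, hp, h8⟩ := (h2 (cons y u) (h3.cons hy) h4 (hC u y h3 h4 h5 hy h6) G hG).1 h7
    exact ⟨p, hp, y, hy, h6, h8⟩
  · rintro ⟨p, hp, y, hy, h6, h8⟩
    exact ⟨y, hy, h6, (h2 (cons y u) (h3.cons hy) h4 (hC u y h3 h4 h5 hy h6) G hG).2 ⟨p, hp, h8⟩⟩

theorem Dc.all (hL : Lb) (hD : D.Ok) (hr : TN D.N r) (hS : DN D.N S)
    (h : Dc D C' (fun u => r fun i => u (i + 1)) X)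
    (hC : ∀ u y, In D.N u → Cr D r u → C u → D.N y → S (cons y u) → C' (cons y u)) :
    Dc D C r (fun u G => ∀ y, D.N y → S (cons y u) → X (cons y u) G) :=
  ((Dc.ex hL hD hS (h.not hL hD (hr.rn (fun i => i + 1))) hC).not hL hD hr).cg fun u _ _ _ G _ => by
    simp only [not_exists, not_and, not_not]

/-- substitution for the first variable, renaming of the others -/
theorem Dc.push (hL : Lb) (hD : D.Ok) (h : Dc D C' s X) (hF : TN D.N F) (ρ : ℕ → ℕ)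
    (hs : ∀ u, In D.N u → Cr D r u → C u → s (cons (F u) fun i => u (ρ i)) = r u)
    (hC : ∀ u, In D.N u → Cr D r u → C u → C' (cons (F u) fun i => u (ρ i))) :
    Dc D C r (fun u G => X (cons (F u) fun i => u (ρ i)) G) := by
  obtain ⟨R, hR, h2⟩ := h
  have h3 : DN D.N (fun w => R (cons (w 0) (cons (F fun i => w (i + 1))
      fun i => w (ρ i + 1)))) := by
    have h4 : DN D.N (fun w => R fun i => w (sw i)) := hR.rn sw
    refine (DN.push hD.zfm h4 (hF.rn (fun i => i + 1)) (fun i => match i with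
      | 0 => 0
      | i + 1 => ρ i + 1)).congr fun w hw => ?_
    have e : (fun i => (cons (F fun i => w (i + 1)) fun i => w (match i with
      | 0 => 0
      | i + 1 => ρ i + 1)) (sw i)) = cons (w 0) (cons (F fun i => w (i + 1))
        fun i => w (ρ i + 1)) := by
      funext i
      match i with
      | 0 => rfl
      | 1 => rfl
      | n + 2 => rfl
    rw [e]
  refine ⟨_, h3, fun u h3 h4 h5 G hG => ?_⟩
  have h6 : In D.N (cons (F u) fun i => u (ρ i)) := In.cons (fun i => h3 _) (TN.mem hD.zfm hF h3)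
  have h7 := hs u h3 h4 h5
  refine h2 _ h6 ?_ (hC u h3 h4 h5) G (by rw [h7]; exact hG)
  unfold Cr
  rw [h7]
  exact h4

/-- renaming -/
theorem Dc.rn (h : Dc D C' s X) (ρ : ℕ → ℕ)
    (hC : ∀ u, In D.N u → Cr D (fun u => s fun i => u (ρ i)) u → C u → C' fun i => u (ρ i)) :
    Dc D C (fun u => s fun i => u (ρ i)) (fun u G => X (fun i => u (ρ i)) G) := by
  obtain ⟨R, hR, h2⟩ := h
  refine ⟨_, hR.rn (upr ρ), fun u h3 h4 h5 G hG => ?_⟩
  refine (h2 (fun i => u (ρ i)) (fun i => h3 _) h4 (hC u h3 h4 h5) G hG).trans ?_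
  refine exists_congr fun p => and_congr_right fun _ => ?_
  rw [cons_upr]

/-- change of the term for the set of labels -/
theorem Dc.cr (h : Dc D C s X) (hs : ∀ u, In D.N u → Cr D r u → C u → s u = r u) :
    Dc D C r X := by
  obtain ⟨R, hR, h2⟩ := h
  refine ⟨R, hR, fun u h3 h4 h5 G hG => ?_⟩
  have h7 := hs u h3 h4 h5
  refine h2 u h3 ?_ h5 G (by rw [h7]; exact hG)
  unfold Cr
  rw [h7]
  exact h4

/-- restriction of the filter to a closed subset -/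
theorem Dc.sub (hL : Lb) (hD : D.Ok) (hs : TN D.N s) (h : Dc D C' s X)
    (hC : ∀ u, In D.N u → Cr D r u → C u → Cr D s u ∧ s u ⊆ r u ∧ C' u) :
    Dc D C r (fun u G => X u (gs G (s u))) := by
  obtain ⟨R, hR, h2⟩ := h
  refine ⟨_, (DN.subset hD.zfm (TN.dm hD.zfm (TN.var hD.zfm 0)) (hs.rn (fun i => i + 1))).and
    hD.zfm hR, fun u h3 h4 h5 G hG => ?_⟩
  obtain ⟨c1, c2, c3⟩ := hC u h3 h4 h5
  refine (h2 u h3 c1 c3 _ (hL.B.res D hD _ _ G ⟨h4.1, h4.2, hG⟩ c1.1 c1.2 c2)).trans ?_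
  constructor
  · rintro ⟨p, hp, h7⟩
    unfold SE.gs at hp
    rw [ZFSet.mem_sep] at hp
    exact ⟨p, hp.1, hp.2, h7⟩
  · rintro ⟨p, hp, h7, h8⟩
    refine ⟨p, ?_, h8⟩
    unfold SE.gs
    rw [ZFSet.mem_sep]
    exact ⟨hp, h7⟩

/-- quantifier over the extensions of the filter to a larger closed set -/
theorem Dc.ext (hL : Lb) (hD : D.Ok) (hr : TN D.N r) (hs : TN D.N s) (h : Dc D C' s X)
    (hC : ∀ u, In D.N u → Cr D r u → C u → Cr D s u ∧ r u ⊆ s u ∧ C' u) :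
    Dc D C r (fun u G => ∃ G', D.Gn (s u) G' ∧ gs G' (r u) = G ∧ X u G') := by
  obtain ⟨R, hR, h2⟩ := h
  have h3 : DN D.N (fun w => ∃ p ∈ Pos D.L (s fun i => w (i + 1)),
      w 0 = rst (r fun i => w (i + 1)) p ∧ R (cons p fun i => w (i + 1))) := by
    refine (DN.bex hD.zfm ((tnP hL hD hs).rn (fun i => i + 1)) ((DN.eq hD.zfm (TN.var hD.zfm 1)
      (TN.of2 hD.zfm (P := fun _ x y => SE.rst x y) hL.F.rst (hr.rn (fun i => i + 2))
        (TN.var hD.zfm 0))).and hD.zfm (hR.rn (shr 1)))).congr fun w hw => ?_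
    refine exists_congr fun p => and_congr_right fun _ => ?_
    rw [cons_shr_one]
    rfl
  refine ⟨_, h3, fun u h3 h4 h5 G hG => ?_⟩
  obtain ⟨c1, c2, c3⟩ := hC u h3 h4 h5
  constructor
  · rintro ⟨G', hG', hE, h7⟩
    obtain ⟨p', hp', h8⟩ := (h2 u h3 c1 c3 G' hG').1 h7
    have hpP := gn_sub hG' hp'
    obtain ⟨h9, h10, h11⟩ := hL.B.rst D.L (s u) (r u) p' c1.2 h4.2 c2 hpP
    refine ⟨SE.rst (r u) p', ?_, p', hpP, rfl, h8⟩
    rw [← hE]
    unfold SE.gs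
    rw [ZFSet.mem_sep]
    exact ⟨hG'.1.up p' hp' _ (mem_Odr.2 ⟨hpP, h10, h11⟩),
      ((hL.B.sub D.L (s u) (r u) _ c1.2 h4.2 c2).1 h9).2⟩
  · rintro ⟨p, hp, p', hp', h9, h10⟩
    have h9' : p = SE.rst (r u) p' := h9
    subst h9'
    obtain ⟨G', hE, hpG⟩ := hL.B.ext D hD (r u) G (s u) p' ⟨h4.1, h4.2, hG⟩ c1.1 c1.2 c2 hp' hp
    exact ⟨G', hE.st.g, hE.res, (h2 u h3 c1 c3 G' hE.st.g).2 ⟨p', hpG, h10⟩⟩

/-- for all generic filters -/
theorem Dc.allG (hL : Lb) (hD : D.Ok) (hr : TN D.N r) (h : Dc D C r X) :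
    ∃ S, DN D.N S ∧ ∀ u, In D.N u → Cr D r u → C u →
      ((∀ G, D.Gn (r u) G → X u G) ↔ S u) := by
  obtain ⟨R, hR, h2⟩ := h.not hL hD hr
  refine ⟨fun u => ∀ p ∈ Pos D.L (r u), ¬ R (cons p u), DN.ball hD.zfm (tnP hL hD hr) hR.not, ?_⟩
  intro u h3 h4 h5
  constructor
  · intro h7 p hp h8
    obtain ⟨G, hG, hpG⟩ := hL.B.gen D hD (r u) p h4.1 h4.2 hp
    exact (h2 u h3 h4 h5 G hG).2 ⟨p, hpG, h8⟩ (h7 G hG)
  · intro h7 G hG
    by_contra h8
    obtain ⟨p, hp, h9⟩ := (h2 u h3 h4 h5 G hG).1 h8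
    exact h7 p (gn_sub hG hp) h9

/-- for all generic filters, with the conditions as a part of the relation -/
theorem Dc.dnG (hL : Lb) (hD : D.Ok) (hr : TN D.N r) (hC : DN D.N C) (h : Dc D C r X) :
    DN D.N (fun u => Cr D r u ∧ C u ∧ ∀ G, D.Gn (r u) G → X u G) := by
  obtain ⟨S, hS, h2⟩ := h.allG hL hD hr
  refine ((dnCr hL hD hr).and hD.zfm (hC.and hD.zfm hS)).congr fun u hu => ?_
  constructor
  · rintro ⟨h3, h4, h5⟩
    exact ⟨h3, h4, (h2 u hu h3 h4).2 h5⟩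
  · rintro ⟨h3, h4, h5⟩
    exact ⟨h3, h4, (h2 u hu h3 h4).1 h5⟩

/-- the decision set -/
theorem Dc.dec (hL : Lb) (hD : D.Ok) (hr : TN D.N r) (h : Dc D C r X) {u : ℕ → V} (h3 : In D.N u)
    (h4 : Cr D r u) (h5 : C u) : D.Dec (r u) (X u) := by
  obtain ⟨R, hR, h2⟩ := h
  refine ⟨_, hR.sepN hD.zfm (TN.mem hD.zfm (tnP hL hD hr) h3) h3, fun G hG => ?_⟩
  rw [h2 u h3 h4 h5 G hG]
  refine exists_congr fun p => and_congr_right fun hp => ?_
  rw [ZFSet.mem_sep]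
  exact ⟨fun h => ⟨gn_sub hG hp, h⟩, fun h => h.2⟩

end UZ

end SE
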