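import Pool.Agent.H41.UZ.TN

/-!
# Recursion, power sets, choice for functions which are definable with parameters
-/

set_option linter.unusedVariables false

open Ordinal Order Set
open scoped ZFSet

namespace UZ

open SF

variable {N : V → Prop} {S T : (ℕ → V) → Prop} {F G E : (ℕ → V) → V}

/-! ### ranks and ordinals -/

theorem TN.rkS (hN : ZFm N) (hF : TN N F) : TN N (fun u => rkS (F u)) :=
  TN.of1 hN (P := fun _ x => SF.rkS x) (Tm.rkS (Tm.var 0)) hF

theorem rkS_mem_rkS {x y : V} : rkS x ∈ rkS y ↔ x.rank < y.rank :=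
  Ordinal.toZFSet_mem_toZFSet_iff

theorem DN.isOrd (hN : ZFm N) (hF : TN N F) : DN N (fun u => IsOrd (F u)) :=
  DN.of1 hN (P := fun _ x => IsOrd x) (Dfb.isOrd (Tm.var 0)) hF

theorem IsOrd.rk {x : V} (h : IsOrd x) : rkS x = x := by
  obtain ⟨α, rfl⟩ := h
  unfold SF.rkS
  rw [Ordinal.rank_toZFSet]

theorem isOrd_toZFSet (α : Ordinal.{0}) : IsOrd α.toZFSet := ⟨α, rfl⟩

theorem toZFSet_mem {α β : Ordinal.{0}} : α.toZFSet ∈ β.toZFSet ↔ α < β :=
  Ordinal.toZFSet_mem_toZFSet_iff

theorem IsOrd.of_mem {x y : V} (h : IsOrd x) (hy : y ∈ x) : IsOrd y := by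
  obtain ⟨α, rfl⟩ := h
  obtain ⟨β, _, rfl⟩ := Ordinal.mem_toZFSet_iff.1 hy
  exact ⟨β, rfl⟩

theorem IsOrd.rank_toZFSet {x : V} (h : IsOrd x) : x.rank.toZFSet = x := IsOrd.rk h

/-! ### recursion on the rank -/

/-- recursion on the rank of `k` -/
noncomputable def Rcr (Ex Ph : (V → Prop) → (ℕ → V) → V) (M : V → Prop) (w : ℕ → V) (k : V) : V :=
  Ph M (cons (ZFSet.range fun y : {y // y ∈ (Ex M (cons k w)).sep fun y => y.rank < k.rank} =>
    ZFSet.pair y.1 (Rcr Ex Ph M w y.1)) (cons k w))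
termination_by k.rank
decreasing_by exact (ZFSet.mem_sep.1 y.2).2

theorem rcr_eq (Ex Ph : (V → Prop) → (ℕ → V) → V) (M : V → Prop) (w : ℕ → V) (k : V) :
    Rcr Ex Ph M w k = Ph M (cons (resS ((Ex M (cons k w)).sep fun y => y.rank < k.rank)
      fun y => Rcr Ex Ph M w y) (cons k w)) := by
  rw [Rcr]
  rfl

theorem tm_rcr {Ex Ph : (V → Prop) → (ℕ → V) → V} (hE : Tm ZFm Ex) (hP : Tm ZFm Ph) :
    Tm ZFm (fun M v => Rcr Ex Ph M (fun i => v (i + 1)) (v 0)) := by
  have h1 : Tm ZFm (fun M v => (Ex M v).sep fun y => y.rank < (v 0).rank) := by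
    refine (Tm.sep (R := fun _ w => rkS (w 0) ∈ rkS (w 1)) (Dfb.mem (Tm.rkS (Tm.var 0))
      (Tm.rkS (Tm.var 1))) hE).congr fun M k v hv => ?_
    ext y
    rw [ZFSet.mem_sep, ZFSet.mem_sep]
    exact and_congr_right fun _ => rkS_mem_rkS
  refine tm_recu (ext := fun M v => (Ex M v).sep fun y => y.rank < (v 0).rank) (Φ := Ph)
    ZFSet.rank h1 hP ?_ ?_
  · intro M k v hv y hy
    exact (ZFSet.mem_sep.1 hy).2
  · intro M k v hv
    show Rcr Ex Ph M (fun i => v (i + 1)) (v 0) = _
    rw [rcr_eq, cons_tail]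
    rfl

/-- the recursion theorem -/
theorem TN.recu (hN : ZFm N) (hE : TN N E) (hG : TN N G)
    (hdec : ∀ u, In N u → ∀ y ∈ E u, y.rank < (u 0).rank)
    (hF : ∀ u, In N u → F u = G (cons (SF.resS (E u) fun y => F (cons y fun i => u (i + 1))) u)) :
    TN N F := by
  obtain ⟨f, g, hf, hg, q, hq, h⟩ := TN.two hN hE hG
  -- the assignments are `k, q, u 1, u 2, ...`
  have hE' : Tm ZFm (fun M v => f M fun i => v (sw i)) := hf.rn sw
  have hG' : Tm ZFm (fun M v => g M (cons (v 2) (cons (v 0) (cons (v 1) fun i => v (i + 3))))) := by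
    refine (hg.rn (fun i => match i with
      | 0 => 2
      | 1 => 0
      | 2 => 1
      | i + 3 => i + 3)).congr fun M k v hv => ?_
    congr 1
    funext i
    match i with
    | 0 => rfl
    | 1 => rfl
    | 2 => rfl
    | i + 3 => rfl
  have key : ∀ w, In N w → ∀ k, N k → F (cons k w) = Rcr (fun M v => f M fun i => v (sw i))
      (fun M v => g M (cons (v 2) (cons (v 0) (cons (v 1) fun i => v (i + 3))))) N (cons q w) k := by
    intro w hw k
    induction hk : k.rank using WellFoundedLT.induction generalizing k with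
    | _ a ih =>
      intro hkN
      have h1 := hF (cons k w) (hw.cons hkN)
      have hEN : N (E (cons k w)) := TN.mem hN hE (hw.cons hkN)
      have e1 : (f N fun i => cons k (cons q w) (sw i)) = E (cons k w) := by
        rw [cons_sw]
        exact (h _ (hw.cons hkN)).1.symm
      have e2 : ((f N fun i => cons k (cons q w) (sw i)).sep fun y => y.rank < k.rank) =
          E (cons k w) := by
        rw [e1]
        ext y
        rw [ZFSet.mem_sep]
        exact ⟨fun h => h.1, fun h2 => ⟨h2, hdec _ (hw.cons hkN) y h2⟩⟩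
      rw [rcr_eq, e2]
      have e3 : (SF.resS (E (cons k w)) fun y => Rcr (fun M v => f M fun i => v (sw i))
          (fun M v => g M (cons (v 2) (cons (v 0) (cons (v 1) fun i => v (i + 3))))) N
            (cons q w) y) = SF.resS (E (cons k w)) fun y => F (cons y w) := by
        refine SF.resS_congr fun y hy => ?_
        refine (ih y.rank ?_ y rfl (hN.trans _ hEN y hy)).symm
        rw [← hk]
        exact hdec _ (hw.cons hkN) y hy
      rw [e3, h1]
      have hres : N (SF.resS (E (cons k w)) fun y => F (cons y w)) := by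
        rw [← e3]
        have h4 := (Tm.resS (f := fun M v => f M fun i => v (match i with
            | 0 => 1
            | 1 => 0
            | i + 2 => i + 2)) (g := fun M v => Rcr (fun M v => f M fun i => v (sw i))
            (fun M v => g M (cons (v 2) (cons (v 0) (cons (v 1) fun i => v (i + 3))))) M
              (fun i => v (i + 2)) (v 0)) (hf.rn _) (((tm_rcr hE' hG').rn (fun i => match i with
              | 0 => 0
              | i + 1 => i + 2)).congr fun M k v hv => rfl)).1 N hN (cons k (cons q w))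
              ((hw.cons hq).cons hkN)
        have e4 : (f N fun i => cons k (cons q w) (match i with
            | 0 => 1
            | 1 => 0
            | i + 2 => i + 2)) = E (cons k w) := by
          rw [← e1]
          congr 1
        rw [← e4]
        exact h4
      exact (h _ ((hw.cons hkN).cons hres)).2
  have h5 := tm_rcr hE' hG'
  refine TN.congr (F := fun u => Rcr (fun M v => f M fun i => v (sw i))
      (fun M v => g M (cons (v 2) (cons (v 0) (cons (v 1) fun i => v (i + 3))))) N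
        (cons q fun i => u (i + 1)) (u 0)) ⟨_, h5.rn sw, q, hq, fun u hu => ?_⟩ fun u hu => ?_
  · have e6 : (fun i => cons q u (sw (i + 1))) = cons q fun i => u (i + 1) := by
      funext i
      match i with
      | 0 => rfl
      | i + 1 => rfl
    show _ = Rcr _ _ N (fun i => cons q u (sw (i + 1))) (cons q u (sw 0))
    rw [e6]
    rfl
  · rw [← key _ (fun i => hu _) _ (hu 0), cons_tail]

/-! ### power sets -/

/-- the power set in `N` -/
noncomputable def pwN (N : V → Prop) (a : V) : V := (ZFSet.powerset a).sep N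

theorem mem_pwN {a x : V} : x ∈ pwN N a ↔ x ⊆ a ∧ N x := by
  unfold pwN
  rw [ZFSet.mem_sep, ZFSet.mem_powerset]

theorem pwN_mem (hN : ZFC N) {a : V} (ha : N a) : N (pwN N a) := by
  obtain ⟨y, hy, h⟩ := hN.pow a ha
  have h1 : N (y.sep fun x => x ⊆ a) := by
    have h2 : DN N (fun u => u 0 ⊆ u 1) :=
      DN.subset hN.toZFCm.toZFm (TN.var hN.toZFCm.toZFm 0) (TN.var hN.toZFCm.toZFm 1)
    exact h2.sepN hN.toZFCm.toZFm hy (u := fun _ => a) fun _ => ha
  have e : pwN N a = y.sep fun x => x ⊆ a := by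
    ext x
    rw [mem_pwN, ZFSet.mem_sep]
    constructor
    · rintro ⟨h2, h3⟩
      exact ⟨h x h3 h2, h2⟩
    · rintro ⟨h2, h3⟩
      exact ⟨h3, hN.trans _ hy x h2⟩
  rw [e]
  exact h1

theorem TN.pw (hN : ZFC N) (hF : TN N F) : TN N (fun u => pwN N (F u)) := by
  have h := hN.toZFCm.toZFm
  refine TN.at1 (P := fun x => pwN N x) h ?_ hF
  refine TN.of_mem h (fun u hu => pwN_mem hN (hu 0)) ?_
  refine (DN.subset h (TN.var h 0) (TN.var h 1)).congr fun u hu => ?_
  show _ ↔ u 0 ∈ pwN N (u 1)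
  rw [mem_pwN]
  exact ⟨fun h => ⟨h, hu 0⟩, fun h => h.1⟩

/-! ### choice -/

/-- the value of `f` at the least ordinal which is mapped to `x` -/
noncomputable def lst (f x : V) : V :=
  app f ((sInf {α : Ordinal.{0} | α.toZFSet ∈ dm f ∧ app f α.toZFSet ∈ x}).toZFSet)

/-- a choice function on the subsets of a set of `N` -/
theorem exists_choice (hN : ZFCm N) {A : V} (hA : N A) :
    ∃ c : V → V, TN N (fun u => c (u 0)) ∧ ∀ x, x ⊆ A → x.Nonempty → c x ∈ x := by
  have hM := hN.toZFm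
  obtain ⟨α, f, hf, hon⟩ := hN.wo A hA
  have hdm : dm f = α.toZFSet := by
    ext z
    rw [mem_dm]
    constructor
    · rintro ⟨y, hy⟩
      exact (ZFSet.pair_mem_prod.1 (hon.1.1 hy)).1
    · intro hz
      obtain ⟨w, hw, _⟩ := hon.1.2 z hz
      exact ⟨w, hw⟩
  have happ : ∀ β < α, ∀ w, ZFSet.pair β.toZFSet w ∈ f → app f β.toZFSet = w := by
    intro β hβ w hw
    refine app_eq ?_ hw
    intro x y z hy hz
    have hx := (ZFSet.pair_mem_prod.1 (hon.1.1 hy)).1
    obtain ⟨w', _, h2⟩ := hon.1.2 x hx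
    rw [h2 y hy, h2 z hz]
  refine ⟨fun x => sel (x ⊆ A ∧ x.Nonempty) (lst f x) ∅, ?_, ?_⟩
  · -- definability
    have hord : ∀ x, x ⊆ A → x.Nonempty → ∃ β < α, app f β.toZFSet ∈ x ∧
        ∀ γ < β, app f γ.toZFSet ∉ x := by
      intro x hx hne
      obtain ⟨y, hy⟩ := hne
      obtain ⟨a, ha, hay⟩ := hon.2 y (hx hy)
      obtain ⟨β, hβ, rfl⟩ := Ordinal.mem_toZFSet_iff.1 ha
      have hs : {γ : Ordinal.{0} | app f γ.toZFSet ∈ x}.Nonempty := ⟨β, by
        show app f β.toZFSet ∈ x
        rw [happ β hβ y hay]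
        exact hy⟩
      refine ⟨sInf {γ : Ordinal.{0} | app f γ.toZFSet ∈ x}, ?_, csInf_mem hs, ?_⟩
      · refine lt_of_le_of_lt (csInf_le' ?_) hβ
        show app f β.toZFSet ∈ x
        rw [happ β hβ y hay]
        exact hy
      · intro γ hγ h
        have h9 : γ ∈ {γ : Ordinal.{0} | app f γ.toZFSet ∈ x} := h
        exact absurd (csInf_le' h9) (not_le.2 hγ)
    have hval : ∀ x, x ⊆ A → x.Nonempty → ∀ β < α, app f β.toZFSet ∈ x →
        (∀ γ < β, app f γ.toZFSet ∉ x) → lst f x = app f β.toZFSet := by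
      intro x hx hne β hβ h1 h2
      have e : sInf {γ : Ordinal.{0} | γ.toZFSet ∈ dm f ∧ app f γ.toZFSet ∈ x} = β := by
        refine le_antisymm (csInf_le' ⟨by rw [hdm]; exact toZFSet_mem.2 hβ, h1⟩) ?_
        refine le_csInf ⟨β, by rw [hdm]; exact toZFSet_mem.2 hβ, h1⟩ ?_
        rintro γ ⟨_, h3⟩
        by_contra h4
        exact h2 γ (not_le.1 h4) h3
      unfold lst
      rw [e]
    have hsub : TN N (fun u => lst f (u 0)) → TN N (fun u => sel (u 0 ⊆ A ∧ (u 0).Nonempty)
        (lst f (u 0)) ∅) := fun h =>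
      TN.sel hM ((DN.subset hM (TN.var hM 0) (TN.cst hA)).and hM
        (DN.of1 hM (P := fun _ x => x.Nonempty) (Dfb.ne (Tm.var 0)) (TN.var hM 0))) h
        (TN.empty hM)
    -- the graph
    refine TN.of_graph hM ?_ ?_
    · intro u hu
      show N (sel (u 0 ⊆ A ∧ (u 0).Nonempty) (lst f (u 0)) ∅)
      by_cases h : u 0 ⊆ A ∧ (u 0).Nonempty
      · rw [sel_pos h]
        obtain ⟨β, hβ, h1, h2⟩ := hord _ h.1 h.2
        rw [hval _ h.1 h.2 β hβ h1 h2]
        exact hM.trans _ (hu 0) _ h1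
      · rw [sel_neg h]
        exact (TN.mem hM (TN.empty hM) hu)
    · -- `u 0 = c (u 1)`
      have hff : TN N (fun _ => f) := TN.cst hf
      have h1 : DN N (fun u => ∃ β ∈ dm f, u 0 = app f β ∧ app f β ∈ u 1 ∧
          ∀ γ ∈ β, app f γ ∉ u 1) := by
        have h2 : DN N (fun w => w 1 = app f (w 0) ∧ app f (w 0) ∈ w 2 ∧
            ∀ γ ∈ w 0, app f γ ∉ w 2) :=
          (DN.eq hM (TN.var hM 1) (TN.app hM hff (TN.var hM 0))).and hM
            ((DN.mem hM (TN.app hM hff (TN.var hM 0)) (TN.var hM 2)).and hM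
              ((DN.ball (F := fun w => w 0) (S := fun w => app f (w 0) ∉ w 3) hM (TN.var hM 0)
                (DN.mem hM (TN.app hM hff (TN.var hM 0)) (TN.var hM 3)).not)))
        exact DN.bex hM (TN.dm hM hff) h2
      have h3 : DN N (fun u => (u 1 ⊆ A ∧ (u 1).Nonempty)) :=
        (DN.subset hM (TN.var hM 1) (TN.cst hA)).and hM
          (DN.of1 hM (P := fun _ x => x.Nonempty) (Dfb.ne (Tm.var 0)) (TN.var hM 1))
      refine (((h3.and hM h1).or hM (h3.not.and hM (DN.eq hM (TN.var hM 0)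
        (TN.empty hM))))).congr fun u hu => ?_
      show _ ↔ u 0 = sel (u 1 ⊆ A ∧ (u 1).Nonempty) (lst f (u 1)) ∅
      by_cases h : u 1 ⊆ A ∧ (u 1).Nonempty
      · rw [sel_pos h]
        obtain ⟨β, hβ, h4, h5⟩ := hord _ h.1 h.2
        rw [hval _ h.1 h.2 β hβ h4 h5]
        constructor
        · rintro (⟨_, b, hb, h6, h7, h8⟩ | ⟨h6, _⟩)
          · rw [hdm] at hb
            obtain ⟨β', hβ', rfl⟩ := Ordinal.mem_toZFSet_iff.1 hb
            rcases lt_trichotomy β β' with h9 | h9 | h9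
            · exact absurd h4 (h8 _ (toZFSet_mem.2 h9))
            · rw [h9]; exact h6
            · exact absurd h7 (h5 _ h9)
          · exact absurd h h6
        · intro h6
          refine Or.inl ⟨h, β.toZFSet, by rw [hdm]; exact toZFSet_mem.2 hβ, h6, h4, ?_⟩
          intro γ hγ
          obtain ⟨γ', h7, rfl⟩ := Ordinal.mem_toZFSet_iff.1 hγ
          exact h5 γ' h7
      · rw [sel_neg h]
        constructor
        · rintro (⟨h6, _⟩ | ⟨_, h6⟩)
          · exact absurd h6 h
          · exact h6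
        · exact fun h6 => Or.inr ⟨h, h6⟩
  · intro x hx hne
    show sel (x ⊆ A ∧ x.Nonempty) (lst f x) ∅ ∈ x
    rw [sel_pos ⟨hx, hne⟩]
    obtain ⟨y, hy⟩ := hne
    obtain ⟨a, ha, hay⟩ := hon.2 y (hx hy)
    obtain ⟨β, hβ, rfl⟩ := Ordinal.mem_toZFSet_iff.1 ha
    have hs : {γ : Ordinal.{0} | γ.toZFSet ∈ dm f ∧ app f γ.toZFSet ∈ x}.Nonempty := ⟨β, by
      refine ⟨by rw [hdm]; exact toZFSet_mem.2 hβ, ?_⟩
      rw [happ β hβ y hay]
      exact hy⟩
    exact (csInf_mem hs).2

/-- sequences of length `κ` with choice from a set `A` of `N`: `P u s y` says that `y` is a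
possible next value after the sequence `s` -/
theorem exists_seq (hN : ZFCm N) {A κ : V} (hA : N A) (hκ : N κ) (ho : IsOrd κ) {u : ℕ → V}
    (hu : In N u) {P : (ℕ → V) → Prop} (hP : DN N P)
    (hs : ∀ ξ ∈ κ, ∀ s, N s → Svl s → dm s = ξ → (∀ z ∈ s, IsPr z) →
      (∀ η ∈ ξ, app s η ∈ A ∧ P (cons (app s η) (cons (resS η (app s)) u))) →
      ∃ y ∈ A, P (cons y (cons s u))) :
    ∃ s, N s ∧ s = resS κ (app s) ∧
      ∀ ξ ∈ κ, app s ξ ∈ A ∧ P (cons (app s ξ) (cons (resS ξ (app s)) u)) := by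
  have hM := hN.toZFm
  obtain ⟨c, hc, hc2⟩ := exists_choice hN hA
  -- one step
  let St : (ℕ → V) → V := fun w => c (A.sep fun y => P (cons y (cons (w 0) fun i => w (i + 2))))
  have hSt : TN N St := by
    have h1 : TN N (fun w => A.sep fun y => P (cons y (cons (w 0) fun i => w (i + 2)))) := by
      refine (TN.sep (S := fun w => P (cons (w 0) (cons (w 1) fun i => w (i + 3)))) hM ?_
        (TN.cst hA)).congr fun w hw => rfl
      refine (hP.rn (fun i => match i with
        | 0 => 0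
        | 1 => 1
        | i + 2 => i + 3)).congr fun w hw => ?_
      have e : (fun i => w (match i with
        | 0 => 0
        | 1 => 1
        | i + 2 => i + 3)) = cons (w 0) (cons (w 1) fun i => w (i + 3)) := by
        funext i
        match i with
        | 0 => rfl
        | 1 => rfl
        | i + 2 => rfl
      rw [e]
    exact TN.at1 hM hc h1
  -- the recursive function, `F ξ u`
  let f : V → V := fun k => Rcr (fun _ v => v 0) (fun _ w => St fun i => match i with
    | 0 => w 0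
    | 1 => w 1
    | i + 2 => u i) (fun _ => True) (fun _ => ∅) k
  have hf : ∀ k, f k = c (A.sep fun y => P (cons y (cons (resS k f) u))) := by
    intro k
    have h1 : f k = _ := rcr_eq _ _ _ _ _
    rw [h1]
    have e1 : ((cons k (fun _ => (∅ : V)) 0).sep fun y => y.rank < k.rank) = k := by
      ext y
      rw [ZFSet.mem_sep]
      exact ⟨fun h => h.1, fun h => ⟨h, ZFSet.rank_lt_of_mem h⟩⟩
    rw [e1]
    rfl
  -- definability
  have hfN : TN N (fun w => Rcr (fun _ v => v 0) (fun _ w' => St fun i => match i with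
    | 0 => w' 0
    | 1 => w' 1
    | i + 2 => w (i + 1)) (fun _ => True) (fun _ => ∅) (w 0)) := by
    refine TN.recu (E := fun w => w 0) (G := St) hM (TN.var hM 0) hSt ?_ ?_
    · intro w hw y hy
      exact ZFSet.rank_lt_of_mem hy
    · intro w hw
      rw [rcr_eq]
      have e1 : ((cons (w 0) (fun _ => (∅ : V)) 0).sep fun y => y.rank < (w 0).rank) = w 0 := by
        ext y
        rw [ZFSet.mem_sep]
        exact ⟨fun h => h.1, fun h => ⟨h, ZFSet.rank_lt_of_mem h⟩⟩
      rw [e1]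
      congr 1
  have hfk : ∀ k, N k → N (f k) := by
    intro k hk
    have h1 := TN.mem hM hfN (hu.cons hk)
    exact h1
  have hres : ∀ ξ, N ξ → N (resS ξ f) := by
    intro ξ hξ
    have h1 := TN.mem hM (TN.resS (F := fun w => w 0) (G := fun w => Rcr (fun _ v => v 0)
      (fun _ w' => St fun i => match i with
        | 0 => w' 0
        | 1 => w' 1
        | i + 2 => w (i + 2)) (fun _ => True) (fun _ => ∅) (w 0)) hM (TN.var hM 0)
        ((hfN.rn (fun i => match i with
          | 0 => 0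
          | i + 1 => i + 2)).congr fun w hw => rfl)) (hu.cons hξ)
    exact h1
  -- the values
  have key : ∀ ξ ∈ κ, f ξ ∈ A ∧ P (cons (f ξ) (cons (resS ξ f) u)) := by
    intro ξ
    induction ξ using ZFSet.inductionOn with
    | _ ξ ih =>
      intro hξ
      have hξN := hM.trans _ hκ ξ hξ
      have h1 := hs ξ hξ (resS ξ f) (hres ξ hξN) (svl_resS ξ f) (dm_resS ξ f) (by
        intro z hz
        obtain ⟨x, _, rfl⟩ := mem_resS.1 hz
        exact ⟨_, _, rfl⟩) (by
        intro η hη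
        have hηκ : η ∈ κ := by
          obtain ⟨α, rfl⟩ := ho
          exact (ZFSet.isOrdinal_toZFSet α).mem_trans hη hξ
        have hsub : η ⊆ ξ := by
          obtain ⟨β, rfl⟩ := IsOrd.of_mem ho hξ
          exact (ZFSet.isOrdinal_toZFSet β).isTransitive η hη
        have e2 : resS η (app (resS ξ f)) = resS η f :=
          resS_congr fun x hx => app_resS (hsub hx)
        rw [app_resS hη, e2]
        exact ih η hη hηκ)
      obtain ⟨y, hy, h2⟩ := h1
      have h3 : f ξ ∈ A.sep fun y => P (cons y (cons (resS ξ f) u)) := by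
        rw [hf ξ]
        exact hc2 _ (fun x hx => (ZFSet.mem_sep.1 hx).1) ⟨y, ZFSet.mem_sep.2 ⟨hy, h2⟩⟩
      exact ZFSet.mem_sep.1 h3
  refine ⟨resS κ f, hres κ hκ, ?_, ?_⟩
  · exact resS_congr fun x hx => (app_resS hx).symm
  · intro ξ hξ
    have hsub : ξ ⊆ κ := by
      obtain ⟨α, rfl⟩ := ho
      exact (ZFSet.isOrdinal_toZFSet α).isTransitive ξ hξ
    have e2 : resS ξ (app (resS κ f)) = resS ξ f := resS_congr fun x hx => app_resS (hsub hx)
    rw [app_resS hξ, e2]
    exact key ξ hξ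

/-- a function which chooses witnesses from a set of `N` -/
theorem exists_ch (hN : ZFCm N) {A I : V} (hA : N A) (hI : N I) {u : ℕ → V} (hu : In N u)
    {P : (ℕ → V) → Prop} (hP : DN N P) (hs : ∀ x ∈ I, ∃ y ∈ A, P (cons y (cons x u))) :
    ∃ f, N f ∧ f = resS I (app f) ∧ ∀ x ∈ I, app f x ∈ A ∧ P (cons (app f x) (cons x u)) := by
  have hM := hN.toZFm
  obtain ⟨c, hc, hc2⟩ := exists_choice hN hA
  have h1 : TN N (fun w => A.sep fun y => P (cons y w)) := TN.sep hM hP (TN.cst hA)
  have h2 : TN N (fun w => c (A.sep fun y => P (cons y w))) := TN.at1 hM hc h1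
  have h3 : N (resS I fun x => c (A.sep fun y => P (cons y (cons x u)))) :=
    TN.mem hM (TN.resS (F := fun _ => I) hM (TN.cst hI) h2) hu
  refine ⟨_, h3, (resS_congr fun x hx => ?_), fun x hx => ?_⟩
  · rw [app_resS hx]
  · rw [app_resS hx]
    obtain ⟨y, hy, h4⟩ := hs x hx
    exact ZFSet.mem_sep.1 (hc2 (A.sep fun y => P (cons y (cons x u)))
      (fun z hz => (ZFSet.mem_sep.1 hz).1) ⟨y, ZFSet.mem_sep.2 ⟨hy, h4⟩⟩)

/-- collection -/
theorem exists_coll (hM : ZFm N) {I : V} (hI : N I) {u : ℕ → V} (hu : In N u)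
    {P : (ℕ → V) → Prop} (hP : DN N P) (hs : ∀ x ∈ I, ∃ y, N y ∧ P (cons y (cons x u))) :
    ∃ A, N A ∧ ∀ x ∈ I, ∃ y ∈ A, P (cons y (cons x u)) := by
  obtain ⟨R, hR, q, hq, h⟩ := hP
  obtain ⟨φ, hφ⟩ := hR.rn (fun i => match i with
    | 0 => 2
    | 1 => 0
    | 2 => 1
    | i + 3 => i + 3)
  have key : ∀ x, N x → ∀ y, N y → (Sat N φ (cons y (cons x (cons q u))) ↔
      P (cons y (cons x u))) := by
    intro x hx y hy
    refine (hφ N hM _ (((hu.cons hq).cons hx).cons hy)).trans ?_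
    have h5 := h _ ((hu.cons hx).cons hy)
    have e : (fun i => (cons y (cons x (cons q u))) (match i with
      | 0 => 2
      | 1 => 0
      | 2 => 1
      | i + 3 => i + 3)) = cons q (cons y (cons x u)) := by
      funext i
      match i with
      | 0 => rfl
      | 1 => rfl
      | 2 => rfl
      | i + 3 => rfl
    rw [h5, ← e]
  obtain ⟨A, hA, h2⟩ := hM.coll φ (cons q u) I (hu.cons hq) hI (by
      intro x hx
      obtain ⟨y, hy, h3⟩ := hs x hx
      exact ⟨y, hy, (key x (hM.trans _ hI x hx) y hy).2 h3⟩)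
  refine ⟨A, hA, fun x hx => ?_⟩
  obtain ⟨y, hy, h3⟩ := h2 x hx
  exact ⟨y, hy, (key x (hM.trans _ hI x hx) y (hM.trans _ hA y hy)).1 h3⟩

/-- a function which chooses witnesses, without a bound -/
theorem exists_chN (hN : ZFCm N) {I : V} (hI : N I) {u : ℕ → V} (hu : In N u)
    {P : (ℕ → V) → Prop} (hP : DN N P) (hs : ∀ x ∈ I, ∃ y, N y ∧ P (cons y (cons x u))) :
    ∃ f, N f ∧ f = resS I (app f) ∧ ∀ x ∈ I, P (cons (app f x) (cons x u)) := by
  obtain ⟨A, hA, h⟩ := exists_coll hN.toZFm hI hu hP hs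
  obtain ⟨f, hf, h2, h3⟩ := exists_ch hN hA hI hu hP h
  exact ⟨f, hf, h2, fun x hx => (h3 x hx).2⟩

end UZ
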