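import Pool.Agent.H72.UZ.TarX

/-!
# MP_f6fd33_lc, part I (definability): targets
-/

set_option linter.unusedVariables false

open Ordinal Order Set
open scoped ZFSet

namespace SE.UZ

open SF

/-- ID: the types are decided by conditions (`h`, `X`, `Y` are arbitrary elements of the ground
model, e.g. `X`, `Y` full names over `b.u B`, `h` a history over `b.u B`) -/
def T_ID : Prop := ∀ (D : Cx) (κ : V) (b : BS), Amb D κ → b.Ok D κ → ∀ σ : Ordinal.{0},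
  D.N σ.toZFSet → ∀ B ∈ b.Ob, ∀ h X Y, D.N h → D.N X → D.N Y →
  D.Dec (b.u B) (fun G => b.Kb D (b.Wd D) σ B h G (ev G X) (ev G Y)) ∧
  D.Dec (b.u B) (fun G => b.Nn D (b.Wd D) σ B h G (ev G X)) ∧
  D.Dec (b.u B) (fun G => b.Rg D (b.Wd D) σ B h G (ev G X)) ∧
  D.Dec (b.u B) (fun G => Dcc h G (ev G X)) ∧
  D.Dec (b.u B) (fun G => Ent h G (ev G X) (ev G Y) σ) ∧
  D.Dec (b.u B) (fun G => ∃ e, Ent h G (ev G X) (ev G Y) e) ∧
  D.Dec (b.u B) (fun G => b.Kil D B G (ev G X) (ev G Y)) ∧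
  D.Dec (b.u B) (fun G => b.Se B G (ev G X) (ev G Y)) ∧
  D.Dec (b.u B) (fun G => b.Ss D B G (ev G X) (ev G Y)) ∧
  D.Dec (b.u B) (fun G => b.Pt B G (ev G X)) ∧
  (∀ s, s ⊆ b.u B → CS D s → D.Dec (b.u B) (fun G => RR D s G (ev G X))) ∧
  D.Dec (b.u B) (fun G => ∃ j ∈ b.u B, b.Co j ∧ vw j ⊆ b.u B ∧ CS D (vw j) ∧
    Sn D G (ev G X) (ev G Y) j)

/-- IW: the worlds of the stages less than `θ` form a set in the ground model -/
def T_IW : Prop := ∀ (D : Cx) (κ : V) (b : BS), Amb D κ → b.Ok D κ → ∀ θ : Ordinal.{0},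
  D.N θ.toZFSet →
  (∃ A, D.N A ∧ ∀ z, z ∈ A ↔ ∃ σ < θ, ∃ B h, b.Wd D σ B h ∧
    z = ZFSet.pair σ.toZFSet (ZFSet.pair B h)) ∧
  (∃ A, D.N A ∧ ∀ z, z ∈ A ↔ ∃ σ < θ, b.Ls D (b.Wd D) σ ∧ z = σ.toZFSet) ∧
  (∀ τ, b.sj D (b.Wd D) θ τ ≤ θ) ∧ b.cn D (b.Wd D) θ ≤ θ

/-- IL: the L-stages are cofinal (paper: section 5) -/
def T_IL : Prop := ∀ (D : Cx) (κ : V) (b : BS), Amb D κ → b.Ok D κ → ∀ σ : Ordinal.{0},
  D.N σ.toZFSet → ∃ e, σ ≤ e ∧ D.N e.toZFSet ∧ b.Ls D (b.Wd D) e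

/-- the data for the existence of a history: worlds `(B_v, h_v)` with stages `s v`, an object `Bp`
above them, with condition (a1) -/
structure BS.AH (b : BS) (D : Cx) (σ : Ordinal.{0}) (I B h : V) (s : V → Ordinal.{0})
    (Bp : V) : Prop where
  nI : D.N I
  nB : D.N B
  nh : D.N h
  ns : D.N (resS I fun v => (s v).toZFSet)
  o : Bp ∈ b.Ob
  ls : ∀ v ∈ I, s v ≤ σ
  w : ∀ v ∈ I, His D (b.u (app B v)) (app h v) (s v) ∧
    ∀ G, D.Gn (b.u (app B v)) G → ∀ X y y' e e', Ent (app h v) G X y e →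
      Ent (app h v) G X y' e' → y = y' ∧ e = e'
  le : ∀ v ∈ I, b.Le (app B v) Bp
  a1 : ∀ G, D.Gn (b.u Bp) G → ∀ v ∈ I, ∀ v' ∈ I, ∀ X,
    RR D (b.u (app B v) ∩ b.u (app B v')) G X → ∀ y e, e < s v → e < s v' →
      (Ent (app h v) G X y e ↔ Ent (app h v') G X y e)

/-- AH: existence of the history for the amalgamation -/
def T_AH : Prop := ∀ (D : Cx) (κ : V) (b : BS), Amb D κ → b.Ok D κ → ∀ σ : Ordinal.{0},
  D.N σ.toZFSet → ∀ I B h s Bp, b.AH D σ I B h s Bp →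
  ∃ H, His D (b.u Bp) H σ ∧ ∀ G, D.Gn (b.u Bp) G →
    -- the entries are reals, and in each stage there is at most one for each real
    (∀ X y e, Ent H G X y e → RR D (b.u Bp) G X ∧ RR D (b.u Bp) G y) ∧
    (∀ X y y' e, Ent H G X y e → Ent H G X y' e → y = y') ∧
    -- (s1)
    (∀ v ∈ I, ∀ X, RR D (b.u (app B v)) G X → ∀ y e, e < s v →
      (Ent H G X y e ↔ Ent (app h v) G X y e)) ∧
    ∀ X, RR D (b.u Bp) G X → ∀ e < σ, (∀ v ∈ I, e < s v → ¬ RR D (b.u (app B v)) G X) →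
      -- (s2)
      (b.Ls D (b.Wd D) e → ∀ y, ¬ Ent H G X y e) ∧
      -- (s3)
      (¬ b.Ls D (b.Wd D) e →
        ((∃ y, Ent H G X y e) ↔ ¬ Dcc (hr H e) G X ∧ b.Rg D (b.Wd D) e Bp (hr H e) G X) ∧
        ∀ y, Ent H G X y e → ¬ b.Kb D (b.Wd D) e Bp (hr H e) G X y)

end SE.UZ
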