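import Pool.Agent.H41.UZ.Dc
import Pool.Agent.H41.UZ.TR

/-!
# Decided relations: relations of the extension, quantifiers over reals
-/

set_option linter.unusedVariables false

open Ordinal Order Set
open scoped ZFSet

namespace SE

open SF

namespace UZ

open _root_.UZ

variable {D : Cx} {C C' : (ℕ → V) → Prop} {r s : (ℕ → V) → V} {X Y : (ℕ → V) → V → Prop}
  {S : (ℕ → V) → Prop} {f1 f2 f3 f4 f5 f6 : (ℕ → V) → V}

/-! ### relations of the extension with arguments from the ground model -/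

theorem Dc.b1 (hL : Lb) (hD : D.Ok) (hr : TN D.N r) {P : (V → Prop) → V → V → Prop}
    (hP : Dfb ZFm (fun M v => P M (v 0) (v 1))) (h1 : TN D.N f1) :
    Dc D C r (fun u G => P (D.W G) G (f1 u)) := by
  have h := Dc.base (C := fun _ => True) hL hD (hr.rn (fun i => i + 1)) hP
  exact h.push (C := C) (r := r) hL hD h1 (fun i => i) (fun _ _ _ _ => rfl)
    (fun _ _ _ _ => trivial)

theorem Dc.b2 (hL : Lb) (hD : D.Ok) (hr : TN D.N r) {P : (V → Prop) → V → V → V → Prop}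
    (hP : Dfb ZFm (fun M v => P M (v 0) (v 1) (v 2))) (h1 : TN D.N f1) (h2 : TN D.N f2) :
    Dc D C r (fun u G => P (D.W G) G (f1 u) (f2 u)) := by
  have h := Dc.base (C := fun _ => True) hL hD (hr.rn (fun i => i + 2)) hP
  have h' := h.push (C := fun _ => True) (r := fun u => r fun i => u (i + 1)) hL hD
    (h1.rn (fun i => i + 1)) (fun i => i) (fun _ _ _ _ => rfl) (fun _ _ _ _ => trivial)
  exact h'.push (C := C) (r := r) hL hD h2 (fun i => i) (fun _ _ _ _ => rfl)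
    (fun _ _ _ _ => trivial)

theorem Dc.b3 (hL : Lb) (hD : D.Ok) (hr : TN D.N r) {P : (V → Prop) → V → V → V → V → Prop}
    (hP : Dfb ZFm (fun M v => P M (v 0) (v 1) (v 2) (v 3))) (h1 : TN D.N f1) (h2 : TN D.N f2)
    (h3 : TN D.N f3) :
    Dc D C r (fun u G => P (D.W G) G (f1 u) (f2 u) (f3 u)) := by
  have h := Dc.b2 (C := fun _ => True) hL hD (hr.rn (fun i => i + 1))
    (P := fun M G x y => P M G x (fst y) (snd y)) (hP.comp (fun i => match i with
      | 0 => fun _ v => v 0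
      | 1 => fun _ v => v 1
      | 2 => fun _ v => fst (v 2)
      | 3 => fun _ v => snd (v 2)
      | i + 4 => fun _ v => v 0) fun i => match i with
      | 0 => Tm.var 0
      | 1 => Tm.var 1
      | 2 => Tm.fst (Tm.var 2)
      | 3 => Tm.snd (Tm.var 2)
      | i + 4 => Tm.var 0) (h1.rn (fun i => i + 1)) (TN.var hD.zfm 0)
  refine (h.push (C := C) (r := r) hL hD (TN.pair hD.zfm h2 h3) (fun i => i)
    (fun _ _ _ _ => rfl) (fun _ _ _ _ => trivial)).cg fun u _ _ _ G _ => ?_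
  simp only [cons_zero, cons_succ, fst_pair, snd_pair]

theorem Dc.b4 (hL : Lb) (hD : D.Ok) (hr : TN D.N r) {P : (V → Prop) → V → V → V → V → V → Prop}
    (hP : Dfb ZFm (fun M v => P M (v 0) (v 1) (v 2) (v 3) (v 4))) (h1 : TN D.N f1)
    (h2 : TN D.N f2) (h3 : TN D.N f3) (h4 : TN D.N f4) :
    Dc D C r (fun u G => P (D.W G) G (f1 u) (f2 u) (f3 u) (f4 u)) := by
  have h := Dc.b3 (C := C) (r := r) hL hD hr
    (P := fun M G x y z => P M G x y (fst z) (snd z)) (hP.comp (fun i => match i with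
      | 0 => fun _ v => v 0
      | 1 => fun _ v => v 1
      | 2 => fun _ v => v 2
      | 3 => fun _ v => fst (v 3)
      | 4 => fun _ v => snd (v 3)
      | i + 5 => fun _ v => v 0) fun i => match i with
      | 0 => Tm.var 0
      | 1 => Tm.var 1
      | 2 => Tm.var 2
      | 3 => Tm.fst (Tm.var 3)
      | 4 => Tm.snd (Tm.var 3)
      | i + 5 => Tm.var 0) h1 h2 (TN.pair hD.zfm h3 h4)
  refine h.cg fun u _ _ _ G _ => ?_
  simp only [fst_pair, snd_pair]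

theorem Dc.b5 (hL : Lb) (hD : D.Ok) (hr : TN D.N r)
    {P : (V → Prop) → V → V → V → V → V → V → Prop}
    (hP : Dfb ZFm (fun M v => P M (v 0) (v 1) (v 2) (v 3) (v 4) (v 5))) (h1 : TN D.N f1)
    (h2 : TN D.N f2) (h3 : TN D.N f3) (h4 : TN D.N f4) (h5 : TN D.N f5) :
    Dc D C r (fun u G => P (D.W G) G (f1 u) (f2 u) (f3 u) (f4 u) (f5 u)) := by
  have h := Dc.b4 (C := C) (r := r) hL hD hr
    (P := fun M G x y z t => P M G x y z (fst t) (snd t)) (hP.comp (fun i => match i with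
      | 0 => fun _ v => v 0
      | 1 => fun _ v => v 1
      | 2 => fun _ v => v 2
      | 3 => fun _ v => v 3
      | 4 => fun _ v => fst (v 4)
      | 5 => fun _ v => snd (v 4)
      | i + 6 => fun _ v => v 0) fun i => match i with
      | 0 => Tm.var 0
      | 1 => Tm.var 1
      | 2 => Tm.var 2
      | 3 => Tm.var 3
      | 4 => Tm.fst (Tm.var 4)
      | 5 => Tm.snd (Tm.var 4)
      | i + 6 => Tm.var 0) h1 h2 h3 (TN.pair hD.zfm h4 h5)
  refine h.cg fun u _ _ _ G _ => ?_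
  simp only [fst_pair, snd_pair]

theorem Dc.b6 (hL : Lb) (hD : D.Ok) (hr : TN D.N r)
    {P : (V → Prop) → V → V → V → V → V → V → V → Prop}
    (hP : Dfb ZFm (fun M v => P M (v 0) (v 1) (v 2) (v 3) (v 4) (v 5) (v 6))) (h1 : TN D.N f1)
    (h2 : TN D.N f2) (h3 : TN D.N f3) (h4 : TN D.N f4) (h5 : TN D.N f5) (h6 : TN D.N f6) :
    Dc D C r (fun u G => P (D.W G) G (f1 u) (f2 u) (f3 u) (f4 u) (f5 u) (f6 u)) := by
  have h := Dc.b5 (C := C) (r := r) hL hD hr
    (P := fun M G x y z t w => P M G x y z t (fst w) (snd w)) (hP.comp (fun i => match i with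
      | 0 => fun _ v => v 0
      | 1 => fun _ v => v 1
      | 2 => fun _ v => v 2
      | 3 => fun _ v => v 3
      | 4 => fun _ v => v 4
      | 5 => fun _ v => fst (v 5)
      | 6 => fun _ v => snd (v 5)
      | i + 7 => fun _ v => v 0) fun i => match i with
      | 0 => Tm.var 0
      | 1 => Tm.var 1
      | 2 => Tm.var 2
      | 3 => Tm.var 3
      | 4 => Tm.var 4
      | 5 => Tm.fst (Tm.var 5)
      | 6 => Tm.snd (Tm.var 5)
      | i + 7 => Tm.var 0) h1 h2 h3 h4 (TN.pair hD.zfm h5 h6)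
  refine h.cg fun u _ _ _ G _ => ?_
  simp only [fst_pair, snd_pair]

/-! ### reals -/

/-- the value of `X` for the restriction of `G` to `s` -/
noncomputable def evs (G s X : V) : V := ev (gs G s) X

theorem gs_gs {G s t : V} (h : s ⊆ t) : gs (gs G t) s = gs G s := by
  unfold SE.gs
  ext p
  simp only [ZFSet.mem_sep]
  exact ⟨fun h1 => ⟨h1.1.1, h1.2⟩, fun h1 => ⟨⟨h1.1, fun x hx => h (h1.2 hx)⟩, h1.2⟩⟩

theorem gs_gn {ρ G : V} (hG : D.Gn ρ G) : gs G ρ = G := SE.gs_self hG.1.sub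

theorem evs_gn {ρ G X : V} (hG : D.Gn ρ G) : evs G ρ X = ev G X := by
  unfold evs
  rw [gs_gn hG]

theorem evs_gs {G s t X : V} (h : s ⊆ t) : evs (gs G t) s X = evs G s X := by
  unfold evs
  rw [gs_gs h]

/-- reals of the restriction have full names -/
theorem rr_iff (hL : Lb) (hD : D.Ok) {ρ s G x : V} (hρ : D.N ρ) (hc : Cld D.L ρ) (hs : D.N s)
    (hcs : Cld D.L s) (hsr : s ⊆ ρ) (hG : D.Gn ρ G) :
    RR D s G x ↔ ∃ Y, D.N Y ∧ Nam D.L s Y ∧ evs G s Y = x := by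
  have hGs : D.Gn s (gs G s) :=
    ((hL.BL D hD ρ G hρ hc hG).2 s hs hsr (fun i hi => (hcs i hi).2)).1
  constructor
  · rintro ⟨⟨τ, hτ, rfl⟩, h2⟩
    obtain ⟨Y, hY, hN, h3⟩ := (hL.BO D hD s hs hcs).1 τ hτ
    exact ⟨Y, hY, hN, (h3 _ hGs).1 h2⟩
  · rintro ⟨Y, hY, hN, rfl⟩
    have h1 := (hL.BK D hD s (gs G s) hs hcs hGs).1 s Y hs (fun _ h => h)
      (fun i hi => (hcs i hi).2) hY hN
    exact ⟨h1.2.1, h1.1⟩

theorem dfb_eve (hL : Lb) : Tm ZFm (fun _ v => evs (v 0) (v 1) (v 2)) :=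
  Tm.at2 (F := fun _ x y => ev x y) hL.F.ev
    (Tm.at2 (F := fun _ x y => gs x y) hL.F.gs (Tm.var 0) (Tm.var 1)) (Tm.var 2)

theorem Tm.evs (hL : Lb) {f g h : (V → Prop) → (ℕ → V) → V} (hf : Tm ZFm f) (hg : Tm ZFm g)
    (hh : Tm ZFm h) : Tm ZFm (fun M v => evs (f M v) (g M v) (h M v)) :=
  Tm.at3 (F := fun _ x y z => UZ.evs x y z) (dfb_eve hL) hf hg hh

theorem dnNam (hL : Lb) (hD : D.Ok) (h1 : TN D.N f1) (h2 : TN D.N f2) :
    DN D.N (fun u => Nam D.L (f1 u) (f2 u)) :=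
  DN.of3 hD.zfm (P := fun _ x y z => Nam x y z) hL.BBb.1 (tnL hD) h1 h2

/-- quantifier over the reals of the restriction -/
theorem Dc.exR (hL : Lb) (hD : D.Ok) {Z : (ℕ → V) → V → V → Prop} (hs : TN D.N s)
    (h : Dc D C' (fun u => r fun i => u (i + 1))
      (fun u G => Z (fun i => u (i + 1)) G (evs G (s fun i => u (i + 1)) (u 0))))
    (hC : ∀ u Y, In D.N u → Cr D r u → C u → D.N Y → Nam D.L (s u) Y → C' (cons Y u))
    (hC2 : ∀ u, In D.N u → Cr D r u → C u → Cld D.L (s u) ∧ s u ⊆ r u) :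
    Dc D C r (fun u G => ∃ x, RR D (s u) G x ∧ Z u G x) := by
  refine (Dc.ex (C := C) (S := fun w => Nam D.L (s fun i => w (i + 1)) (w 0)) hL hD
    (dnNam hL hD (hs.rn (fun i => i + 1)) (TN.var hD.zfm 0)) h
    (fun u y h1 h2 h3 h4 h5 => hC u y h1 h2 h3 h4 h5)).cg fun u h1 h2 h3 G hG => ?_
  obtain ⟨c1, c2⟩ := hC2 u h1 h2 h3
  have key := fun x => rr_iff (x := x) hL hD (hD.nH h2.1) h2.2 (TN.mem hD.zfm hs h1) c1 c2 hG
  constructor
  · rintro ⟨Y, hY, h4, h5⟩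
    exact ⟨_, (key _).2 ⟨Y, hY, h4, rfl⟩, h5⟩
  · rintro ⟨x, hx, h5⟩
    obtain ⟨Y, hY, h4, rfl⟩ := (key _).1 hx
    exact ⟨Y, hY, h4, h5⟩

theorem Dc.allR (hL : Lb) (hD : D.Ok) (hr : TN D.N r) {Z : (ℕ → V) → V → V → Prop}
    (hs : TN D.N s)
    (h : Dc D C' (fun u => r fun i => u (i + 1))
      (fun u G => Z (fun i => u (i + 1)) G (evs G (s fun i => u (i + 1)) (u 0))))
    (hC : ∀ u Y, In D.N u → Cr D r u → C u → D.N Y → Nam D.L (s u) Y → C' (cons Y u))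
    (hC2 : ∀ u, In D.N u → Cr D r u → C u → Cld D.L (s u) ∧ s u ⊆ r u) :
    Dc D C r (fun u G => ∀ x, RR D (s u) G x → Z u G x) :=
  ((Dc.exR (Z := fun u G x => ¬ Z u G x) hL hD hs (h.not hL hD (hr.rn (fun i => i + 1))) hC
    hC2).not hL hD hr).cg fun u _ _ _ G _ => by
      simp only [not_exists, not_and, not_not]

/-- `RR` is decided -/
theorem dc_rr (hL : Lb) (hD : D.Ok) (hr : TN D.N r) (hs : TN D.N s) (h1 : TN D.N f1)
    (h2 : TN D.N f2) (hC2 : ∀ u, In D.N u → Cr D r u → C u → Cld D.L (s u) ∧ s u ⊆ r u) :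
    Dc D C r (fun u G => RR D (s u) G (evs G (f1 u) (f2 u))) := by
  have h : Dc D C r (fun u G => ∃ x, RR D (s u) G x ∧ x = evs G (f1 u) (f2 u)) := by
    refine Dc.exR (C' := fun _ => True) (Z := fun u G x => x = evs G (f1 u) (f2 u)) hL hD hs ?_
      (fun _ _ _ _ _ _ _ => trivial) hC2
    exact Dc.b4 (P := fun _ G a b c d => evs G a b = evs G c d) hL hD (hr.rn (fun i => i + 1))
      (Dfb.eq (Tm.evs hL (Tm.var 0) (Tm.var 1) (Tm.var 2)) (Tm.evs hL (Tm.var 0) (Tm.var 3)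
        (Tm.var 4))) (hs.rn (fun i => i + 1)) (TN.var hD.zfm 0) (h1.rn (fun i => i + 1))
          (h2.rn (fun i => i + 1))
  refine h.cg fun u _ _ _ G _ => ?_
  constructor
  · rintro ⟨x, hx, rfl⟩
    exact hx
  · intro hx
    exact ⟨_, hx, rfl⟩

end UZ

end SE
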