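import Pool.Agent.H41.UZ.UE

/-!
# Definability of the notions of a base system
-/

set_option linter.unusedVariables false

open Ordinal Order Set
open scoped ZFSet

namespace SE

open SF

namespace UZ

open _root_.UZ

variable {D : Cx} {C C' : (ℕ → V) → Prop} {r s f g h t f1 f2 f3 f4 : (ℕ → V) → V}
  {X Y : (ℕ → V) → V → Prop} {S : (ℕ → V) → Prop} {A B E A1 A2 A3 A4 A5 A6 : (ℕ → V) → V → V}
  {b : BS} {κ : V}

/-! ### models contain the components of pairs -/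

theorem zfm_fst {M : V → Prop} (k : ZFm M) {x y : V} (h : M (ZFSet.pair x y)) : M x := by
  have h1 : M (fst (ZFSet.pair x y)) :=
    (Tm.fst (Tm.var 0)).1 M k (fun _ => ZFSet.pair x y) fun _ => h
  rw [fst_pair] at h1
  exact h1

theorem zfm_snd {M : V → Prop} (k : ZFm M) {x y : V} (h : M (ZFSet.pair x y)) : M y := by
  have h1 : M (snd (ZFSet.pair x y)) :=
    (Tm.snd (Tm.var 0)).1 M k (fun _ => ZFSet.pair x y) fun _ => h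
  rw [snd_pair] at h1
  exact h1

theorem zfm_ht {M : V → Prop} (k : ZFm M) {h q X Y e : V} (hh : M h) (hz : ht q X Y e ∈ h) :
    M q ∧ M X ∧ M Y ∧ M e := by
  have h0 := k.trans _ hh _ hz
  unfold ht at h0
  have h1 := zfm_snd k h0
  have h2 := zfm_snd k h1
  exact ⟨zfm_fst k h0, zfm_fst k h1, zfm_fst k h2, zfm_snd k h2⟩

theorem zfm_ev (hL : Lb) {M : V → Prop} (k : ZFm M) {G Y : V} (hG : M G) (hY : M Y) :
    M (ev G Y) :=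
  hL.F.ev.1 M k (cons G fun _ => Y) (In.cons (fun _ => hY) hG)

/-! ### entries -/

/-- the entries, the stage is a set -/
def Entv (h G X y z : V) : Prop := ∃ q ∈ G, ∃ X' Y', ht q X' Y' z ∈ h ∧ ev G X' = X ∧ ev G Y' = y

theorem ent_iff {h G X y : V} {e : Ordinal.{0}} : Ent h G X y e ↔ Entv h G X y e.toZFSet :=
  Iff.rfl

theorem entv_mem (hL : Lb) {M : V → Prop} (k : ZFm M) {h G X y z : V} (hh : M h) (hG : M G)
    (he : Entv h G X y z) : M X ∧ M y ∧ M z := by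
  obtain ⟨q, hq, X', Y', h1, rfl, rfl⟩ := he
  obtain ⟨_, h2, h3, h4⟩ := zfm_ht k hh h1
  exact ⟨zfm_ev hL k hG h2, zfm_ev hL k hG h3, h4⟩

theorem dfb_ht : Tm ZFm (fun _ v => ht (v 0) (v 1) (v 2) (v 3)) :=
  Tm.pair (Tm.var 0) (Tm.pair (Tm.var 1) (Tm.pair (Tm.var 2) (Tm.var 3)))

theorem dfb_entv (hL : Lb) :
    Dfb ZFm (fun _ v => Entv (v 0) (v 1) (v 2) (v 3) (v 4)) := by
  -- variables: `Y', X', q, h, G, X, y, z`
  have h1 : Dfb ZFm (fun _ w => ht (w 2) (w 1) (w 0) (w 7) ∈ w 3 ∧ ev (w 4) (w 1) = w 5 ∧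
      ev (w 4) (w 0) = w 6) :=
    (Dfb.mem (Tm.pair (Tm.var 2) (Tm.pair (Tm.var 1) (Tm.pair (Tm.var 0) (Tm.var 7))))
      (Tm.var 3)).and ((Dfb.eq (Tm.at2 (F := fun _ x y => ev x y) hL.F.ev (Tm.var 4) (Tm.var 1))
        (Tm.var 5)).and (Dfb.eq (Tm.at2 (F := fun _ x y => ev x y) hL.F.ev (Tm.var 4)
          (Tm.var 0)) (Tm.var 6)))
  refine (Dfb.bex ktr_zfm (Tm.var 1) h1.ex.ex).congr fun M k v hv => ?_
  constructor
  · rintro ⟨q, hq, X', hX, Y', hY, h2, h3, h4⟩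
    exact ⟨q, hq, X', Y', h2, h3, h4⟩
  · rintro ⟨q, hq, X', Y', h2, h3, h4⟩
    obtain ⟨_, hX, hY, _⟩ := zfm_ht k (hv 0) h2
    exact ⟨q, hq, X', hX, Y', hY, h2, h3, h4⟩

theorem Dfb.entv (hL : Lb) {f1 f2 f3 f4 f5 : (V → Prop) → (ℕ → V) → V} (h1 : Tm ZFm f1)
    (h2 : Tm ZFm f2) (h3 : Tm ZFm f3) (h4 : Tm ZFm f4) (h5 : Tm ZFm f5) :
    Dfb ZFm (fun M v => Entv (f1 M v) (f2 M v) (f3 M v) (f4 M v) (f5 M v)) :=
  (dfb_entv hL).comp (args [f1, f2, f3, f4, f5]) (tm_args _ (by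
    intro a ha
    simp only [List.mem_cons, List.not_mem_nil, or_false] at ha
    rcases ha with rfl | rfl | rfl | rfl | rfl <;> assumption))

theorem Dc.ent (hL : Lb) (hD : D.Ok) (hr : TN D.N r) (h1 : Et D A1) (h2 : Et D A2)
    (h3 : Et D A3) (h4 : Et D A4) :
    Dc D C r (fun u G => Entv (A1 u G) G (A2 u G) (A3 u G) (A4 u G)) :=
  Dc.e5 (P := fun _ a b c d e => Entv a b c d e) hL hD hr (dfb_entv hL) h1 (Et.G hD) h2 h3 h4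

/-- `X` is decided in `h` below `z` (`z` an ordinal): the relation in `M` -/
def Dcv (M : V → Prop) (h G X : V) : Prop := ∃ y, M y ∧ ∃ z, M z ∧ IsOrd z ∧ Entv h G X y z

theorem dfb_dcv (hL : Lb) : Dfb ZFm (fun M v => Dcv M (v 0) (v 1) (v 2)) :=
  (Dfb.ex (Dfb.ex ((Dfb.isOrd (Tm.var 0)).and (Dfb.entv hL (Tm.var 2) (Tm.var 3) (Tm.var 4)
    (Tm.var 1) (Tm.var 0))))).congr fun M k v hv => Iff.rfl

theorem dcc_iff (hL : Lb) {M : V → Prop} (k : ZFm M) {h G X : V} (hh : M h) (hG : M G) :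
    Dcc h G X ↔ Dcv M h G X := by
  constructor
  · rintro ⟨y, e, h1⟩
    obtain ⟨_, h2, h3⟩ := entv_mem hL k hh hG h1
    exact ⟨y, h2, _, h3, ⟨e, rfl⟩, h1⟩
  · rintro ⟨y, _, z, _, ⟨e, rfl⟩, h1⟩
    exact ⟨y, e, h1⟩

/-- facts on the extension -/
theorem zfmW (hL : Lb) (hD : D.Ok) {ρ G : V} (hρ : D.N ρ) (hc : Cld D.L ρ) (hG : D.Gn ρ G) :
    ZFm (D.W G) ∧ (∀ x, D.N x → D.W G x) ∧ D.W G G := by
  obtain ⟨h1, _⟩ := ((hL.BJ D hD).2.2.2.2 ρ hρ hc).2 G hG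
  exact ⟨h1.1.toZFCm.toZFm, h1.2.1, h1.2.2.1⟩

theorem Dc.dcc (hL : Lb) (hD : D.Ok) (hr : TN D.N r) (h1 : TN D.N h) (h2 : Et D A2) :
    Dc D C r (fun u G => Dcc (h u) G (A2 u G)) := by
  refine (Dc.e3 (P := fun M a b c => Dcv M a b c) hL hD hr (dfb_dcv hL) (Et.gr h1) (Et.G hD)
    h2).cg fun u h3 h4 h5 G hG => ?_
  obtain ⟨c1, c2, c3⟩ := zfmW hL hD (hD.nH h4.1) h4.2 hG
  exact (dcc_iff hL c1 (c2 _ (TN.mem hD.zfm h1 h3)) c3).symm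

/-- the restriction of a history -/
theorem tm_hr : Tm ZFm (fun _ v => (v 0).sep fun z => snd (snd (snd z)) ∈ v 1) :=
  Tm.sep (R := fun _ w => snd (snd (snd (w 0))) ∈ w 2) (Dfb.mem (Tm.snd (Tm.snd (Tm.snd
    (Tm.var 0)))) (Tm.var 2)) (Tm.var 0)

theorem TN.hr (hD : D.Ok) (h1 : TN D.N h) (h2 : TN D.N f) :
    TN D.N (fun u => hr (h u) (f u).rank) :=
  TN.of2 hD.zfm (P := fun _ x y => x.sep fun z => snd (snd (snd z)) ∈ y) tm_hr h1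
    (TN.rkS hD.zfm h2)

/-! ### terms of the base system -/

theorem TN.bu (hD : D.Ok) (hb : b.Ok D κ) (hf : TN D.N f) : TN D.N (fun u => b.u (f u)) :=
  TN.app hD.zfm (TN.cst hb.nU) hf

theorem DN.ob (hD : D.Ok) (hb : b.Ok D κ) (hf : TN D.N f) : DN D.N (fun u => f u ∈ b.Ob) :=
  DN.mem hD.zfm hf (TN.cst hb.nO)

theorem DN.ble (hD : D.Ok) (hb : b.Ok D κ) (hf : TN D.N f) (hg : TN D.N g) :
    DN D.N (fun u => b.Le (f u) (g u)) :=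
  DN.mem hD.zfm (TN.pair hD.zfm hf hg) (TN.cst hb.nL)

theorem tm_lG (hL : Lb) : Tm ZFm (fun _ v => lG (v 0)) := hL.BBa.2.2.2.1

theorem tm_kd (hL : Lb) : Tm ZFm (fun _ v => kd (v 0)) := Tm.fst (tm_lG hL)

theorem tm_tg (hL : Lb) : Tm ZFm (fun _ v => tg (v 0)) := Tm.fst (Tm.snd (tm_lG hL))

theorem tm_tm (hL : Lb) : Tm ZFm (fun _ v => tm (v 0)) := Tm.fst (Tm.snd (Tm.snd (tm_lG hL)))

theorem tm_vw (hL : Lb) : Tm ZFm (fun _ v => vw (v 0)) := Tm.snd (Tm.snd (Tm.snd (tm_lG hL)))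

theorem TN.kd (hL : Lb) (hD : D.Ok) (hf : TN D.N f) : TN D.N (fun u => kd (f u)) :=
  TN.of1 hD.zfm (P := fun _ x => UZ.kd x) (tm_kd hL) hf

theorem TN.tg (hL : Lb) (hD : D.Ok) (hf : TN D.N f) : TN D.N (fun u => tg (f u)) :=
  TN.of1 hD.zfm (P := fun _ x => UZ.tg x) (tm_tg hL) hf

theorem TN.tm (hL : Lb) (hD : D.Ok) (hf : TN D.N f) : TN D.N (fun u => tm (f u)) :=
  TN.of1 hD.zfm (P := fun _ x => UZ.tm x) (tm_tm hL) hf

theorem TN.vw (hL : Lb) (hD : D.Ok) (hf : TN D.N f) : TN D.N (fun u => vw (f u)) :=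
  TN.of1 hD.zfm (P := fun _ x => UZ.vw x) (tm_vw hL) hf

theorem TN.lS (hL : Lb) (hD : D.Ok) (hf : TN D.N f) : TN D.N (fun u => lS (f u)) :=
  TN.of1 hD.zfm (P := fun _ x => SE.lS x) hL.F.lS hf

theorem TN.lZ (hL : Lb) (hD : D.Ok) (hf : TN D.N f) : TN D.N (fun u => lZ (f u)) :=
  TN.of1 hD.zfm (P := fun _ x => SE.lZ x) hL.F.lZ hf

theorem DN.co (hL : Lb) (hD : D.Ok) (b : BS) (hf : TN D.N f) : DN D.N (fun u => b.Co (f u)) :=
  DN.eq hD.zfm (TN.kd hL hD hf) (TN.nS hD.zfm b.l)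

/-- closed objects -/
theorem DN.obs (hL : Lb) (hD : D.Ok) (hb : b.Ok D κ) (hf : TN D.N f) :
    DN D.N (fun u => b.Obs (f u)) := by
  have hN := hD.zfm
  have h1 : DN D.N (fun u => f u ∈ b.Ob ∧ ∀ j ∈ b.u (f u), b.Co j → lS j ⊆ vw j ∧
      (∃ A, D.N A ∧ b.Le A (f u) ∧ b.u A = vw j) ∧ ∀ k ∈ vw j, b.Co k → vw k ⊆ vw j) := by
    refine (DN.ob hD hb hf).and hN (DN.ball (S := fun w => b.Co (w 0) → lS (w 0) ⊆ vw (w 0) ∧
      (∃ A, D.N A ∧ b.Le A (f fun i => w (i + 1)) ∧ b.u A = vw (w 0)) ∧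
        ∀ k ∈ vw (w 0), b.Co k → vw k ⊆ vw (w 0)) hN (TN.bu hD hb hf) ?_)
    have v0 := TN.var (N := D.N) hN 0
    have v1 := TN.var (N := D.N) hN 1
    refine (DN.co hL hD b v0).imp hN ((DN.subset hN (TN.lS hL hD v0) (TN.vw hL hD v0)).and hN
      (DN.and hN ?_ ?_))
    · exact DN.ex (S := fun w => b.Le (w 0) (f fun i => w (i + 2)) ∧ b.u (w 0) = vw (w 1))
        ((DN.ble hD hb v0 (hf.rn (fun i => i + 2))).and hN
          (DN.eq hN (TN.bu hD hb v0) (TN.vw hL hD v1)))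
    · exact DN.ball (F := fun w => vw (w 0)) (S := fun w => b.Co (w 0) → vw (w 0) ⊆ vw (w 1))
        hN (TN.vw hL hD v0) ((DN.co hL hD b v0).imp hN
          (DN.subset hN (TN.vw hL hD v0) (TN.vw hL hD v1)))
  refine h1.congr fun u hu => ?_
  constructor
  · rintro ⟨h2, h3⟩
    refine ⟨h2, fun j hj hc => ?_⟩
    obtain ⟨h4, ⟨A, _, h5⟩, h6⟩ := h3 j hj hc
    exact ⟨h4, ⟨A, h5⟩, h6⟩
  · intro h2
    refine ⟨h2.o, fun j hj hc => ?_⟩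
    obtain ⟨h4, ⟨A, h5, h5'⟩, h6⟩ := h2.v j hj hc
    exact ⟨h4, ⟨A, hN.trans _ hb.nO _ (hb.leO _ _ h5).1, h5, h5'⟩, h6⟩

/-- histories -/
theorem DN.his (hL : Lb) (hD : D.Ok) (hf : TN D.N f) (hh : TN D.N h) (hg : TN D.N g) :
    DN D.N (fun u => His D (f u) (h u) (g u).rank) := by
  have hN := hD.zfm
  have v0 := TN.var (N := D.N) hN 0
  have v1 := TN.var (N := D.N) hN 1
  have v2 := TN.var (N := D.N) hN 2
  have v3 := TN.var (N := D.N) hN 3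
  have v4 := TN.var (N := D.N) hN 4
  -- variables: `e, Y, X, q, z, u`
  have h1 : DN D.N (fun w => (Nam D.L (f fun i => w (i + 5)) (w 2)) ∧
      (Nam D.L (f fun i => w (i + 5)) (w 1)) ∧ w 4 = ht (w 3) (w 2) (w 1) (w 0)) :=
    (dnNam hL hD (hf.rn (fun i => i + 5)) v2).and hN
      ((dnNam hL hD (hf.rn (fun i => i + 5)) v1).and hN (DN.eq hN v4
        (TN.pair hN v3 (TN.pair hN v2 (TN.pair hN v1 v0)))))
  have h2 : DN D.N (fun u => ∀ z ∈ h u, ∃ q ∈ Pos D.L (f u), ∃ X, D.N X ∧ ∃ Y, D.N Y ∧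
      ∃ e ∈ rkS (g u), Nam D.L (f u) X ∧ Nam D.L (f u) Y ∧ z = ht q X Y e) := by
    refine DN.ball (S := fun w => ∃ q ∈ Pos D.L (f fun i => w (i + 1)), ∃ X, D.N X ∧
      ∃ Y, D.N Y ∧ ∃ e ∈ rkS (g fun i => w (i + 1)), Nam D.L (f fun i => w (i + 1)) X ∧
        Nam D.L (f fun i => w (i + 1)) Y ∧ w 0 = ht q X Y e) hN hh ?_
    refine DN.bex (S := fun w => ∃ X, D.N X ∧
      ∃ Y, D.N Y ∧ ∃ e ∈ rkS (g fun i => w (i + 2)), Nam D.L (f fun i => w (i + 2)) X ∧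
        Nam D.L (f fun i => w (i + 2)) Y ∧ w 1 = ht (w 0) X Y e) hN
        (tnP hL hD (hf.rn (fun i => i + 1))) ?_
    refine DN.ex (S := fun w => ∃ Y, D.N Y ∧ ∃ e ∈ rkS (g fun i => w (i + 3)),
      Nam D.L (f fun i => w (i + 3)) (w 0) ∧ Nam D.L (f fun i => w (i + 3)) Y ∧
        w 2 = ht (w 1) (w 0) Y e) ?_
    refine DN.ex (S := fun w => ∃ e ∈ rkS (g fun i => w (i + 4)),
      Nam D.L (f fun i => w (i + 4)) (w 1) ∧ Nam D.L (f fun i => w (i + 4)) (w 0) ∧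
        w 3 = ht (w 2) (w 1) (w 0) e) ?_
    exact DN.bex hN (TN.rkS hN (hg.rn (fun i => i + 4))) h1
  refine h2.congr fun u hu => ?_
  have hhN := TN.mem hN hh hu
  constructor
  · intro h3
    refine ⟨hhN, fun z hz => ?_⟩
    obtain ⟨q, hq, X, hX, Y, hY, e, he, h4, h5, h6⟩ := h3 z hz
    obtain ⟨α, hα, rfl⟩ := Ordinal.mem_toZFSet_iff.1 he
    exact ⟨q, hq, X, Y, α, hα, ⟨hX, h4⟩, ⟨hY, h5⟩, h6⟩
  · intro h3 z hz
    obtain ⟨q, hq, X, Y, e, he, h4, h5, h6⟩ := h3.m z hz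
    exact ⟨q, hq, X, h4.1, Y, h5.1, e.toZFSet, Ordinal.toZFSet_mem_toZFSet_iff.2 he, h4.2, h5.2, h6⟩

end UZ

end SE
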