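import Pool.Agent.H41.UZ.UC

/-!
# The types are decided, for families of worlds which are given by a set of the ground model
-/

set_option linter.unusedVariables false

open Ordinal Order Set
open scoped ZFSet

namespace SE

open SF

namespace UZ

open _root_.UZ

variable {D : Cx} {C C' : (ℕ → V) → Prop} {r s f g h t e f1 f2 f3 f4 Bt : (ℕ → V) → V}
  {X Y : (ℕ → V) → V → Prop} {S : (ℕ → V) → Prop} {A B E A1 A2 A3 A4 A5 A6 : (ℕ → V) → V → V}
  {b : BS} {κ : V}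

/-- the condition: the object `Bt u` is in `b.Ob`, the set of labels is `b.u (Bt u)` -/
def Cb (b : BS) (Bt : (ℕ → V) → V) (u : ℕ → V) : Prop := Bt u ∈ b.Ob

/-! ### secured facts -/

/-- `BS.Se` with the set of the secured facts as an argument -/
def Sev (Sc B G a x : V) : Prop := ∃ p ∈ G, ∃ a' x',
  ZFSet.pair B (ZFSet.pair p (ZFSet.pair a' x')) ∈ Sc ∧ ev G a' = a ∧ ev G x' = x

theorem dfb_sev (hL : Lb) : Dfb ZFm (fun _ v => Sev (v 0) (v 1) (v 2) (v 3) (v 4)) := by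
  -- variables: `x', a', p, Sc, B, G, a, x`
  have h1 : Dfb ZFm (fun _ w => ZFSet.pair (w 4) (ZFSet.pair (w 2) (ZFSet.pair (w 1) (w 0))) ∈ w 3 ∧
      ev (w 5) (w 1) = w 6 ∧ ev (w 5) (w 0) = w 7) :=
    (Dfb.mem (Tm.pair (Tm.var 4) (Tm.pair (Tm.var 2) (Tm.pair (Tm.var 1) (Tm.var 0))))
      (Tm.var 3)).and ((Dfb.eq (Tm.at2 (F := fun _ x y => ev x y) hL.F.ev (Tm.var 5) (Tm.var 1))
        (Tm.var 6)).and (Dfb.eq (Tm.at2 (F := fun _ x y => ev x y) hL.F.ev (Tm.var 5)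
          (Tm.var 0)) (Tm.var 7)))
  refine (Dfb.bex ktr_zfm (Tm.var 2) h1.ex.ex).congr fun M k v hv => ?_
  constructor
  · rintro ⟨p, hp, a', ha, x', hx, h2, h3, h4⟩
    exact ⟨p, hp, a', x', h2, h3, h4⟩
  · rintro ⟨p, hp, a', x', h2, h3, h4⟩
    have h5 := zfm_snd k (zfm_snd k (k.trans _ (hv 0) _ h2))
    exact ⟨p, hp, a', zfm_fst k h5, x', zfm_snd k h5, h2, h3, h4⟩

theorem Dc.se (hL : Lb) (hD : D.Ok) (hb : b.Ok D κ) (hr : TN D.N r) (h1 : TN D.N Bt)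
    (h2 : Et D A1) (h3 : Et D A2) :
    Dc D C r (fun u G => b.Se (Bt u) G (A1 u G) (A2 u G)) :=
  Dc.e5 (P := fun _ a b c d e => Sev a b c d e) hL hD hr (dfb_sev hL) (Et.gr (TN.cst hb.nS))
    (Et.gr h1) (Et.G hD) h2 h3

theorem Dc.ss (hL : Lb) (hD : D.Ok) (hb : b.Ok D κ) (h1 : TN D.N Bt) (h2 : Et D A1)
    (h3 : Et D A2) :
    Dc D C (fun u => b.u (Bt u)) (fun u G => b.Ss D (Bt u) G (A1 u G) (A2 u G)) := by
  refine Dc.exR' (Z := fun u G v => b.Se (Bt u) G (A1 u G) (prl (A2 u G) v)) hL hD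
    (TN.bu hD hb h1) (fun h => ?_) fun u _ h4 _ => ⟨h4.2, fun _ h => h⟩
  exact Dc.se hL hD hb (TN.bu hD hb (h1.rn (fun i => i + 1))) (h1.rn (fun i => i + 1))
    (h2.rn (fun i => i + 1)) (Et.prl hL hD (h3.rn (fun i => i + 1)) h)

/-! ### components of pairs of reals -/

theorem rl_eq {x : V} (h : Rl x) : x = resS om (app x) := by
  have hf := h
  unfold Rl at hf
  ext z
  rw [mem_resS]
  constructor
  · intro hz
    obtain ⟨n, hn, j, hj, rfl⟩ := ZFSet.mem_prod.1 (hf.1 hz)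
    refine ⟨n, hn, ?_⟩
    obtain ⟨w, hw, h2⟩ := hf.2 n hn
    have h3 : app x n = j := app_eq (by
      intro a c d hc hd
      have ha := (ZFSet.pair_mem_prod.1 (hf.1 hc)).1
      obtain ⟨w, _, h4⟩ := hf.2 a ha
      rw [h4 c hc, h4 d hd]) hz
    rw [h3]
  · rintro ⟨n, hn, rfl⟩
    obtain ⟨w, hw, h2⟩ := hf.2 n hn
    have h3 : app x n = w := app_eq (by
      intro a c d hc hd
      have ha := (ZFSet.pair_mem_prod.1 (hf.1 hc)).1
      obtain ⟨w, _, h4⟩ := hf.2 a ha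
      rw [h4 c hc, h4 d hd]) hw
    rw [h3]
    exact hw

theorem prl_mem {M : V → Prop} (k : ZFm M) {x y : V} (hx : Rl x) (hy : Rl y)
    (h : M (prl x y)) : M x ∧ M y := by
  have h1 : ∀ {g : V → V} {w : V}, Rl w → Tm ZFm (fun _ v => g (v 0)) →
      (∀ n ∈ om, g (ZFSet.pair (app x n) (app y n)) = app w n) → M w := by
    intro g w hw hg h2
    have h3 : M (resS om fun n => g (app (prl x y) n)) :=
      (Tm.resS (f := fun _ _ => om) (g := fun _ v => g (app (v 1) (v 0))) Tm.om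
        (Tm.at1 (F := fun _ x => g x) hg (Tm.app (Tm.var 1) (Tm.var 0)))).1 M k
        (fun _ => prl x y) fun _ => h
    have e : (resS om fun n => g (app (prl x y) n)) = w := by
      refine Eq.trans (resS_congr fun n hn => ?_) (rl_eq hw).symm
      have e1 : app (prl x y) n = ZFSet.pair (app x n) (app y n) := by
        unfold SE.prl
        rw [app_resS hn]
      rw [e1, h2 n hn]
    rw [← e]
    exact h3
  exact ⟨h1 (g := fun z => fst z) hx (Tm.fst (Tm.var 0)) fun n _ => fst_pair _ _,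
    h1 (g := fun z => snd z) hy (Tm.snd (Tm.var 0)) fun n _ => snd_pair _ _⟩

/-- terms of the extension have values in the extension -/
theorem Et.mem (hL : Lb) (hD : D.Ok) (h : Et D A) {u : ℕ → V} (hu : In D.N u) {ρ G : V}
    (hρ : D.N ρ) (hc : Cld D.L ρ) (hG : D.Gn ρ G) : D.W G (A u G) := by
  obtain ⟨F, hF, g, hg, h⟩ := h
  obtain ⟨c1, c2, c3⟩ := zfmW hL hD hρ hc hG
  rw [h u hu G]
  exact hF.1 _ c1 _ (In.cons (fun _ => c2 _ (TN.mem hD.zfm hg hu)) c3)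

/-- killed pairs -/
theorem Dc.kil (hL : Lb) (hD : D.Ok) (hb : b.Ok D κ) (h1 : TN D.N Bt) (h2 : Et D A1)
    (h3 : Et D A2) :
    Dc D C (fun u => b.u (Bt u)) (fun u G => b.Kil D (Bt u) G (A1 u G) (A2 u G)) := by
  have hr := TN.bu hD hb h1
  have h4 : Dc D C (fun u => b.u (Bt u)) (fun u G => ∃ a, RR D (b.u (Bt u)) G a ∧
      ∃ x, RR D (b.u (Bt u)) G x ∧ (A1 u G = prl (kc 0) (prl a x) ∧
        b.Ss D (Bt u) G a (prl x (A2 u G)))) := by
    refine Dc.exR' hL hD hr (fun ha => ?_) fun u _ h4 _ => ⟨h4.2, fun _ h => h⟩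
    refine Dc.exR' hL hD (hr.rn (fun i => i + 1)) (fun hx => ?_)
      fun u _ h4 _ => ⟨h4.2, fun _ h => h⟩
    have ha' := ha.rn (fun i => i + 1)
    refine Dc.and hL hD (hr.rn (fun i => i + 2)) ?_ ?_
    · exact Dc.eq hL hD (hr.rn (fun i => i + 2)) (h2.rn (fun i => i + 2))
        (Et.prl hL hD (Et.kc hL hD 0) (Et.prl hL hD ha' hx))
    · exact Dc.ss hL hD hb (h1.rn (fun i => i + 2)) ha'
        (Et.prl hL hD hx (h3.rn (fun i => i + 2)))
  refine h4.cg fun u h5 h6 h7 G hG => ?_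
  have hρ := hD.nH h6.1
  obtain ⟨c1, c2, c3⟩ := zfmW hL hD hρ h6.2 hG
  constructor
  · rintro ⟨a, ha, x, hx, h8, h9⟩
    exact ⟨a, x, ha.2, hx.2, h8, h9⟩
  · rintro ⟨a, x, ha, hx, h8, h9⟩
    have h10 := Et.mem hL hD h2 h5 hρ h6.2 hG
    rw [h8] at h10
    have hk0 : Rl (kc 0) := (hL.AH.2.2.2.1 0).1
    have hR : Rl (prl a x) := (hL.AH.1 a x ha hx).1
    have h11 := (prl_mem c1 hk0 hR h10).2
    have h12 := prl_mem c1 ha hx h11
    unfold RR
    rw [gs_gn hG]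
    exact ⟨a, ⟨h12.1, ha⟩, x, ⟨h12.2, hx⟩, h8, h9⟩

end UZ

end SE
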