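import Pool.Agent.H41.UZ.UB

/-!
# Terms of the extension

`Et D A`: `A u G` is an absolute definable function of `G` and of an element of the ground model
which is definable (with parameters) from `u`.
-/

set_option linter.unusedVariables false

open Ordinal Order Set
open scoped ZFSet

namespace SE

open SF

namespace UZ

open _root_.UZ

variable {D : Cx} {C C' : (ℕ → V) → Prop} {r s f g : (ℕ → V) → V} {X Y : (ℕ → V) → V → Prop}
  {S : (ℕ → V) → Prop} {A B E A1 A2 A3 A4 A5 A6 : (ℕ → V) → V → V}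

/-- terms of the extension -/
def Et (D : Cx) (A : (ℕ → V) → V → V) : Prop := ∃ F : (ℕ → V) → V, Tm ZFm (fun _ v => F v) ∧
  ∃ g : (ℕ → V) → V, TN D.N g ∧ ∀ u, In D.N u → ∀ G, A u G = F (cons G fun _ => g u)

theorem Et.congr (h : Et D A) (h' : ∀ u, In D.N u → ∀ G, A u G = B u G) : Et D B := by
  obtain ⟨F, hF, g, hg, h⟩ := h
  exact ⟨F, hF, g, hg, fun u hu G => (h' u hu G).symm.trans (h u hu G)⟩

theorem Et.gr (hf : TN D.N f) : Et D (fun u _ => f u) :=
  ⟨fun v => v 1, Tm.var 1, f, hf, fun _ _ _ => rfl⟩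

theorem Et.G (hD : D.Ok) : Et D (fun _ G => G) :=
  ⟨fun v => v 0, Tm.var 0, fun _ => om, TN.om hD.zfm, fun _ _ _ => rfl⟩

theorem Et.rn (h : Et D A) (ρ : ℕ → ℕ) : Et D (fun u G => A (fun i => u (ρ i)) G) := by
  obtain ⟨F, hF, g, hg, h⟩ := h
  exact ⟨F, hF, _, hg.rn ρ, fun u hu G => h _ (fun i => hu _) G⟩

theorem Et.pair (hD : D.Ok) (h : Et D A) (h' : Et D B) :
    Et D (fun u G => ZFSet.pair (A u G) (B u G)) := by
  obtain ⟨F, hF, g, hg, h⟩ := h
  obtain ⟨F', hF', g', hg', h'⟩ := h'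
  refine ⟨fun v => ZFSet.pair (F (cons (v 0) fun _ => fst (v 1)))
    (F' (cons (v 0) fun _ => snd (v 1))), ?_, _, TN.pair hD.zfm hg hg', ?_⟩
  · refine Tm.pair ((hF.comp (fun i => match i with
      | 0 => fun _ v => v 0
      | i + 1 => fun _ v => fst (v 1)) fun i => match i with
      | 0 => Tm.var 0
      | i + 1 => Tm.fst (Tm.var 1)).congr fun M k v hv => ?_) ((hF'.comp (fun i => match i with
      | 0 => fun _ v => v 0
      | i + 1 => fun _ v => snd (v 1)) fun i => match i with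
      | 0 => Tm.var 0
      | i + 1 => Tm.snd (Tm.var 1)).congr fun M k v hv => ?_)
    · congr 1
      funext i
      cases i <;> rfl
    · congr 1
      funext i
      cases i <;> rfl
  · intro u hu G
    simp only [cons_zero, cons_succ, fst_pair, snd_pair]
    rw [h u hu G, h' u hu G]

/-- restriction of the filter -/
theorem Et.sub (hL : Lb) (hD : D.Ok) (h : Et D A) (hs : TN D.N s) :
    Et D (fun u G => A u (gs G (s u))) := by
  obtain ⟨F, hF, g, hg, h⟩ := h
  refine ⟨fun v => F (cons (gs (v 0) (snd (v 1))) fun _ => fst (v 1)), ?_, _,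
    TN.pair hD.zfm hg hs, ?_⟩
  · refine (hF.comp (fun i => match i with
      | 0 => fun _ v => gs (v 0) (snd (v 1))
      | i + 1 => fun _ v => fst (v 1)) fun i => match i with
      | 0 => Tm.at2 (F := fun _ x y => gs x y) hL.F.gs (Tm.var 0) (Tm.snd (Tm.var 1))
      | i + 1 => Tm.fst (Tm.var 1)).congr fun M k v hv => ?_
    congr 1
    funext i
    cases i <;> rfl
  · intro u hu G
    simp only [cons_zero, cons_succ, fst_pair, snd_pair]
    rw [h u hu _]

theorem Et.at1 (hD : D.Ok) {P : V → V} (hP : Tm ZFm (fun _ v => P (v 0))) (h : Et D A) :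
    Et D (fun u G => P (A u G)) := by
  obtain ⟨F, hF, g, hg, h⟩ := h
  exact ⟨fun v => P (F v), Tm.at1 (F := fun _ x => P x) hP hF, g, hg, fun u hu G => by
    show P (A u G) = P _
    rw [h u hu G]⟩

theorem Et.at2 (hD : D.Ok) {P : V → V → V} (hP : Tm ZFm (fun _ v => P (v 0) (v 1)))
    (h : Et D A) (h' : Et D B) : Et D (fun u G => P (A u G) (B u G)) := by
  refine (Et.at1 (P := fun z => P (fst z) (snd z)) hD ?_ (Et.pair hD h h')).congr
    fun u hu G => by simp only [fst_pair, snd_pair]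
  exact Tm.at2 (F := fun _ x y => P x y) hP (Tm.fst (Tm.var 0)) (Tm.snd (Tm.var 0))

theorem Et.at3 (hD : D.Ok) {P : V → V → V → V} (hP : Tm ZFm (fun _ v => P (v 0) (v 1) (v 2)))
    (h : Et D A) (h' : Et D B) (h'' : Et D E) : Et D (fun u G => P (A u G) (B u G) (E u G)) := by
  refine (Et.at1 (P := fun z => P (fst z) (fst (snd z)) (snd (snd z))) hD ?_
    (Et.pair hD h (Et.pair hD h' h''))).congr fun u hu G => by simp only [fst_pair, snd_pair]
  exact Tm.at3 (F := fun _ x y z => P x y z) hP (Tm.fst (Tm.var 0)) (Tm.fst (Tm.snd (Tm.var 0)))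
    (Tm.snd (Tm.snd (Tm.var 0)))

theorem Et.ev (hL : Lb) (hD : D.Ok) (h : Et D A) (h' : Et D B) :
    Et D (fun u G => ev (A u G) (B u G)) := Et.at2 hD hL.F.ev h h'

theorem Et.evs (hL : Lb) (hD : D.Ok) (h : Et D A) (h' : Et D B) :
    Et D (fun u G => evs G (A u G) (B u G)) :=
  Et.at3 (P := fun x y z => UZ.evs x y z) hD (dfb_eve hL) (Et.G hD) h h'

theorem Et.prl (hL : Lb) (hD : D.Ok) (h : Et D A) (h' : Et D B) :
    Et D (fun u G => prl (A u G) (B u G)) := Et.at2 hD hL.F.prl h h'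

theorem Et.kc (hL : Lb) (hD : D.Ok) (e : ℕ) : Et D (fun _ _ => SE.kc e) :=
  Et.gr (TN.of hD.zfm (hL.F.kc e))

theorem Et.cg (hL : Lb) (hD : D.Ok) (h : Et D A) : Et D (fun u G => cg G (A u G)) :=
  Et.at2 (P := fun x y => SE.cg x y) hD hL.F.cg (Et.G hD) h

/-! ### atomic relations -/

theorem Dc.e1 (hL : Lb) (hD : D.Ok) (hr : TN D.N r) {P : (V → Prop) → V → Prop}
    (hP : Dfb ZFm (fun M v => P M (v 0))) (h1 : Et D A1) :
    Dc D C r (fun u G => P (D.W G) (A1 u G)) := by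
  obtain ⟨F, hF, g, hg, h⟩ := h1
  have h2 : Dfb ZFm (fun M v => P M (F (cons (v 0) fun _ => v 1))) := by
    refine Dfb.at1 (P := fun M x => P M x) hP ((hF.comp (fun i => match i with
      | 0 => fun _ v => v 0
      | i + 1 => fun _ v => v 1) fun i => match i with
      | 0 => Tm.var 0
      | i + 1 => Tm.var 1).congr fun M k v hv => ?_)
    congr 1
    funext i
    cases i <;> rfl
  refine (Dc.b1 (P := fun M G x => P M (F (cons G fun _ => x))) hL hD hr h2 hg).cg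
    fun u h3 h4 h5 G hG => ?_
  rw [h u h3 G]

theorem Dc.e2 (hL : Lb) (hD : D.Ok) (hr : TN D.N r) {P : (V → Prop) → V → V → Prop}
    (hP : Dfb ZFm (fun M v => P M (v 0) (v 1))) (h1 : Et D A1) (h2 : Et D A2) :
    Dc D C r (fun u G => P (D.W G) (A1 u G) (A2 u G)) := by
  refine (Dc.e1 (P := fun M z => P M (fst z) (snd z)) hL hD hr
    (Dfb.at2 (P := fun M x y => P M x y) hP (Tm.fst (Tm.var 0)) (Tm.snd (Tm.var 0)))
    (Et.pair hD h1 h2)).cg fun u _ _ _ G _ => ?_
  simp only [fst_pair, snd_pair]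

theorem Dc.e3 (hL : Lb) (hD : D.Ok) (hr : TN D.N r) {P : (V → Prop) → V → V → V → Prop}
    (hP : Dfb ZFm (fun M v => P M (v 0) (v 1) (v 2))) (h1 : Et D A1) (h2 : Et D A2)
    (h3 : Et D A3) : Dc D C r (fun u G => P (D.W G) (A1 u G) (A2 u G) (A3 u G)) := by
  refine (Dc.e2 (P := fun M x z => P M x (fst z) (snd z)) hL hD hr
    (Dfb.at3 (P := fun M x y z => P M x y z) hP (Tm.var 0) (Tm.fst (Tm.var 1))
      (Tm.snd (Tm.var 1))) h1 (Et.pair hD h2 h3)).cg fun u _ _ _ G _ => ?_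
  simp only [fst_pair, snd_pair]

theorem Dc.e4 (hL : Lb) (hD : D.Ok) (hr : TN D.N r) {P : (V → Prop) → V → V → V → V → Prop}
    (hP : Dfb ZFm (fun M v => P M (v 0) (v 1) (v 2) (v 3))) (h1 : Et D A1) (h2 : Et D A2)
    (h3 : Et D A3) (h4 : Et D A4) :
    Dc D C r (fun u G => P (D.W G) (A1 u G) (A2 u G) (A3 u G) (A4 u G)) := by
  refine (Dc.e3 (P := fun M x y z => P M x y (fst z) (snd z)) hL hD hr
    (hP.comp (fun i => match i with
      | 0 => fun _ v => v 0
      | 1 => fun _ v => v 1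
      | 2 => fun _ v => fst (v 2)
      | 3 => fun _ v => snd (v 2)
      | i + 4 => fun _ v => v 0) fun i => match i with
      | 0 => Tm.var 0
      | 1 => Tm.var 1
      | 2 => Tm.fst (Tm.var 2)
      | 3 => Tm.snd (Tm.var 2)
      | i + 4 => Tm.var 0) h1 h2 (Et.pair hD h3 h4)).cg fun u _ _ _ G _ => ?_
  simp only [fst_pair, snd_pair]

theorem Dc.e5 (hL : Lb) (hD : D.Ok) (hr : TN D.N r) {P : (V → Prop) → V → V → V → V → V → Prop}
    (hP : Dfb ZFm (fun M v => P M (v 0) (v 1) (v 2) (v 3) (v 4))) (h1 : Et D A1) (h2 : Et D A2)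
    (h3 : Et D A3) (h4 : Et D A4) (h5 : Et D A5) :
    Dc D C r (fun u G => P (D.W G) (A1 u G) (A2 u G) (A3 u G) (A4 u G) (A5 u G)) := by
  refine (Dc.e4 (P := fun M x y z t => P M x y z (fst t) (snd t)) hL hD hr
    (hP.comp (fun i => match i with
      | 0 => fun _ v => v 0
      | 1 => fun _ v => v 1
      | 2 => fun _ v => v 2
      | 3 => fun _ v => fst (v 3)
      | 4 => fun _ v => snd (v 3)
      | i + 5 => fun _ v => v 0) fun i => match i with
      | 0 => Tm.var 0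
      | 1 => Tm.var 1
      | 2 => Tm.var 2
      | 3 => Tm.fst (Tm.var 3)
      | 4 => Tm.snd (Tm.var 3)
      | i + 5 => Tm.var 0) h1 h2 h3 (Et.pair hD h4 h5)).cg fun u _ _ _ G _ => ?_
  simp only [fst_pair, snd_pair]

theorem Dc.e6 (hL : Lb) (hD : D.Ok) (hr : TN D.N r)
    {P : (V → Prop) → V → V → V → V → V → V → Prop}
    (hP : Dfb ZFm (fun M v => P M (v 0) (v 1) (v 2) (v 3) (v 4) (v 5))) (h1 : Et D A1)
    (h2 : Et D A2) (h3 : Et D A3) (h4 : Et D A4) (h5 : Et D A5) (h6 : Et D A6) :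
    Dc D C r (fun u G => P (D.W G) (A1 u G) (A2 u G) (A3 u G) (A4 u G) (A5 u G) (A6 u G)) := by
  refine (Dc.e5 (P := fun M x y z t w => P M x y z t (fst w) (snd w)) hL hD hr
    (hP.comp (fun i => match i with
      | 0 => fun _ v => v 0
      | 1 => fun _ v => v 1
      | 2 => fun _ v => v 2
      | 3 => fun _ v => v 3
      | 4 => fun _ v => fst (v 4)
      | 5 => fun _ v => snd (v 4)
      | i + 6 => fun _ v => v 0) fun i => match i with
      | 0 => Tm.var 0
      | 1 => Tm.var 1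
      | 2 => Tm.var 2
      | 3 => Tm.var 3
      | 4 => Tm.fst (Tm.var 4)
      | 5 => Tm.snd (Tm.var 4)
      | i + 6 => Tm.var 0) h1 h2 h3 h4 (Et.pair hD h5 h6)).cg fun u _ _ _ G _ => ?_
  simp only [fst_pair, snd_pair]

theorem Dc.eq (hL : Lb) (hD : D.Ok) (hr : TN D.N r) (h1 : Et D A1) (h2 : Et D A2) :
    Dc D C r (fun u G => A1 u G = A2 u G) :=
  Dc.e2 (P := fun _ x y => x = y) hL hD hr (Dfb.eq (Tm.var 0) (Tm.var 1)) h1 h2

theorem Dc.mem (hL : Lb) (hD : D.Ok) (hr : TN D.N r) (h1 : Et D A1) (h2 : Et D A2) :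
    Dc D C r (fun u G => A1 u G ∈ A2 u G) :=
  Dc.e2 (P := fun _ x y => x ∈ y) hL hD hr (Dfb.mem (Tm.var 0) (Tm.var 1)) h1 h2

/-- quantifier over the reals of the restriction, with the term for the real -/
theorem Dc.exR' (hL : Lb) (hD : D.Ok) {Z : (ℕ → V) → V → V → Prop} (hs : TN D.N s)
    (h : Et D (fun u G => evs G (s fun i => u (i + 1)) (u 0)) →
      Dc D (fun u => C fun i => u (i + 1)) (fun u => r fun i => u (i + 1))
        (fun u G => Z (fun i => u (i + 1)) G (evs G (s fun i => u (i + 1)) (u 0))))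
    (hC2 : ∀ u, In D.N u → Cr D r u → C u → Cld D.L (s u) ∧ s u ⊆ r u) :
    Dc D C r (fun u G => ∃ x, RR D (s u) G x ∧ Z u G x) :=
  Dc.exR hL hD hs (h (Et.evs hL hD (Et.gr (hs.rn _)) (Et.gr (TN.var hD.zfm 0))))
    (fun u Y _ _ h3 _ _ => h3) hC2

theorem Dc.allR' (hL : Lb) (hD : D.Ok) (hr : TN D.N r) {Z : (ℕ → V) → V → V → Prop}
    (hs : TN D.N s)
    (h : Et D (fun u G => evs G (s fun i => u (i + 1)) (u 0)) →
      Dc D (fun u => C fun i => u (i + 1)) (fun u => r fun i => u (i + 1))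
        (fun u G => Z (fun i => u (i + 1)) G (evs G (s fun i => u (i + 1)) (u 0))))
    (hC2 : ∀ u, In D.N u → Cr D r u → C u → Cld D.L (s u) ∧ s u ⊆ r u) :
    Dc D C r (fun u G => ∀ x, RR D (s u) G x → Z u G x) :=
  Dc.allR hL hD hr hs (h (Et.evs hL hD (Et.gr (hs.rn _)) (Et.gr (TN.var hD.zfm 0))))
    (fun u Y _ _ h3 _ _ => h3) hC2

/-- `RR` is decided -/
theorem Dc.rr (hL : Lb) (hD : D.Ok) (hr : TN D.N r) (hs : TN D.N s) (h1 : Et D A1)
    (hC2 : ∀ u, In D.N u → Cr D r u → C u → Cld D.L (s u) ∧ s u ⊆ r u) :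
    Dc D C r (fun u G => RR D (s u) G (A1 u G)) := by
  have h : Dc D C r (fun u G => ∃ x, RR D (s u) G x ∧ x = A1 u G) :=
    Dc.exR' (Z := fun u G x => x = A1 u G) hL hD hs (fun h =>
      Dc.eq hL hD (hr.rn (fun i => i + 1)) h (h1.rn (fun i => i + 1))) hC2
  refine h.cg fun u _ _ _ G _ => ?_
  constructor
  · rintro ⟨x, hx, rfl⟩
    exact hx
  · intro hx
    exact ⟨_, hx, rfl⟩

/-- quantifier over elements of the extension: names of the ground model -/
theorem Dc.exW (hL : Lb) (hD : D.Ok) {Z : (ℕ → V) → V → V → Prop}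
    (h : Et D (fun u G => val G (u 0)) → Dc D (fun u => C fun i => u (i + 1))
      (fun u => r fun i => u (i + 1)) (fun u G => Z (fun i => u (i + 1)) G (val G (u 0)))) :
    Dc D C r (fun u G => ∃ x, D.W G x ∧ Z u G x) := by
  have h1 : Et D (fun u G => val G (u 0)) :=
    Et.at2 (P := fun x y => val x y) hD (Tm.val (Tm.var 0) (Tm.var 1)) (Et.G hD)
      (Et.gr (TN.var hD.zfm 0))
  refine (Dc.ex (C := C) (S := fun _ => True) hL hD (DN.cst hD.zfm True) (h h1)
    (fun u y _ _ h3 _ _ => h3)).cg fun u _ _ _ G _ => ?_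
  constructor
  · rintro ⟨y, hy, _, h2⟩
    exact ⟨_, ⟨y, hy, rfl⟩, h2⟩
  · rintro ⟨_, ⟨y, hy, rfl⟩, h2⟩
    exact ⟨y, hy, trivial, h2⟩

end UZ

end SE
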