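import Pool.Agent.H41.UZ.UD

/-!
# The types are decided, for families of worlds which are given by a set of the ground model
-/

set_option linter.unusedVariables false

open Ordinal Order Set
open scoped ZFSet

namespace SE

open SF

namespace UZ

open _root_.UZ

variable {D : Cx} {C C' : (ℕ → V) → Prop} {r s f g h t e f1 f2 f3 f4 Bt : (ℕ → V) → V}
  {X Y : (ℕ → V) → V → Prop} {S : (ℕ → V) → Prop} {A B E A1 A2 A3 A4 A5 A6 : (ℕ → V) → V → V}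
  {b : BS} {κ : V}

/-- the family of worlds which is given by the table `t` -/
def Ft (b : BS) (t : V) : Fam := fun e B h => B ∈ b.Ob ∧ ZFSet.pair B h ∈ app t e.toZFSet

theorem cs_cr {D : Cx} {ρ : V} (h : CS D ρ) : ρ ∈ D.H ∧ Cld D.L ρ := ⟨h.h, h.c⟩

theorem cr_u (hb : b.Ok D κ) {u : ℕ → V} (h : Bt u ∈ b.Ob) : Cr D (fun u => b.u (Bt u)) u :=
  cs_cr (hb.cs _ h)

/-! ### the order of worlds -/

/-- the entries of `h0` and `h` for `X` below `z` are the same, in `M` -/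
def Eev (M : V → Prop) (h0 h G X z : V) : Prop := ∀ y, M y → ∀ e, M e → IsOrd e → e ∈ z →
  (Entv h0 G X y e ↔ Entv h G X y e)

theorem dfb_eev (hL : Lb) : Dfb ZFm (fun M v => Eev M (v 0) (v 1) (v 2) (v 3) (v 4)) :=
  (Dfb.all (Dfb.all ((Dfb.isOrd (Tm.var 0)).imp ((Dfb.mem (Tm.var 0) (Tm.var 6)).imp
    ((Dfb.entv hL (Tm.var 2) (Tm.var 4) (Tm.var 5) (Tm.var 1) (Tm.var 0)).iff
      (Dfb.entv hL (Tm.var 3) (Tm.var 4) (Tm.var 5) (Tm.var 1) (Tm.var 0))))))).congr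
    fun M k v hv => Iff.rfl

theorem eev_iff (hL : Lb) {M : V → Prop} (k : ZFm M) {h0 h G X : V} {σ : Ordinal.{0}}
    (hh : M h) (hh0 : M h0) (hG : M G) :
    Eev M h0 h G X σ.toZFSet ↔ ∀ y e, (Ent h0 G X y e ∧ e < σ ↔ Ent h G X y e ∧ e < σ) := by
  constructor
  · intro h1 y e
    constructor
    · rintro ⟨h2, h3⟩
      obtain ⟨_, h4, h5⟩ := entv_mem hL k hh0 hG h2
      exact ⟨(h1 y h4 _ h5 ⟨e, rfl⟩ (toZFSet_mem.2 h3)).1 h2, h3⟩
    · rintro ⟨h2, h3⟩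
      obtain ⟨_, h4, h5⟩ := entv_mem hL k hh hG h2
      exact ⟨(h1 y h4 _ h5 ⟨e, rfl⟩ (toZFSet_mem.2 h3)).2 h2, h3⟩
  · rintro h1 y hy _ he ⟨e, rfl⟩ h3
    have h4 := toZFSet_mem.1 h3
    exact ⟨fun h5 => ((h1 y e).1 ⟨h5, h4⟩).1, fun h5 => ((h1 y e).2 ⟨h5, h4⟩).1⟩

theorem DN.lw (hL : Lb) (hD : D.Ok) (hb : b.Ok D κ) (he : TN D.N e) (h1 : TN D.N f1)
    (h2 : TN D.N f2) (h3 : TN D.N f3) (h4 : TN D.N f4) :
    DN D.N (fun u => b.LW D (e u).rank (f1 u) (f2 u) (f3 u) (f4 u)) := by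
  have hr := TN.bu hD hb h3
  have h5 : Dc D (fun u => b.Le (f1 u) (f3 u)) (fun u => b.u (f3 u)) (fun u G =>
      ∀ X, RR D (b.u (f1 u)) G X → Eev (D.W G) (f2 u) (f4 u) G X (rkS (e u))) := by
    refine Dc.allR' (Z := fun u G X => Eev (D.W G) (f2 u) (f4 u) G X (rkS (e u))) hL hD hr
      (TN.bu hD hb h1) (fun hX => ?_)
      fun u _ _ h6 => ⟨(hb.cs _ (hb.leO _ _ h6).1).c, (hb.leO _ _ h6).2.2⟩
    exact Dc.e5 (P := fun M a b c d e => Eev M a b c d e) hL hD (hr.rn (fun i => i + 1))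
      (dfb_eev hL) (Et.gr (h2.rn (fun i => i + 1))) (Et.gr (h4.rn (fun i => i + 1))) (Et.G hD) hX
      (Et.gr ((TN.rkS hD.zfm he).rn (fun i => i + 1)))
  refine (Dc.dnG hL hD hr (DN.ble hD hb h1 h3) h5).congr fun u hu => ?_
  have key : ∀ G, Cr D (fun u => b.u (f3 u)) u → D.Gn (b.u (f3 u)) G → ∀ X,
      (Eev (D.W G) (f2 u) (f4 u) G X (rkS (e u)) ↔ ∀ y σ, (Ent (f2 u) G X y σ ∧ σ < (e u).rank ↔
        Ent (f4 u) G X y σ ∧ σ < (e u).rank)) := by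
    intro G hc hG X
    obtain ⟨c1, c2, c3⟩ := zfmW hL hD (hD.nH hc.1) hc.2 hG
    exact eev_iff hL c1 (c2 _ (TN.mem hD.zfm h4 hu)) (c2 _ (TN.mem hD.zfm h2 hu)) c3
  constructor
  · rintro ⟨c1, c2, c3⟩
    exact ⟨c2, fun G hG X hX => (key G c1 hG X).1 (c3 G hG X hX)⟩
  · rintro ⟨c2, c3⟩
    have c1 := cr_u (Bt := f3) (u := u) hb (hb.leO _ _ c2).2.1
    exact ⟨c1, c2, fun G hG X hX => (key G c1 hG X).2 (c3 G hG X hX)⟩

/-! ### the types -/

theorem DN.ftb (hD : D.Ok) (hb : b.Ok D κ) (ht : TN D.N t) (he : TN D.N e) (h1 : TN D.N f1)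
    (h2 : TN D.N f2) : DN D.N (fun u => Ft b (t u) (e u).rank (f1 u) (f2 u)) :=
  (DN.ob hD hb h1).and hD.zfm (DN.mem hD.zfm (TN.pair hD.zfm h1 h2)
    (TN.app hD.zfm ht (TN.rkS hD.zfm he)))

theorem app_ne {t x : V} (h : ∀ y, ZFSet.pair x y ∉ t) : app t x = ∅ := by
  unfold SF.app
  refine (ZFSet.eq_empty _).2 fun z hz => ?_
  obtain ⟨y, hy, _⟩ := ZFSet.mem_sUnion.1 hz
  exact h y (ZFSet.mem_sep.1 hy).2

theorem ft_mem {t : V} (hD : D.Ok) (ht : D.N t) {σ : Ordinal.{0}} {B h : V}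
    (h1 : Ft b t σ B h) : D.N B ∧ D.N h := by
  have h2 : D.N (app t σ.toZFSet) := by
    by_cases h3 : σ.toZFSet ∈ dm t
    · have h4 : D.N σ.toZFSet := by
        have h5 : D.N (dm t) := TN.mem hD.zfm (TN.dm hD.zfm (TN.var hD.zfm 0)) (u := fun _ => t)
          fun _ => ht
        exact hD.zfm.trans _ h5 _ h3
      exact TN.mem hD.zfm (TN.app hD.zfm (TN.var hD.zfm 0) (TN.var hD.zfm 1))
        (u := cons t fun _ => σ.toZFSet) (In.cons (fun _ => h4) ht)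
    · exfalso
      have h5 := h1.2
      rw [app_ne (fun y hy => h3 (mem_dm.2 ⟨y, hy⟩))] at h5
      exact ZFSet.notMem_empty _ h5
  have h3 := hD.zfm.trans _ h2 _ h1.2
  exact ⟨zfm_fst hD.zfm h3, zfm_snd hD.zfm h3⟩

/-- quantifier over the extensions of the world `(B, h)` -/
theorem Dc.ew (hL : Lb) (hD : D.Ok) (hb : b.Ok D κ) (ht : TN D.N t) (he : TN D.N e)
    (hB : TN D.N Bt) (hh : TN D.N h) {Z : (ℕ → V) → V → V → V → Prop}
    (hZ : Dc D (fun w => b.Le (Bt fun i => w (i + 2)) (w 1)) (fun w => b.u (w 1))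
      (fun w G => Z (fun i => w (i + 2)) (w 1) (w 0) G)) :
    Dc D (fun _ => True) (fun u => b.u (Bt u)) (fun u G => ∃ B' h' G',
      b.Ew D (Ft b (t u)) (e u).rank (Bt u) (h u) G B' h' G' ∧ Z u B' h' G') := by
  have hN := hD.zfm
  have v0 := TN.var (N := D.N) hN 0
  have v1 := TN.var (N := D.N) hN 1
  have h1 : Dc D (fun w => b.Le (Bt fun i => w (i + 2)) (w 1))
      (fun w => b.u (Bt fun i => w (i + 2))) (fun w G => ∃ G', D.Gn (b.u (w 1)) G' ∧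
        gs G' (b.u (Bt fun i => w (i + 2))) = G ∧ Z (fun i => w (i + 2)) (w 1) (w 0) G') :=
    Dc.ext hL hD (TN.bu hD hb (hB.rn (fun i => i + 2))) (TN.bu hD hb v1) hZ
      fun w _ _ h2 => ⟨cs_cr (hb.cs _ (hb.leO _ _ h2).2.1), (hb.leO _ _ h2).2.2, h2⟩
  have h2 : Dc D (fun _ => True) (fun w => b.u (Bt fun i => w (i + 1))) (fun w G =>
      ∃ h', D.N h' ∧ (Ft b (t fun i => w (i + 1)) (e fun i => w (i + 1)).rank (w 0) h' ∧
        b.LW D (e fun i => w (i + 1)).rank (Bt fun i => w (i + 1)) (h fun i => w (i + 1))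
          (w 0) h') ∧ ∃ G', D.Gn (b.u (w 0)) G' ∧ gs G' (b.u (Bt fun i => w (i + 1))) = G ∧
            Z (fun i => w (i + 1)) (w 0) h' G') := by
    refine Dc.ex (C' := fun w => b.Le (Bt fun i => w (i + 2)) (w 1))
      (r := fun w => b.u (Bt fun i => w (i + 1))) (X := fun w G => ∃ G', D.Gn (b.u (w 1)) G' ∧
        gs G' (b.u (Bt fun i => w (i + 2))) = G ∧ Z (fun i => w (i + 2)) (w 1) (w 0) G')
      (S := fun w => Ft b (t fun i => w (i + 2)) (e fun i => w (i + 2)).rank (w 1)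
      (w 0) ∧ b.LW D (e fun i => w (i + 2)).rank (Bt fun i => w (i + 2)) (h fun i => w (i + 2))
        (w 1) (w 0)) hL hD ?_ h1 fun u y _ _ _ _ h3 => h3.2.le
    exact (DN.ftb hD hb (ht.rn (fun i => i + 2)) (he.rn (fun i => i + 2)) v1 v0).and hN
      (DN.lw hL hD hb (he.rn (fun i => i + 2)) (hB.rn (fun i => i + 2)) (hh.rn (fun i => i + 2))
        v1 v0)
  refine (Dc.ex (C := fun _ => True) (S := fun _ => True) hL hD (DN.cst hN True) h2
    (fun _ _ _ _ _ _ _ => trivial)).cg fun u h3 h4 _ G hG => ?_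
  constructor
  · rintro ⟨B', hB', _, h', hh', ⟨h5, h6⟩, G', h7, h8, h9⟩
    exact ⟨B', h', G', ⟨h5, h6, h7, h8⟩, h9⟩
  · rintro ⟨B', h', G', h5, h9⟩
    obtain ⟨h6, h7⟩ := ft_mem hD (TN.mem hN ht h3) h5.w
    exact ⟨B', h6, trivial, h', h7, ⟨h5.w, h5.le⟩, G', h5.g, h5.r, h9⟩

theorem Dc.kb (hL : Lb) (hD : D.Ok) (hb : b.Ok D κ) (ht : TN D.N t) (he : TN D.N e)
    (hB : TN D.N Bt) (hh : TN D.N h) (h1 : Et D A1) (h2 : Et D A2) :
    Dc D C (fun u => b.u (Bt u)) (fun u G => b.Kb D (Ft b (t u)) (e u).rank (Bt u) (h u) G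
      (A1 u G) (A2 u G)) := by
  refine Dc.mono (C := fun _ => True) ?_ fun _ _ _ _ => trivial
  have hN := hD.zfm
  have hs := TN.bu hD hb (hB.rn (fun i => i + 2))
  refine (Dc.ew (Z := fun u B' h' G' => b.Kil D B' G' (A1 u (gs G' (b.u (Bt u))))
    (A2 u (gs G' (b.u (Bt u))))) hL hD hb ht he hB hh ?_).cg fun u h3 h4 _ G hG => ?_
  · exact Dc.kil hL hD hb (TN.var hN 1) (Et.sub hL hD (h1.rn (fun i => i + 2)) hs)
      (Et.sub hL hD (h2.rn (fun i => i + 2)) hs)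
  · refine exists_congr fun B' => exists_congr fun h' => exists_congr fun G' =>
      and_congr_right fun h5 => ?_
    rw [h5.r]

theorem Dc.nn (hL : Lb) (hD : D.Ok) (hb : b.Ok D κ) (ht : TN D.N t) (he : TN D.N e)
    (hB : TN D.N Bt) (hh : TN D.N h) (h1 : Et D A1) :
    Dc D C (fun u => b.u (Bt u)) (fun u G => b.Nn D (Ft b (t u)) (e u).rank (Bt u) (h u) G
      (A1 u G)) := by
  refine Dc.mono (C := fun _ => True) ?_ fun _ _ _ _ => trivial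
  have hN := hD.zfm
  have hs := TN.bu hD hb (hB.rn (fun i => i + 2))
  refine (Dc.ew (Z := fun u B' h' G' => ∃ y, RR D (b.u B') G' y ∧ (¬ RR D (b.u (Bt u)) G' y ∧
    ¬ b.Kb D (Ft b (t u)) (e u).rank B' h' G' (A1 u (gs G' (b.u (Bt u)))) y))
    hL hD hb ht he hB hh ?_).cg fun u h3 h4 _ G hG => ?_
  · have v0 := TN.var (N := D.N) hN 0
    have v1 := TN.var (N := D.N) hN 1
    have v2 := TN.var (N := D.N) hN 2
    refine Dc.exR' (Z := fun w G' y => (¬ RR D (b.u (Bt fun i => w (i + 2))) G' y ∧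
      ¬ b.Kb D (Ft b (t fun i => w (i + 2))) (e fun i => w (i + 2)).rank (w 1) (w 0) G'
        (A1 (fun i => w (i + 2)) (gs G' (b.u (Bt fun i => w (i + 2))))) y)) hL hD
      (TN.bu hD hb v1) (fun hy => ?_) fun u _ h4 _ => ⟨h4.2, fun _ h => h⟩
    have hr := TN.bu hD hb v2
    refine Dc.and hL hD hr (Dc.not hL hD hr ?_) (Dc.not hL hD hr ?_)
    · exact Dc.rr hL hD hr (TN.bu hD hb (hB.rn (fun i => i + 3))) hy
        fun w _ h4 h5 => ⟨(hb.cs _ (hb.leO _ _ h5).1).c, (hb.leO _ _ h5).2.2⟩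
    · exact Dc.kb hL hD hb (ht.rn (fun i => i + 3)) (he.rn (fun i => i + 3)) v2 v1
        (Et.sub hL hD (h1.rn (fun i => i + 3)) (TN.bu hD hb (hB.rn (fun i => i + 3)))) hy
  · constructor
    · rintro ⟨B', h', G', h5, y, h6, h7, h8⟩
      rw [h5.r] at h8
      exact ⟨B', h', G', y, h5, h6, h7, h8⟩
    · rintro ⟨B', h', G', y, h5, h6, h7, h8⟩
      refine ⟨B', h', G', h5, y, h6, h7, ?_⟩
      rw [h5.r]
      exact h8

theorem Dc.rg (hL : Lb) (hD : D.Ok) (hb : b.Ok D κ) (ht : TN D.N t) (he : TN D.N e)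
    (hB : TN D.N Bt) (hh : TN D.N h) (h1 : Et D A1) :
    Dc D C (fun u => b.u (Bt u)) (fun u G => b.Rg D (Ft b (t u)) (e u).rank (Bt u) (h u) G
      (A1 u G)) := by
  have hr := TN.bu hD hb hB
  refine Dc.and hL hD hr (Dc.not hL hD hr (Dc.nn hL hD hb ht he hB hh h1)) ?_
  refine Dc.exR' hL hD hr (fun hy => ?_) fun u _ h4 _ => ⟨h4.2, fun _ h => h⟩
  exact Dc.not hL hD (hr.rn (fun i => i + 1)) (Dc.kb hL hD hb (ht.rn (fun i => i + 1))
    (he.rn (fun i => i + 1)) (hB.rn (fun i => i + 1)) (hh.rn (fun i => i + 1))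
    (h1.rn (fun i => i + 1)) hy)

/-- L-stages -/
theorem DN.ls (hL : Lb) (hD : D.Ok) (hb : b.Ok D κ) (ht : TN D.N t) (he : TN D.N e) :
    DN D.N (fun u => b.Ls D (Ft b (t u)) (e u).rank) := by
  have hN := hD.zfm
  have v0 := TN.var (N := D.N) hN 0
  have v1 := TN.var (N := D.N) hN 1
  have h1 : Dc D (fun w => w 1 ∈ b.Ob) (fun w => b.u (w 1)) (fun w G =>
      ∀ X, RR D (b.u (w 1)) G X → (¬ Dcc (w 0) G X →
        ¬ b.Rg D (Ft b (t fun i => w (i + 2))) (e fun i => w (i + 2)).rank (w 1) (w 0) G X)) := by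
    have hr := TN.bu hD hb v1
    refine Dc.allR' hL hD hr hr (fun hX => ?_) fun u _ h4 _ => ⟨h4.2, fun _ h => h⟩
    have v2 := TN.var (N := D.N) hN 2
    have hr' := TN.bu hD hb v2
    exact (Dc.not hL hD hr' (Dc.dcc hL hD hr' v1 hX)).imp hL hD hr' (Dc.not hL hD hr'
      (Dc.rg hL hD hb (ht.rn (fun i => i + 3)) (he.rn (fun i => i + 3)) v2 v1 hX))
  have h2 := Dc.dnG hL hD (TN.bu hD hb v1) (DN.ob hD hb v1) h1
  refine ((DN.ftb hD hb (ht.rn (fun i => i + 2)) (he.rn (fun i => i + 2)) v1 v0).imp hN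
    h2).all.all.congr fun u hu => ?_
  constructor
  · intro h3 B h h4 G hG X hX h5
    obtain ⟨h6, h7⟩ := ft_mem hD (TN.mem hN ht hu) h4
    exact (h3 B h6 h h7 h4).2.2 G hG X hX h5
  · intro h3 B hB h hh h4
    exact ⟨cs_cr (hb.cs _ h4.1), h4.1, fun G hG X hX h5 => h3 B h h4 G hG X hX h5⟩

end UZ

end SE
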