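import Pool.Agent.H41.UZ.UF

/-!
# The numbers of the L-stages, the conditions on the worlds, for families which are given by a set
-/

set_option linter.unusedVariables false

open Ordinal Order Set
open scoped ZFSet

namespace SE

open SF

namespace UZ

open _root_.UZ

variable {D : Cx} {C C' : (ℕ → V) → Prop} {r s f g h t e f1 f2 f3 f4 Bt Ct : (ℕ → V) → V}
  {X Y : (ℕ → V) → V → Prop} {S : (ℕ → V) → Prop} {A B E A1 A2 A3 A4 A5 A6 : (ℕ → V) → V → V}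
  {b : BS} {κ : V}

/-! ### entries of histories are reals -/

theorem ent_rr (hL : Lb) (hD : D.Ok) {ρ G h X y : V} {e σ : Ordinal.{0}} (hρ : D.N ρ)
    (hc : Cld D.L ρ) (hG : D.Gn ρ G) (hh : His D ρ h σ) (he : Ent h G X y e) :
    RR D ρ G X ∧ RR D ρ G y ∧ e < σ := by
  obtain ⟨q, hq, X', Y', hz, rfl, rfl⟩ := he
  obtain ⟨q1, hq1, X1, Y1, e1, he1, hX, hY, h1⟩ := hh.m _ hz
  unfold ht at h1
  obtain ⟨h2, h3⟩ := ZFSet.pair_injective h1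
  obtain ⟨h4, h5⟩ := ZFSet.pair_injective h3
  obtain ⟨h6, h7⟩ := ZFSet.pair_injective h5
  have h8 := Ordinal.toZFSet_injective h7
  subst h4
  subst h6
  subst h8
  have key := fun x => rr_iff (x := x) hL hD hρ hc hρ hc (fun _ h => h) hG
  exact ⟨(key _).2 ⟨X', hX.1, hX.2, evs_gn hG⟩, (key _).2 ⟨Y', hY.1, hY.2, evs_gn hG⟩, he1⟩

/-! ### the numbers of the L-stages -/

theorem mem_toZFSet_cn (F : Fam) (σ : Ordinal.{0}) (z : V) : z ∈ (b.cn D F σ).toZFSet ↔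
    ∃ d < σ, b.Ls D F d ∧ z ∈ (succ (b.cn D F d)).toZFSet := by
  rw [Ordinal.mem_toZFSet_iff]
  constructor
  · rintro ⟨α, hα, rfl⟩
    rw [BS.cn, Ordinal.lt_iSup_iff] at hα
    obtain ⟨⟨⟨d, hd⟩, h1⟩, h2⟩ := hα
    exact ⟨d, hd, h1, toZFSet_mem.2 h2⟩
  · rintro ⟨d, hd, h1, h2⟩
    obtain ⟨α, hα, rfl⟩ := Ordinal.mem_toZFSet_iff.1 h2
    refine ⟨α, ?_, rfl⟩
    rw [BS.cn, Ordinal.lt_iSup_iff]
    exact ⟨⟨⟨d, hd⟩, h1⟩, hα⟩

theorem TN.cnx0 (hL : Lb) (hD : D.Ok) (hb : b.Ok D κ) :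
    TN D.N (fun u => (b.cn D (Ft b (u 1)) (u 0).rank).toZFSet) := by
  have hN := hD.zfm
  refine TN.recu (E := fun u => (rkS (u 0)).sep fun d => b.Ls D (Ft b (u 1)) d.rank)
    (G := fun w => (⋃₀ (imS (dm (w 0)) fun d => insert (app (w 0) d) (app (w 0) d)) : ZFSet))
    hN ?_ ?_ ?_ ?_
  · exact TN.sep (S := fun w => b.Ls D (Ft b (w 2)) (w 0).rank) hN
      (DN.ls hL hD hb (TN.var hN 2) (TN.var hN 0)) (TN.rkS hN (TN.var hN 0))
  · exact TN.iUn (F := fun w => dm (w 0)) (G := fun w => insert (app (w 1) (w 0))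
      (app (w 1) (w 0))) hN (TN.dm hN (TN.var hN 0)) (TN.ins hN
        (TN.app hN (TN.var hN 1) (TN.var hN 0)) (TN.app hN (TN.var hN 1) (TN.var hN 0)))
  · intro u hu y hy
    obtain ⟨α, hα, rfl⟩ := Ordinal.mem_toZFSet_iff.1 (ZFSet.mem_sep.1 hy).1
    rw [Ordinal.rank_toZFSet]
    exact hα
  · intro u hu
    ext z
    rw [mem_toZFSet_cn, ZFSet.mem_sUnion]
    simp only [cons_zero, cons_succ, dm_resS]
    constructor
    · rintro ⟨d, hd, h1, h2⟩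
      have hd' : d.toZFSet ∈ (rkS (u 0)).sep fun d => b.Ls D (Ft b (u 1)) d.rank := by
        rw [ZFSet.mem_sep, Ordinal.rank_toZFSet]
        exact ⟨toZFSet_mem.2 hd, h1⟩
      refine ⟨_, mem_imS.2 ⟨d.toZFSet, hd', rfl⟩, ?_⟩
      rw [app_resS hd', Ordinal.rank_toZFSet, ← Ordinal.toZFSet_succ]
      exact h2
    · rintro ⟨_, h1, h2⟩
      obtain ⟨d', hd', rfl⟩ := mem_imS.1 h1
      rw [app_resS hd', ← Ordinal.toZFSet_succ] at h2
      obtain ⟨h3, h4⟩ := ZFSet.mem_sep.1 hd'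
      obtain ⟨d, hd, rfl⟩ := Ordinal.mem_toZFSet_iff.1 h3
      rw [Ordinal.rank_toZFSet] at h2 h4
      exact ⟨d, hd, h4, h2⟩

theorem TN.cnx (hL : Lb) (hD : D.Ok) (hb : b.Ok D κ) (ht : TN D.N t) (he : TN D.N e) :
    TN D.N (fun u => (b.cn D (Ft b (t u)) (e u).rank).toZFSet) :=
  TN.at2 (P := fun x y => (b.cn D (Ft b y) x.rank).toZFSet) hD.zfm (TN.cnx0 hL hD hb) he ht

theorem sj_eq (F : Fam) (σ : Ordinal.{0}) (τ : V) : (b.sj D F σ τ).toZFSet =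
    σ.toZFSet.sep fun x => ∀ e ∈ σ.toZFSet, b.Ls D F e.rank →
      (b.cn D F e.rank).toZFSet = τ → x ∈ e := by
  have hne : {e | e = σ ∨ (b.Ls D F e ∧ (b.cn D F e).toZFSet = τ)}.Nonempty := ⟨σ, Or.inl rfl⟩
  have h1 : b.sj D F σ τ ≤ σ := csInf_le' (Or.inl rfl)
  ext x
  rw [ZFSet.mem_sep]
  constructor
  · intro hx
    obtain ⟨α, hα, rfl⟩ := Ordinal.mem_toZFSet_iff.1 hx
    refine ⟨toZFSet_mem.2 (lt_of_lt_of_le hα h1), fun e he h2 h3 => ?_⟩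
    obtain ⟨ε, hε, rfl⟩ := Ordinal.mem_toZFSet_iff.1 he
    rw [Ordinal.rank_toZFSet] at h2 h3
    exact toZFSet_mem.2 (lt_of_lt_of_le hα (csInf_le' (Or.inr ⟨h2, h3⟩)))
  · rintro ⟨hx, h2⟩
    obtain ⟨α, hα, rfl⟩ := Ordinal.mem_toZFSet_iff.1 hx
    refine toZFSet_mem.2 ?_
    rcases csInf_mem hne with h3 | ⟨h3, h4⟩
    · unfold BS.sj
      rw [h3]
      exact hα
    · by_cases h5 : b.sj D F σ τ < σ
      · have h6 := h2 (b.sj D F σ τ).toZFSet (toZFSet_mem.2 h5)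
        rw [Ordinal.rank_toZFSet] at h6
        exact toZFSet_mem.1 (h6 h3 h4)
      · exact lt_of_lt_of_le hα (not_lt.1 h5)

theorem TN.sjx (hL : Lb) (hD : D.Ok) (hb : b.Ok D κ) (ht : TN D.N t) (he : TN D.N e)
    (hf : TN D.N f) : TN D.N (fun u => (b.sj D (Ft b (t u)) (e u).rank (f u)).toZFSet) := by
  have hN := hD.zfm
  have h1 : TN D.N (fun u => (rkS (e u)).sep fun x => ∀ y ∈ rkS (e u), b.Ls D (Ft b (t u)) y.rank →
      (b.cn D (Ft b (t u)) y.rank).toZFSet = f u → x ∈ y) := by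
    refine TN.sep (S := fun w => ∀ y ∈ rkS (e fun i => w (i + 1)), b.Ls D (Ft b (t fun i =>
      w (i + 1))) y.rank → (b.cn D (Ft b (t fun i => w (i + 1))) y.rank).toZFSet =
        (f fun i => w (i + 1)) → w 0 ∈ y) hN ?_ (TN.rkS hN he)
    refine DN.ball (F := fun w => rkS (e fun i => w (i + 1))) (S := fun w => b.Ls D (Ft b
      (t fun i => w (i + 2))) (w 0).rank → (b.cn D (Ft b (t fun i => w (i + 2)))
        (w 0).rank).toZFSet = (f fun i => w (i + 2)) → w 1 ∈ w 0) hN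
          (TN.rkS hN (he.rn (fun i => i + 1))) ?_
    have v0 := TN.var (N := D.N) hN 0
    exact (DN.ls hL hD hb (ht.rn (fun i => i + 2)) v0).imp hN ((DN.eq hN
      (TN.cnx hL hD hb (ht.rn (fun i => i + 2)) v0) (hf.rn (fun i => i + 2))).imp hN
        (DN.mem hN (TN.var hN 1) v0))
  exact h1.congr fun u _ => (sj_eq _ _ _).symm

/-! ### all generic filters -/

theorem Dc.dnO (hL : Lb) (hD : D.Ok) (hb : b.Ok D κ) (hB : TN D.N Bt) (hC : DN D.N C)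
    (h : Dc D C (fun u => b.u (Bt u)) X) (h2 : ∀ u, C u → Bt u ∈ b.Ob) :
    DN D.N (fun u => C u ∧ ∀ G, D.Gn (b.u (Bt u)) G → X u G) := by
  refine (Dc.dnG hL hD (TN.bu hD hb hB) hC h).congr fun u hu => ?_
  constructor
  · rintro ⟨_, h3⟩
    exact h3
  · rintro ⟨h3, h4⟩
    exact ⟨cr_u hb (h2 u h3), h3, h4⟩

/-! ### worlds -/

/-- the entries form a function, in `M` -/
def Fev (M : V → Prop) (h G : V) : Prop := ∀ X, M X → ∀ y, M y → ∀ y', M y' → ∀ e, M e →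
  ∀ e', M e' → IsOrd e → IsOrd e' → Entv h G X y e → Entv h G X y' e' → y = y' ∧ e = e'

theorem dfb_fev (hL : Lb) : Dfb ZFm (fun M v => Fev M (v 0) (v 1)) :=
  (Dfb.all (Dfb.all (Dfb.all (Dfb.all (Dfb.all ((Dfb.isOrd (Tm.var 1)).imp
    ((Dfb.isOrd (Tm.var 0)).imp ((Dfb.entv hL (Tm.var 5) (Tm.var 6) (Tm.var 4) (Tm.var 3)
      (Tm.var 1)).imp ((Dfb.entv hL (Tm.var 5) (Tm.var 6) (Tm.var 4) (Tm.var 2)
        (Tm.var 0)).imp ((Dfb.eq (Tm.var 3) (Tm.var 2)).and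
          (Dfb.eq (Tm.var 1) (Tm.var 0)))))))))))).congr fun M k v hv => Iff.rfl

theorem fev_iff (hL : Lb) {M : V → Prop} (k : ZFm M) {h G : V} (hh : M h) (hG : M G) :
    Fev M h G ↔ ∀ X y y' e e', Ent h G X y e → Ent h G X y' e' → y = y' ∧ e = e' := by
  constructor
  · intro h1 X y y' e e' h2 h3
    obtain ⟨a1, a2, a3⟩ := entv_mem hL k hh hG h2
    obtain ⟨_, c2, c3⟩ := entv_mem hL k hh hG h3
    obtain ⟨h4, h5⟩ := h1 X a1 y a2 y' c2 _ a3 _ c3 ⟨e, rfl⟩ ⟨e', rfl⟩ h2 h3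
    exact ⟨h4, Ordinal.toZFSet_injective h5⟩
  · rintro h1 X _ y _ y' _ _ _ _ _ ⟨e, rfl⟩ ⟨e', rfl⟩ h2 h3
    obtain ⟨h4, h5⟩ := h1 X y y' e e' h2 h3
    exact ⟨h4, by rw [h5]⟩

theorem DN.wo (hL : Lb) (hD : D.Ok) (hb : b.Ok D κ) (he : TN D.N e) (hB : TN D.N Bt)
    (hh : TN D.N h) : DN D.N (fun u => b.Wo D (e u).rank (Bt u) (h u)) := by
  have hN := hD.zfm
  have hr := TN.bu hD hb hB
  have h1 : Dc D (fun u => b.Obs (Bt u)) (fun u => b.u (Bt u)) (fun u G =>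
      Fev (D.W G) (h u) G) :=
    Dc.e2 (P := fun M a b => Fev M a b) hL hD hr (dfb_fev hL) (Et.gr hh) (Et.G hD)
  refine ((Dc.dnO hL hD hb hB (DN.obs hL hD hb hB) h1 fun u h => h.o).and hN
    (DN.his hL hD hr hh he)).congr fun u hu => ?_
  have key : ∀ G, b.Obs (Bt u) → D.Gn (b.u (Bt u)) G → (Fev (D.W G) (h u) G ↔
      ∀ X y y' e e', Ent (h u) G X y e → Ent (h u) G X y' e' → y = y' ∧ e = e') := by
    intro G ho hG
    have hc := cr_u (Bt := Bt) (u := u) hb ho.o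
    obtain ⟨c1, c2, c3⟩ := zfmW hL hD (hD.nH hc.1) hc.2 hG
    exact fev_iff hL c1 (c2 _ (TN.mem hN hh hu)) c3
  constructor
  · rintro ⟨⟨h2, h3⟩, h4⟩
    exact ⟨h2, h4, fun G hG => (key G h2 hG).1 (h3 G hG)⟩
  · intro h2
    exact ⟨⟨h2.o, fun G hG => (key G h2.o hG).2 (h2.f G hG)⟩, h2.hs⟩

/-! ### locality -/

def Lev (M : V → Prop) (h0 h G X z : V) : Prop := ∀ y, M y → ∀ e, M e → IsOrd e →
  (Entv h0 G X y e ↔ Entv h G X y e ∧ e ∈ z)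

theorem dfb_lev (hL : Lb) : Dfb ZFm (fun M v => Lev M (v 0) (v 1) (v 2) (v 3) (v 4)) :=
  (Dfb.all (Dfb.all ((Dfb.isOrd (Tm.var 0)).imp
    ((Dfb.entv hL (Tm.var 2) (Tm.var 4) (Tm.var 5) (Tm.var 1) (Tm.var 0)).iff
      ((Dfb.entv hL (Tm.var 3) (Tm.var 4) (Tm.var 5) (Tm.var 1) (Tm.var 0)).and
        (Dfb.mem (Tm.var 0) (Tm.var 6))))))).congr fun M k v hv => Iff.rfl

theorem lev_iff (hL : Lb) {M : V → Prop} (k : ZFm M) {h0 h G X : V} {σ : Ordinal.{0}}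
    (hh : M h) (hh0 : M h0) (hG : M G) :
    Lev M h0 h G X σ.toZFSet ↔ ∀ y e, (Ent h0 G X y e ↔ Ent h G X y e ∧ e < σ) := by
  constructor
  · intro h1 y e
    constructor
    · intro h2
      obtain ⟨_, h4, h5⟩ := entv_mem hL k hh0 hG h2
      obtain ⟨h6, h7⟩ := (h1 y h4 _ h5 ⟨e, rfl⟩).1 h2
      exact ⟨h6, toZFSet_mem.1 h7⟩
    · rintro ⟨h2, h3⟩
      obtain ⟨_, h4, h5⟩ := entv_mem hL k hh hG h2
      exact (h1 y h4 _ h5 ⟨e, rfl⟩).2 ⟨h2, toZFSet_mem.2 h3⟩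
  · rintro h1 y hy _ he ⟨e, rfl⟩
    exact (h1 y e).trans (and_congr_right fun _ => toZFSet_mem.symm)

theorem DN.loc (hL : Lb) (hD : D.Ok) (hb : b.Ok D κ) (he : TN D.N e) (hB : TN D.N Bt)
    (hC : TN D.N Ct) (hh : TN D.N h) :
    DN D.N (fun u => b.Le (Ct u) (Bt u) ∧ Loc D (b.u (Bt u)) (h u) (b.u (Ct u)) (e u).rank) := by
  have hN := hD.zfm
  have hr := TN.bu hD hb hB
  have v0 := TN.var (N := D.N) hN 0
  have hB' := hB.rn (fun i => i + 1)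
  have hC' := hC.rn (fun i => i + 1)
  have h1 : Dc D (fun w => b.Le (Ct fun i => w (i + 1)) (Bt fun i => w (i + 1)))
      (fun w => b.u (Bt fun i => w (i + 1))) (fun w G =>
        ∀ X, RR D (b.u (Ct fun i => w (i + 1))) G X →
          Lev (D.W G) (w 0) (h fun i => w (i + 1)) G X (rkS (e fun i => w (i + 1)))) := by
    refine Dc.allR' (Z := fun w G X => Lev (D.W G) (w 0) (h fun i => w (i + 1)) G X
      (rkS (e fun i => w (i + 1)))) hL hD (TN.bu hD hb hB') (TN.bu hD hb hC') (fun hX => ?_)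
        fun u _ _ h6 => ⟨(hb.cs _ (hb.leO _ _ h6).1).c, (hb.leO _ _ h6).2.2⟩
    exact Dc.e5 (P := fun M a b c d e => Lev M a b c d e) hL hD (TN.bu hD hb
      (hB.rn (fun i => i + 2))) (dfb_lev hL) (Et.gr (TN.var hN 1))
        (Et.gr (hh.rn (fun i => i + 2))) (Et.G hD) hX
          (Et.gr ((TN.rkS hN he).rn (fun i => i + 2)))
  have h2 := Dc.dnO hL hD hb hB' (DN.ble hD hb hC' hB') h1 fun u h => (hb.leO _ _ h).2.1
  have h3 := DN.ex ((DN.his hL hD (TN.bu hD hb hC') v0 (he.rn (fun i => i + 1))).and hN h2)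
  refine ((DN.ble hD hb hC hB).and hN h3).congr fun u hu => ?_
  refine and_congr_right fun h4 => ?_
  have hc := cr_u (Bt := Bt) (u := u) hb (hb.leO _ _ h4).2.1
  have key : ∀ G h0, D.N h0 → D.Gn (b.u (Bt u)) G → ∀ X, (Lev (D.W G) h0 (h u) G X (rkS (e u)) ↔
      ∀ y σ, (Ent h0 G X y σ ↔ Ent (h u) G X y σ ∧ σ < (e u).rank)) := by
    intro G h0 hh0 hG X
    obtain ⟨c1, c2, c3⟩ := zfmW hL hD (hD.nH hc.1) hc.2 hG
    exact lev_iff hL c1 (c2 _ (TN.mem hN hh hu)) (c2 _ hh0) c3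
  constructor
  · rintro ⟨h0, h5, h6, h7, h8⟩
    exact ⟨h0, h6, fun G hG X hX => (key G h0 h5 hG X).1 (h8 G hG X hX)⟩
  · rintro ⟨h0, h6, h8⟩
    exact ⟨h0, h6.n, h6, h4, fun G hG X hX => (key G h0 h6.n hG X).2 (h8 G hG X hX)⟩

end UZ

end SE
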