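import Pool.Agent.H41.UZ.UG

/-!
# The conditions on the worlds, for families which are given by a set; the table of the worlds
-/

set_option linter.unusedVariables false

open Ordinal Order Set
open scoped ZFSet

namespace SE

open SF

namespace UZ

open _root_.UZ

variable {D : Cx} {C C' : (ℕ → V) → Prop} {r s f g h t e f1 f2 f3 f4 Bt Ct : (ℕ → V) → V}
  {X Y : (ℕ → V) → V → Prop} {S : (ℕ → V) → Prop} {A B E A1 A2 A3 A4 A5 A6 : (ℕ → V) → V → V}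
  {b : BS} {κ : V}

/-! ### the condition (w1) -/

def Cev (M : V → Prop) (h G z : V) : Prop := ∀ X, M X → ∀ y, M y → ∀ e, M e → IsOrd e →
  Entv h G X y e → z ≠ prl X y

theorem dfb_cev (hL : Lb) : Dfb ZFm (fun M v => Cev M (v 0) (v 1) (v 2)) :=
  (Dfb.all (Dfb.all (Dfb.all ((Dfb.isOrd (Tm.var 0)).imp ((Dfb.entv hL (Tm.var 3) (Tm.var 4)
    (Tm.var 2) (Tm.var 1) (Tm.var 0)).imp (Dfb.eq (Tm.var 5)
      (Tm.at2 (F := fun _ x y => prl x y) hL.F.prl (Tm.var 2) (Tm.var 1))).not))))).congr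
        fun M k v hv => Iff.rfl

theorem cev_iff (hL : Lb) {M : V → Prop} (k : ZFm M) {h G z : V} (hh : M h) (hG : M G) :
    Cev M h G z ↔ ∀ X y e, Ent h G X y e → z ≠ prl X y := by
  constructor
  · intro h1 X y e h2
    obtain ⟨a1, a2, a3⟩ := entv_mem hL k hh hG h2
    exact h1 X a1 y a2 _ a3 ⟨e, rfl⟩ h2
  · rintro h1 X _ y _ _ _ ⟨e, rfl⟩ h2
    exact h1 X y e h2

/-- facts on an object -/
theorem fcO (hL : Lb) (hD : D.Ok) (hb : b.Ok D κ) {B G : V} (h : B ∈ b.Ob)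
    (hG : D.Gn (b.u B) G) : D.N (b.u B) ∧ Cld D.L (b.u B) ∧ ZFm (D.W G) ∧
      (∀ x, D.N x → D.W G x) ∧ D.W G G := by
  have hc := cs_cr (hb.cs _ h)
  obtain ⟨c1, c2, c3⟩ := zfmW hL hD (hD.nH hc.1) hc.2 hG
  exact ⟨hD.nH hc.1, hc.2, c1, c2, c3⟩

theorem DN.w1 (hL : Lb) (hD : D.Ok) (hb : b.Ok D κ) (hB : TN D.N Bt) (hh : TN D.N h) :
    DN D.N (fun u => b.Obs (Bt u) ∧ ∀ j ∈ b.u (Bt u), b.Co j → ∀ G, D.Gn (b.u (Bt u)) G →
      ∀ X y e, Ent (h u) G X y e → ev G (lZ j) ≠ prl X y) := by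
  have hN := hD.zfm
  have v0 := TN.var (N := D.N) hN 0
  have hB' := hB.rn (fun i => i + 1)
  have h1 : Dc D (fun w => b.Obs (Bt fun i => w (i + 1))) (fun w => b.u (Bt fun i => w (i + 1)))
      (fun w G => Cev (D.W G) (h fun i => w (i + 1)) G (ev G (lZ (w 0)))) :=
    Dc.e3 (P := fun M a b c => Cev M a b c) hL hD (TN.bu hD hb hB') (dfb_cev hL)
      (Et.gr (hh.rn (fun i => i + 1))) (Et.G hD) (Et.ev hL hD (Et.G hD) (Et.gr (TN.lZ hL hD v0)))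
  have h2 := Dc.dnO hL hD hb hB' (DN.obs hL hD hb hB') h1 fun u h => h.o
  refine ((DN.obs hL hD hb hB).and hN (DN.ball hN (TN.bu hD hb hB)
    ((DN.co hL hD b v0).imp hN h2))).congr fun u hu => ?_
  refine and_congr_right fun h3 => forall_congr' fun j => imp_congr_right fun hj =>
    imp_congr_right fun hc => ?_
  constructor
  · rintro ⟨_, h4⟩ G hG
    obtain ⟨_, _, c1, c2, c3⟩ := fcO hL hD hb h3.o hG
    exact (cev_iff hL c1 (c2 _ (TN.mem hN hh hu)) c3).1 (h4 G hG)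
  · intro h4
    refine ⟨h3, fun G hG => ?_⟩
    obtain ⟨_, _, c1, c2, c3⟩ := fcO hL hD hb h3.o hG
    exact (cev_iff hL c1 (c2 _ (TN.mem hN hh hu)) c3).2 (h4 G hG)

/-! ### the condition (w2) -/

theorem Dc.entE (hL : Lb) (hD : D.Ok) (hr : TN D.N r) (h1 : TN D.N h) (h2 : Et D A1)
    (h3 : TN D.N e) :
    Dc D C r (fun u G => ∃ y, Ent (h u) G (A1 u G) y (e u).rank) := by
  have h4 : Dfb ZFm (fun M v => ∃ y, M y ∧ Entv (v 0) (v 1) (v 2) y (v 3)) :=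
    Dfb.ex (Dfb.entv hL (Tm.var 1) (Tm.var 2) (Tm.var 3) (Tm.var 0) (Tm.var 4))
  refine (Dc.e4 (P := fun M a b c d => ∃ y, M y ∧ Entv a b c y d) hL hD hr h4 (Et.gr h1)
    (Et.G hD) h2 (Et.gr (TN.rkS hD.zfm h3))).cg fun u hu hc _ G hG => ?_
  obtain ⟨c1, c2, c3⟩ := zfmW hL hD (hD.nH hc.1) hc.2 hG
  constructor
  · rintro ⟨y, _, h5⟩
    exact ⟨y, h5⟩
  · rintro ⟨y, h5⟩
    exact ⟨y, (entv_mem hL c1 (c2 _ (TN.mem hD.zfm h1 hu)) c3 h5).2.1, h5⟩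

theorem Dc.entO (hL : Lb) (hD : D.Ok) (hr : TN D.N r) (h1 : TN D.N h) (h2 : Et D A1)
    (h3 : Et D A2) (h4 : TN D.N e) :
    Dc D C r (fun u G => Ent (h u) G (A1 u G) (A2 u G) (e u).rank) :=
  (Dc.ent hL hD hr (Et.gr h1) h2 h3 (Et.gr (TN.rkS hD.zfm h4))).cg fun u _ _ _ G _ => Iff.rfl

theorem DN.w2 (hL : Lb) (hD : D.Ok) (hb : b.Ok D κ) (ht : TN D.N t) (he : TN D.N e)
    (hB : TN D.N Bt) (hh : TN D.N h) :
    DN D.N (fun u => Bt u ∈ b.Ob ∧ ∀ G, D.Gn (b.u (Bt u)) G → ∀ X, RR D (b.u (Bt u)) G X →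
      ((∃ y, Ent (h u) G X y (e u).rank) ↔ ¬ Dcc (hr (h u) (e u).rank) G X ∧
        b.Rg D (Ft b (t u)) (e u).rank (Bt u) (hr (h u) (e u).rank) G X)) := by
  have hr := TN.bu hD hb hB
  have hr' := hr.rn (fun i => i + 1)
  refine Dc.dnO hL hD hb hB (DN.ob hD hb hB) ?_ fun u h => h
  refine Dc.allR' (Z := fun u G X => (∃ y, Ent (h u) G X y (e u).rank) ↔
    ¬ Dcc (UZ.hr (h u) (e u).rank) G X ∧
        b.Rg D (Ft b (t u)) (e u).rank (Bt u) (UZ.hr (h u) (e u).rank) G X) hL hD hr hr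
          (fun hX => ?_) fun u _ h6 _ => ⟨h6.2, fun _ h => h⟩
  have hh' := hh.rn (fun i => i + 1)
  have he' := he.rn (fun i => i + 1)
  refine Dc.iff hL hD hr' (Dc.entE hL hD hr' hh' hX he') ((Dc.not hL hD hr'
    (Dc.dcc hL hD hr' (TN.hr hD hh' he') hX)).and hL hD hr' ?_)
  exact Dc.rg hL hD hb (ht.rn (fun i => i + 1)) he' (hB.rn (fun i => i + 1))
    (TN.hr hD hh' he') hX

theorem DN.w2' (hL : Lb) (hD : D.Ok) (hb : b.Ok D κ) (ht : TN D.N t) (he : TN D.N e)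
    (hB : TN D.N Bt) (hh : TN D.N h) :
    DN D.N (fun u => Bt u ∈ b.Ob ∧ ∀ G, D.Gn (b.u (Bt u)) G → ∀ X, RR D (b.u (Bt u)) G X →
      ∀ y, RR D (b.u (Bt u)) G y → Ent (h u) G X y (e u).rank →
        ¬ b.Kb D (Ft b (t u)) (e u).rank (Bt u) (hr (h u) (e u).rank) G X y) := by
  have hr := TN.bu hD hb hB
  have hr' := hr.rn (fun i => i + 1)
  have hr2 := hr.rn (fun i => i + 2)
  refine Dc.dnO hL hD hb hB (DN.ob hD hb hB) ?_ fun u h => h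
  refine Dc.allR' (Z := fun u G X => ∀ y, RR D (b.u (Bt u)) G y → Ent (h u) G X y (e u).rank →
        ¬ b.Kb D (Ft b (t u)) (e u).rank (Bt u) (UZ.hr (h u) (e u).rank) G X y) hL hD hr hr
          (fun hX => ?_) fun u _ h6 _ => ⟨h6.2, fun _ h => h⟩
  refine Dc.allR' hL hD hr' hr' (fun hy => ?_) fun u _ h6 _ => ⟨h6.2, fun _ h => h⟩
  have hh2 := hh.rn (fun i => i + 2)
  have he2 := he.rn (fun i => i + 2)
  have hX' := hX.rn (fun i => i + 1)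
  exact Dc.imp hL hD hr2 (Dc.entO hL hD hr2 hh2 hX' hy he2) (Dc.not hL hD hr2
    (Dc.kb hL hD hb (ht.rn (fun i => i + 2)) he2 (hB.rn (fun i => i + 2))
      (TN.hr hD hh2 he2) hX' hy))

/-! ### the condition (w3) -/

def Ptv (ρ l2 k1 G X : V) : Prop := ∃ i ∈ ρ, kd i = l2 ∧ X = prl k1 (prm G i)

theorem tm_prm (hL : Lb) : Tm ZFm (fun _ v => prm (v 0) (v 1)) := by
  have h1 : Tm ZFm (fun _ v => ev (v 0) (lZ (v 1))) :=
    Tm.at2 (F := fun _ x y => ev x y) hL.F.ev (Tm.var 0)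
      (Tm.at1 (F := fun _ x => lZ x) hL.F.lZ (Tm.var 1))
  have h2 : Tm ZFm (fun _ v => prl (kc 1) (ev (v 0) (lZ (v 1)))) :=
    Tm.at2 (F := fun _ x y => prl x y) hL.F.prl (hL.F.kc 1) h1
  exact Tm.at2 (F := fun _ x y => prl x y) hL.F.prl h2
    (Tm.at2 (F := fun _ x y => cg x y) hL.F.cg (Tm.var 0) (Tm.var 1))

theorem dfb_ptv (hL : Lb) : Dfb ZFm (fun _ v => Ptv (v 0) (v 1) (v 2) (v 3) (v 4)) := by
  have h1 : Dfb ZFm (fun _ w => kd (w 0) = w 2 ∧ w 5 = prl (w 3) (prm (w 4) (w 0))) :=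
    (Dfb.eq (Tm.at1 (F := fun _ x => UZ.kd x) (tm_kd hL) (Tm.var 0)) (Tm.var 2)).and
      (Dfb.eq (Tm.var 5) (Tm.at2 (F := fun _ x y => prl x y) hL.F.prl (Tm.var 3)
        (Tm.at2 (F := fun _ x y => prm x y) (tm_prm hL) (Tm.var 4) (Tm.var 0))))
  exact Dfb.bex ktr_zfm (Tm.var 0) h1

theorem Dc.pt (hL : Lb) (hD : D.Ok) (hb : b.Ok D κ) (hr : TN D.N r) (hB : TN D.N Bt)
    (h1 : Et D A1) : Dc D C r (fun u G => b.Pt (Bt u) G (A1 u G)) :=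
  Dc.e5 (P := fun _ a b c d e => Ptv a b c d e) hL hD hr (dfb_ptv hL)
    (Et.gr (TN.bu hD hb hB)) (Et.gr (TN.nS hD.zfm (b.l + 2))) (Et.kc hL hD 1) (Et.G hD) h1

/-- `X`, `y` are seen by the label `f u` -/
theorem Dc.sn (hL : Lb) (hD : D.Ok) (hr : TN D.N r) (hf : TN D.N f) (h1 : Et D A1) (h2 : Et D A2)
    (hC : ∀ u, In D.N u → Cr D r u → C u → Cld D.L (vw (f u)) ∧ vw (f u) ⊆ r u) :
    Dc D C r (fun u G => Sn D G (A1 u G) (A2 u G) (f u)) :=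
  (Dc.rr hL hD hr (TN.vw hL hD hf) h1 hC).and hL hD hr (Dc.rr hL hD hr (TN.vw hL hD hf) h2 hC)

theorem obs_vw (hb : b.Ok D κ) {B j : V} (h : b.Obs B) (hj : j ∈ b.u B) (hc : b.Co j) :
    Cld D.L (vw j) ∧ vw j ⊆ b.u B := by
  obtain ⟨_, ⟨A, h1, h2⟩, _⟩ := h.v j hj hc
  have h3 := hb.leO _ _ h1
  rw [← h2]
  exact ⟨(hb.cs _ h3.1).c, h3.2.2⟩

theorem DN.w3a (hL : Lb) (hD : D.Ok) (hb : b.Ok D κ) (he : TN D.N e)
    (hB : TN D.N Bt) (hh : TN D.N h) :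
    DN D.N (fun u => b.Obs (Bt u) ∧ ∀ G, D.Gn (b.u (Bt u)) G → ∀ X, RR D (b.u (Bt u)) G X →
      (∃ y, Ent (h u) G X y (e u).rank) → ¬ b.Pt (Bt u) G X) := by
  have hr := TN.bu hD hb hB
  have hr' := hr.rn (fun i => i + 1)
  refine Dc.dnO hL hD hb hB (DN.obs hL hD hb hB) ?_ fun u h => h.o
  refine Dc.allR' (Z := fun u G X => (∃ y, Ent (h u) G X y (e u).rank) → ¬ b.Pt (Bt u) G X)
    hL hD hr hr (fun hX => ?_) fun u _ h6 _ => ⟨h6.2, fun _ h => h⟩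
  exact Dc.imp hL hD hr' (Dc.entE hL hD hr' (hh.rn (fun i => i + 1)) hX (he.rn (fun i => i + 1)))
    (Dc.not hL hD hr' (Dc.pt hL hD hb hr' (hB.rn (fun i => i + 1)) hX))

theorem DN.w3b (hL : Lb) (hD : D.Ok) (hb : b.Ok D κ) (he : TN D.N e) (hf : TN D.N f)
    (hB : TN D.N Bt) (hh : TN D.N h) :
    DN D.N (fun u => (b.Obs (Bt u) ∧ f u ∈ b.u (Bt u) ∧ b.Co (f u)) ∧
      ∀ G, D.Gn (b.u (Bt u)) G → ∀ X, RR D (b.u (Bt u)) G X → ∀ y, RR D (b.u (Bt u)) G y →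
        Ent (h u) G X y (e u).rank → ¬ Sn D G X y (f u)) := by
  have hN := hD.zfm
  have hr := TN.bu hD hb hB
  have hr' := hr.rn (fun i => i + 1)
  have hr2 := hr.rn (fun i => i + 2)
  refine Dc.dnO hL hD hb hB ((DN.obs hL hD hb hB).and hN ((DN.mem hN hf hr).and hN
    (DN.co hL hD b hf))) ?_ fun u h => h.1.o
  refine Dc.allR' (Z := fun u G X => ∀ y, RR D (b.u (Bt u)) G y → Ent (h u) G X y (e u).rank →
    ¬ Sn D G X y (f u)) hL hD hr hr (fun hX => ?_) fun u _ h6 _ => ⟨h6.2, fun _ h => h⟩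
  refine Dc.allR' hL hD hr' hr' (fun hy => ?_) fun u _ h6 _ => ⟨h6.2, fun _ h => h⟩
  have hX' := hX.rn (fun i => i + 1)
  exact Dc.imp hL hD hr2 (Dc.entO hL hD hr2 (hh.rn (fun i => i + 2)) hX' hy
    (he.rn (fun i => i + 2))) (Dc.not hL hD hr2 (Dc.sn hL hD hr2 (hf.rn (fun i => i + 2)) hX' hy
      fun u _ _ h5 => obs_vw hb h5.1 h5.2.1 h5.2.2))

/-! ### all conditions -/

theorem DN.iw (hL : Lb) (hD : D.Ok) (hb : b.Ok D κ) (ht : TN D.N t) (he : TN D.N e)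
    (hB : TN D.N Bt) (hh : TN D.N h) :
    DN D.N (fun u => b.Iw D (Ft b (t u)) (e u).rank (Bt u) (h u)) := by
  have hN := hD.zfm
  have v0 := TN.var (N := D.N) hN 0
  have v1 := TN.var (N := D.N) hN 1
  have d1 := DN.wo hL hD hb he hB hh
  -- (w0)
  have d2 : DN D.N (fun u => ∀ j ∈ b.u (Bt u), b.Co j → ∃ A, D.N A ∧ b.u A = vw j ∧
      (b.Le A (Bt u) ∧ Loc D (b.u (Bt u)) (h u) (b.u A)
        (b.sj D (Ft b (t u)) (e u).rank (tm j)).toZFSet.rank)) := by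
    refine DN.ball (S := fun w => b.Co (w 0) → ∃ A, D.N A ∧ b.u A = vw (w 0) ∧
      (b.Le A (Bt fun i => w (i + 1)) ∧ Loc D (b.u (Bt fun i => w (i + 1)))
        (h fun i => w (i + 1)) (b.u A) (b.sj D (Ft b (t fun i => w (i + 1)))
          (e fun i => w (i + 1)).rank (tm (w 0))).toZFSet.rank)) hN (TN.bu hD hb hB) ?_
    refine (DN.co hL hD b v0).imp hN (DN.ex (S := fun w => b.u (w 0) = vw (w 1) ∧
      (b.Le (w 0) (Bt fun i => w (i + 2)) ∧ Loc D (b.u (Bt fun i => w (i + 2)))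
        (h fun i => w (i + 2)) (b.u (w 0)) (b.sj D (Ft b (t fun i => w (i + 2)))
          (e fun i => w (i + 2)).rank (tm (w 1))).toZFSet.rank)) ?_)
    exact (DN.eq hN (TN.bu hD hb v0) (TN.vw hL hD v1)).and hN (DN.loc hL hD hb
      (TN.sjx hL hD hb (ht.rn (fun i => i + 2)) (he.rn (fun i => i + 2)) (TN.tm hL hD v1))
        (hB.rn (fun i => i + 2)) v0 (hh.rn (fun i => i + 2)))
  have d3 := DN.w1 hL hD hb hB hh
  -- (w2), (w2')
  have d4 : DN D.N (fun u => ∀ x ∈ rkS (e u), ¬ b.Ls D (Ft b (t u)) x.rank →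
      (Bt u ∈ b.Ob ∧ ∀ G, D.Gn (b.u (Bt u)) G → ∀ X, RR D (b.u (Bt u)) G X →
      ((∃ y, Ent (h u) G X y x.rank) ↔ ¬ Dcc (hr (h u) x.rank) G X ∧
        b.Rg D (Ft b (t u)) x.rank (Bt u) (hr (h u) x.rank) G X))) :=
    DN.ball hN (TN.rkS hN he) ((DN.ls hL hD hb (ht.rn (fun i => i + 1)) v0).not.imp hN
      (DN.w2 hL hD hb (ht.rn (fun i => i + 1)) v0 (hB.rn (fun i => i + 1))
        (hh.rn (fun i => i + 1))))
  have d5 : DN D.N (fun u => ∀ x ∈ rkS (e u),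
      (Bt u ∈ b.Ob ∧ ∀ G, D.Gn (b.u (Bt u)) G → ∀ X, RR D (b.u (Bt u)) G X →
      ∀ y, RR D (b.u (Bt u)) G y → Ent (h u) G X y x.rank →
        ¬ b.Kb D (Ft b (t u)) x.rank (Bt u) (hr (h u) x.rank) G X y)) :=
    DN.ball hN (TN.rkS hN he) (DN.w2' hL hD hb (ht.rn (fun i => i + 1)) v0
      (hB.rn (fun i => i + 1)) (hh.rn (fun i => i + 1)))
  -- (w3)
  have d6 : DN D.N (fun u => ∀ x ∈ rkS (e u), b.Ls D (Ft b (t u)) x.rank →
      (b.Obs (Bt u) ∧ ∀ G, D.Gn (b.u (Bt u)) G → ∀ X, RR D (b.u (Bt u)) G X →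
      (∃ y, Ent (h u) G X y x.rank) → ¬ b.Pt (Bt u) G X)) :=
    DN.ball hN (TN.rkS hN he) ((DN.ls hL hD hb (ht.rn (fun i => i + 1)) v0).imp hN
      (DN.w3a hL hD hb v0 (hB.rn (fun i => i + 1)) (hh.rn (fun i => i + 1))))
  have d7 : DN D.N (fun u => ∀ x ∈ rkS (e u), b.Ls D (Ft b (t u)) x.rank →
      ∀ j ∈ b.u (Bt u), b.Co j → tm j ∈ insert (b.cn D (Ft b (t u)) x.rank).toZFSet
        (b.cn D (Ft b (t u)) x.rank).toZFSet →
      ((b.Obs (Bt u) ∧ j ∈ b.u (Bt u) ∧ b.Co j) ∧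
      ∀ G, D.Gn (b.u (Bt u)) G → ∀ X, RR D (b.u (Bt u)) G X → ∀ y, RR D (b.u (Bt u)) G y →
        Ent (h u) G X y x.rank → ¬ Sn D G X y j)) := by
    refine DN.ball (S := fun w => b.Ls D (Ft b (t fun i => w (i + 1))) (w 0).rank →
      ∀ j ∈ b.u (Bt fun i => w (i + 1)), b.Co j → tm j ∈ insert (b.cn D (Ft b
        (t fun i => w (i + 1))) (w 0).rank).toZFSet
        (b.cn D (Ft b (t fun i => w (i + 1))) (w 0).rank).toZFSet →
      ((b.Obs (Bt fun i => w (i + 1)) ∧ j ∈ b.u (Bt fun i => w (i + 1)) ∧ b.Co j) ∧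
      ∀ G, D.Gn (b.u (Bt fun i => w (i + 1))) G → ∀ X, RR D (b.u (Bt fun i => w (i + 1))) G X →
        ∀ y, RR D (b.u (Bt fun i => w (i + 1))) G y →
        Ent (h fun i => w (i + 1)) G X y (w 0).rank → ¬ Sn D G X y j)) hN (TN.rkS hN he) ?_
    refine (DN.ls hL hD hb (ht.rn (fun i => i + 1)) v0).imp hN ?_
    refine DN.ball (F := fun w => b.u (Bt fun i => w (i + 1))) (S := fun w => b.Co (w 0) →
      tm (w 0) ∈ insert (b.cn D (Ft b (t fun i => w (i + 2))) (w 1).rank).toZFSet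
        (b.cn D (Ft b (t fun i => w (i + 2))) (w 1).rank).toZFSet →
      ((b.Obs (Bt fun i => w (i + 2)) ∧ w 0 ∈ b.u (Bt fun i => w (i + 2)) ∧ b.Co (w 0)) ∧
      ∀ G, D.Gn (b.u (Bt fun i => w (i + 2))) G → ∀ X, RR D (b.u (Bt fun i => w (i + 2))) G X →
        ∀ y, RR D (b.u (Bt fun i => w (i + 2))) G y →
        Ent (h fun i => w (i + 2)) G X y (w 1).rank → ¬ Sn D G X y (w 0))) hN (TN.bu hD hb
      (hB.rn (fun i => i + 1))) ?_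
    refine (DN.co hL hD b v0).imp hN ((DN.mem hN (TN.tm hL hD v0) ?_).imp hN
      (DN.w3b hL hD hb v1 v0 (hB.rn (fun i => i + 2)) (hh.rn (fun i => i + 2))))
    have h1 := TN.cnx hL hD hb (ht.rn (fun i => i + 2)) v1
    exact TN.ins hN h1 h1
  refine (d1.and hN (d2.and hN (d3.and hN (d4.and hN (d5.and hN (d6.and hN d7)))))).congr
    fun u hu => ?_
  constructor
  · rintro ⟨w, w0, w1, w2, w2', w3, w4⟩
    have hs := w.hs
    refine ⟨w, fun j hj hc => ?_, w1.2, fun x hx hl => ?_, fun x hx G hG X y hE => ?_,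
      fun x hx hl G hG X y hE => ⟨?_, fun j hj hc ht => ?_⟩⟩
    · obtain ⟨A, _, h1, h2, h3⟩ := w0 j hj hc
      rw [Ordinal.rank_toZFSet, h1] at h3
      exact h3
    · have h1 := w2 x.toZFSet (toZFSet_mem.2 hx)
      rw [Ordinal.rank_toZFSet] at h1
      exact (h1 hl).2
    · have h1 := w2' x.toZFSet (toZFSet_mem.2 hx)
      rw [Ordinal.rank_toZFSet] at h1
      obtain ⟨c1, c2, _⟩ := fcO hL hD hb w.o.o hG
      obtain ⟨a1, a2, _⟩ := ent_rr hL hD c1 c2 hG hs hE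
      exact h1.2 G hG X a1 y a2 hE
    · have h1 := w3 x.toZFSet (toZFSet_mem.2 hx)
      rw [Ordinal.rank_toZFSet] at h1
      obtain ⟨c1, c2, _⟩ := fcO hL hD hb w.o.o hG
      obtain ⟨a1, a2, _⟩ := ent_rr hL hD c1 c2 hG hs hE
      exact (h1 hl).2 G hG X a1 ⟨y, hE⟩
    · have h1 := w4 x.toZFSet (toZFSet_mem.2 hx)
      rw [Ordinal.rank_toZFSet] at h1
      obtain ⟨c1, c2, _⟩ := fcO hL hD hb w.o.o hG
      obtain ⟨a1, a2, _⟩ := ent_rr hL hD c1 c2 hG hs hE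
      refine (h1 hl j hj hc ?_).2 G hG X a1 y a2 hE
      rw [← Ordinal.toZFSet_succ]
      exact ht
  · intro w
    have ho := w.wo.o
    refine ⟨w.wo, fun j hj hc => ?_, ⟨ho, w.w1⟩, fun x hx hl => ?_, fun x hx => ?_,
      fun x hx hl => ?_, fun x hx hl j hj hc ht => ?_⟩
    · obtain ⟨_, ⟨A, h1, h2⟩, _⟩ := ho.v j hj hc
      refine ⟨A, hN.trans _ hb.nO _ (hb.leO _ _ h1).1, h2, h1, ?_⟩
      rw [Ordinal.rank_toZFSet, h2]
      exact w.w0 j hj hc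
    · obtain ⟨α, hα, rfl⟩ := Ordinal.mem_toZFSet_iff.1 hx
      rw [Ordinal.rank_toZFSet] at hl ⊢
      exact ⟨ho.o, w.w2 α hα hl⟩
    · obtain ⟨α, hα, rfl⟩ := Ordinal.mem_toZFSet_iff.1 hx
      rw [Ordinal.rank_toZFSet]
      exact ⟨ho.o, fun G hG X _ y _ hE => w.w2' α hα G hG X y hE⟩
    · obtain ⟨α, hα, rfl⟩ := Ordinal.mem_toZFSet_iff.1 hx
      rw [Ordinal.rank_toZFSet] at hl ⊢
      refine ⟨ho, fun G hG X _ hE => ?_⟩
      obtain ⟨y, hE⟩ := hE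
      exact (w.w3 α hα hl G hG X y hE).1
    · obtain ⟨α, hα, rfl⟩ := Ordinal.mem_toZFSet_iff.1 hx
      rw [Ordinal.rank_toZFSet] at hl ht ⊢
      rw [← Ordinal.toZFSet_succ] at ht
      exact ⟨⟨ho, hj, hc⟩, fun G hG X _ y _ hE => (w.w3 α hα hl G hG X y hE).2 j hj hc ht⟩

end UZ

end SE
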