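import Pool.Agent.H41.UZ.UH

/-!
# The table of the worlds: a definable function of the ground model
-/

set_option linter.unusedVariables false

open Ordinal Order Set
open scoped ZFSet

namespace SE

open SF

namespace UZ

open _root_.UZ

variable {D : Cx} {C C' : (ℕ → V) → Prop} {r s f g h t e f1 f2 f3 f4 Bt Ct : (ℕ → V) → V}
  {X Y : (ℕ → V) → V → Prop} {S : (ℕ → V) → Prop} {A B E A1 A2 A3 A4 A5 A6 : (ℕ → V) → V → V}
  {b : BS} {κ : V}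

/-! ### the sets of the names and of the possible elements of histories -/

theorem exists_nmS (hA : Amb D κ) (ρ : V) : ∃ S, D.N S ∧ ∀ Y, Y ∈ S ↔
    (ρ ∈ D.H ∧ Cld D.L ρ) ∧ D.N Y ∧ Nam D.L ρ Y := by
  by_cases h : ρ ∈ D.H ∧ Cld D.L ρ
  · obtain ⟨S, hS, h1⟩ := hA.nam ρ h.1 h.2
    exact ⟨S, hA.ok.nH hS, fun Y => (h1 Y).trans ⟨fun h2 => ⟨h, h2⟩, fun h2 => h2.2⟩⟩
  · refine ⟨∅, TN.mem hA.ok.zfm (TN.empty hA.ok.zfm) (u := fun _ => D.H) fun _ => hA.ok.hN,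
      fun Y => ?_⟩
    exact ⟨fun h2 => absurd h2 (ZFSet.notMem_empty _), fun h2 => absurd h2.1 h⟩

/-- the set of the names over `ρ` -/
noncomputable def nmS (D : Cx) (ρ : V) : V :=
  open Classical in if h : ∃ κ, Amb D κ then (exists_nmS h.choose_spec ρ).choose else ∅

theorem nmS_spec (hA : Amb D κ) (ρ : V) : D.N (nmS D ρ) ∧ ∀ Y, Y ∈ nmS D ρ ↔
    (ρ ∈ D.H ∧ Cld D.L ρ) ∧ D.N Y ∧ Nam D.L ρ Y := by
  unfold nmS
  rw [dif_pos ⟨κ, hA⟩]
  exact Exists.choose_spec (exists_nmS (Exists.choose_spec (⟨κ, hA⟩ : ∃ κ, Amb D κ)) ρ)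

theorem TN.nmS (hL : Lb) (hA : Amb D κ) (hr : TN D.N r) : TN D.N (fun u => nmS D (r u)) := by
  have hD := hA.ok
  have hN := hD.zfm
  refine TN.of_mem hN (fun u _ => (nmS_spec hA _).1) ?_
  have hr' := hr.rn (fun i => i + 1)
  refine ((dnCr hL hD hr').and hN (dnNam hL hD hr' (TN.var hN 0))).congr fun u hu => ?_
  show _ ↔ u 0 ∈ UZ.nmS D (r fun i => u (i + 1))
  rw [(nmS_spec hA _).2]
  exact and_congr_right fun _ => ⟨fun h => ⟨hu 0, h⟩, fun h => h.2⟩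

/-- the set of the possible elements of histories over `ρ` with stages in `z` -/
noncomputable def bgS (D : Cx) (ρ z : V) : V :=
  ZFSet.prod (Pos D.L ρ) (ZFSet.prod (nmS D ρ) (ZFSet.prod (nmS D ρ) z))

theorem TN.bgS (hL : Lb) (hA : Amb D κ) (hr : TN D.N r) (hf : TN D.N f) :
    TN D.N (fun u => bgS D (r u) (f u)) := by
  have hN := hA.ok.zfm
  have h1 := TN.nmS hL hA hr
  exact TN.prod hN (tnP hL hA.ok hr) (TN.prod hN h1 (TN.prod hN h1 hf))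

theorem his_iff (hL : Lb) (hA : Amb D κ) {ρ h : V} {σ : Ordinal.{0}} (hρ : ρ ∈ D.H)
    (hc : Cld D.L ρ) : His D ρ h σ ↔ D.N h ∧ h ⊆ bgS D ρ σ.toZFSet := by
  unfold bgS
  constructor
  · intro h1
    refine ⟨h1.n, fun z hz => ?_⟩
    obtain ⟨q, hq, X, Y, e, he, hX, hY, rfl⟩ := h1.m z hz
    unfold ht
    simp only [ZFSet.pair_mem_prod, (nmS_spec hA ρ).2]
    exact ⟨hq, ⟨⟨hρ, hc⟩, hX⟩, ⟨⟨hρ, hc⟩, hY⟩, toZFSet_mem.2 he⟩
  · rintro ⟨h1, h2⟩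
    refine ⟨h1, fun z hz => ?_⟩
    have h3 := h2 hz
    simp only [ZFSet.mem_prod, (nmS_spec hA ρ).2] at h3
    obtain ⟨q, hq, _, ⟨X, hX, _, ⟨Y, hY, e, he, rfl⟩, rfl⟩, rfl⟩ := h3
    obtain ⟨α, hα, rfl⟩ := Ordinal.mem_toZFSet_iff.1 he
    exact ⟨q, hq, X, Y, α, hα, hX.2, hY.2, rfl⟩

/-! ### the table -/

/-- the set of the possible worlds with stages in `z` -/
noncomputable def wA (b : BS) (D : Cx) (z : V) : V :=
  ZFSet.prod b.Ob (pwN D.N (⋃₀ (imS b.Ob fun B => bgS D (b.u B) z)))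

theorem TN.wA (hL : Lb) (hA : Amb D κ) (hb : b.Ok D κ) (hf : TN D.N f) :
    TN D.N (fun u => wA b D (f u)) := by
  have hN := hA.ok.zfm
  refine TN.prod hN (TN.cst hb.nO) (TN.pw hA.ok.zfc ?_)
  exact TN.iUn (F := fun _ => b.Ob) (G := fun w => UZ.bgS D (b.u (w 0)) (f fun i => w (i + 1))) hN
    (TN.cst hb.nO) (TN.bgS hL hA (TN.bu hA.ok hb (TN.var hN 0)) (hf.rn (fun i => i + 1)))

theorem mem_wA (hL : Lb) (hA : Amb D κ) (hb : b.Ok D κ) {B h : V} {σ : Ordinal.{0}}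
    (hB : B ∈ b.Ob) (hh : His D (b.u B) h σ) : ZFSet.pair B h ∈ wA b D σ.toZFSet := by
  unfold wA
  rw [ZFSet.pair_mem_prod]
  have hc := cs_cr (hb.cs _ hB)
  have h1 := (his_iff hL hA hc.1 hc.2).1 hh
  refine ⟨hB, mem_pwN.2 ⟨fun z hz => ?_, h1.1⟩⟩
  exact ZFSet.mem_sUnion.2 ⟨_, mem_imS.2 ⟨B, hB, rfl⟩, h1.2 hz⟩

/-- the set of the worlds of the stage `x.rank` -/
noncomputable def wT (b : BS) (D : Cx) (x : V) : V :=
  (wA b D (rkS x)).sep fun z => b.Wd D x.rank (fst z) (snd z)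

theorem wd_iw (σ : Ordinal.{0}) : b.Wd D σ =
    b.Iw D (fun e B h => ∃ _ : e < σ, b.Wd D e B h) σ := by
  rw [BS.Wd]

theorem wd_wo {σ : Ordinal.{0}} {B h : V} (hw : b.Wd D σ B h) : b.Wo D σ B h := by
  rw [wd_iw] at hw
  exact hw.wo

theorem mem_wT (hL : Lb) (hA : Amb D κ) (hb : b.Ok D κ) {x z : V} :
    z ∈ wT b D x ↔ ∃ B h, z = ZFSet.pair B h ∧ b.Wd D x.rank B h := by
  unfold wT
  rw [ZFSet.mem_sep]
  constructor
  · rintro ⟨h1, h2⟩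
    unfold wA at h1
    obtain ⟨B, hB, h, hh, rfl⟩ := ZFSet.mem_prod.1 h1
    rw [fst_pair, snd_pair] at h2
    exact ⟨B, h, rfl, h2⟩
  · rintro ⟨B, h, rfl, h2⟩
    have h3 := wd_wo h2
    rw [fst_pair, snd_pair]
    exact ⟨mem_wA hL hA hb h3.o.o h3.hs, h2⟩

theorem pair_mem_wT (hL : Lb) (hA : Amb D κ) (hb : b.Ok D κ) {x B h : V} :
    ZFSet.pair B h ∈ wT b D x ↔ b.Wd D x.rank B h := by
  rw [mem_wT hL hA hb]
  constructor
  · rintro ⟨B', h', h1, h2⟩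
    obtain ⟨rfl, rfl⟩ := ZFSet.pair_injective h1
    exact h2
  · intro h2
    exact ⟨B, h, rfl, h2⟩

/-- the family which is given by the table below `σ` -/
theorem ft_wT (hL : Lb) (hA : Amb D κ) (hb : b.Ok D κ) (σ : Ordinal.{0}) :
    Ft b (resS σ.toZFSet (wT b D)) = fun e B h => ∃ _ : e < σ, b.Wd D e B h := by
  funext e B h
  refine propext ⟨?_, ?_⟩
  · rintro ⟨hB, h1⟩
    by_cases h2 : e < σ
    · rw [app_resS (toZFSet_mem.2 h2), pair_mem_wT hL hA hb, Ordinal.rank_toZFSet] at h1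
      exact ⟨h2, h1⟩
    · exfalso
      rw [app_ne (fun y hy => ?_)] at h1
      · exact ZFSet.notMem_empty _ h1
      · obtain ⟨x, hx, h3⟩ := mem_resS.1 hy
        obtain ⟨h4, _⟩ := ZFSet.pair_injective h3
        rw [h4] at hx
        exact h2 (toZFSet_mem.1 hx)
  · rintro ⟨h2, h1⟩
    refine ⟨(wd_wo h1).o.o, ?_⟩
    rw [app_resS (toZFSet_mem.2 h2), pair_mem_wT hL hA hb, Ordinal.rank_toZFSet]
    exact h1

theorem TN.wT0 (hL : Lb) (hA : Amb D κ) (hb : b.Ok D κ) : TN D.N (fun u => wT b D (u 0)) := by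
  have hD := hA.ok
  have hN := hD.zfm
  refine TN.recu (E := fun u => rkS (u 0)) (G := fun w => (UZ.wA b D (rkS (w 1))).sep fun z =>
    b.Iw D (Ft b (w 0)) (w 1).rank (fst z) (snd z)) hN (TN.rkS hN (TN.var hN 0)) ?_ ?_ ?_
  · refine TN.sep (S := fun w => b.Iw D (Ft b (w 1)) (w 2).rank (fst (w 0)) (snd (w 0))) hN ?_
      (TN.wA hL hA hb (TN.rkS hN (TN.var hN 1)))
    exact DN.iw hL hD hb (TN.var hN 1) (TN.var hN 2) (TN.fst hN (TN.var hN 0))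
      (TN.snd hN (TN.var hN 0))
  · intro u hu y hy
    obtain ⟨α, hα, rfl⟩ := Ordinal.mem_toZFSet_iff.1 hy
    rw [Ordinal.rank_toZFSet]
    exact hα
  · intro u hu
    show UZ.wT b D (u 0) = (UZ.wA b D (rkS (u 0))).sep fun z => b.Iw D (Ft b (resS
      (u 0).rank.toZFSet (UZ.wT b D))) (u 0).rank (fst z) (snd z)
    rw [ft_wT hL hA hb, ← wd_iw]
    rfl

theorem TN.wT (hL : Lb) (hA : Amb D κ) (hb : b.Ok D κ) (hf : TN D.N f) :
    TN D.N (fun u => wT b D (f u)) :=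
  TN.at1 (P := fun x => UZ.wT b D x) hA.ok.zfm (TN.wT0 hL hA hb) hf

/-- the table of the worlds of the stages in `rkS x` -/
noncomputable def wR (b : BS) (D : Cx) (x : V) : V := resS (rkS x) (wT b D)

theorem TN.wR (hL : Lb) (hA : Amb D κ) (hb : b.Ok D κ) (hf : TN D.N f) :
    TN D.N (fun u => wR b D (f u)) :=
  TN.resS (F := fun u => rkS (f u)) (G := fun w => UZ.wT b D (w 0)) hA.ok.zfm
    (TN.rkS hA.ok.zfm hf) (TN.wT0 hL hA hb)

/-- worlds are definable -/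
theorem DN.wd (hL : Lb) (hA : Amb D κ) (hb : b.Ok D κ) (he : TN D.N e) (hB : TN D.N Bt)
    (hh : TN D.N h) : DN D.N (fun u => b.Wd D (e u).rank (Bt u) (h u)) :=
  (DN.mem hA.ok.zfm (TN.pair hA.ok.zfm hB hh) (TN.wT hL hA hb he)).congr
    fun u _ => pair_mem_wT hL hA hb

end UZ

end SE
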