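import Pool.Agent.H41.UZ.UI
import Pool.Agent.H41.UZ.TarI
import Pool.Agent.H5.UZ.TarR

/-!
# The types and the L-stages for the class of all worlds; the targets ID, IW, IWd
-/

set_option linter.unusedVariables false

open Ordinal Order Set
open scoped ZFSet

namespace SE

open SF

namespace UZ

open _root_.UZ

variable {D : Cx} {C C' : (ℕ → V) → Prop} {r s f g h t e f1 f2 f3 f4 Bt Ct : (ℕ → V) → V}
  {X Y : (ℕ → V) → V → Prop} {S : (ℕ → V) → Prop} {A B E A1 A2 A3 A4 A5 A6 : (ℕ → V) → V → V}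
  {b : BS} {κ : V} {F F' : Fam}

/-! ### the notions depend on the family at the stage -/

theorem ew_cgF {σ : Ordinal.{0}} (h : F σ = F' σ) {B h1 G B' h' G' : V} :
    b.Ew D F σ B h1 G B' h' G' ↔ b.Ew D F' σ B h1 G B' h' G' :=
  ⟨fun h2 => ⟨h ▸ h2.w, h2.le, h2.g, h2.r⟩, fun h2 => ⟨h.symm ▸ h2.w, h2.le, h2.g, h2.r⟩⟩

theorem kb_cgF {σ : Ordinal.{0}} (h : F σ = F' σ) {B h1 G X Y : V} :
    b.Kb D F σ B h1 G X Y ↔ b.Kb D F' σ B h1 G X Y :=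
  exists_congr fun _ => exists_congr fun _ => exists_congr fun _ =>
    and_congr_left fun _ => ew_cgF h

theorem nn_cgF {σ : Ordinal.{0}} (h : F σ = F' σ) {B h1 G X : V} :
    b.Nn D F σ B h1 G X ↔ b.Nn D F' σ B h1 G X :=
  exists_congr fun _ => exists_congr fun _ => exists_congr fun _ => exists_congr fun _ =>
    and_congr (ew_cgF h) (and_congr_right fun _ => and_congr_right fun _ => not_congr (kb_cgF h))

theorem rg_cgF {σ : Ordinal.{0}} (h : F σ = F' σ) {B h1 G X : V} :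
    b.Rg D F σ B h1 G X ↔ b.Rg D F' σ B h1 G X :=
  and_congr (not_congr (nn_cgF h)) (exists_congr fun _ => and_congr_right fun _ =>
    not_congr (kb_cgF h))

theorem ls_cgF {σ : Ordinal.{0}} (h : F σ = F' σ) : b.Ls D F σ ↔ b.Ls D F' σ := by
  unfold BS.Ls
  rw [h]
  exact forall_congr' fun _ => forall_congr' fun _ => imp_congr_right fun _ =>
    forall_congr' fun _ => imp_congr_right fun _ => forall_congr' fun _ => imp_congr_right fun _ =>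
      imp_congr_right fun _ => not_congr (rg_cgF h)

theorem cn_cgF : ∀ {σ : Ordinal.{0}}, (∀ e < σ, F e = F' e) → b.cn D F σ = b.cn D F' σ := by
  intro σ
  induction σ using WellFoundedLT.induction with
  | _ σ ih =>
    intro h
    refine Ordinal.toZFSet_injective ?_
    ext z
    rw [mem_toZFSet_cn, mem_toZFSet_cn]
    refine exists_congr fun d => and_congr_right fun hd => ?_
    rw [ls_cgF (h d hd), ih d hd fun e he => h e (he.trans hd)]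

theorem sj_cgF {σ : Ordinal.{0}} (τ : V) (h : ∀ e < σ, F e = F' e) :
    b.sj D F σ τ = b.sj D F' σ τ := by
  refine Ordinal.toZFSet_injective ?_
  rw [sj_eq, sj_eq]
  congr 1
  funext x
  refine propext (forall_congr' fun e => imp_congr_right fun he => ?_)
  obtain ⟨α, hα, rfl⟩ := Ordinal.mem_toZFSet_iff.1 he
  rw [Ordinal.rank_toZFSet, ls_cgF (h α hα), cn_cgF fun e he => h e (he.trans hα)]

/-! ### the table up to a stage -/

/-- the table of the worlds of the stages `≤ x.rank` -/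
noncomputable def wP (b : BS) (D : Cx) (x : V) : V := wR b D (insert (rkS x) (rkS x))

theorem rkS_ins (x : V) : rkS (insert (rkS x) (rkS x)) = (succ x.rank).toZFSet := by
  have h1 : insert (rkS x) (rkS x) = (succ x.rank).toZFSet := (Ordinal.toZFSet_succ _).symm
  rw [h1]
  unfold SF.rkS
  rw [Ordinal.rank_toZFSet]

theorem TN.wP (hL : Lb) (hA : Amb D κ) (hb : b.Ok D κ) (hf : TN D.N f) :
    TN D.N (fun u => wP b D (f u)) := by
  have h1 := TN.rkS hA.ok.zfm hf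
  exact TN.wR hL hA hb (TN.ins hA.ok.zfm h1 h1)

theorem ftP (hL : Lb) (hA : Amb D κ) (hb : b.Ok D κ) {x : V} {σ : Ordinal.{0}}
    (h : σ ≤ x.rank) : Ft b (wP b D x) σ = b.Wd D σ := by
  unfold wP wR
  rw [rkS_ins, ft_wT hL hA hb]
  funext B h'
  exact propext ⟨fun ⟨_, h1⟩ => h1, fun h1 => ⟨lt_of_le_of_lt h (lt_succ _), h1⟩⟩

theorem ftR (hL : Lb) (hA : Amb D κ) (hb : b.Ok D κ) {x : V} {σ : Ordinal.{0}}
    (h : σ < x.rank) : Ft b (wR b D x) σ = b.Wd D σ := by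
  unfold wR
  rw [show rkS x = x.rank.toZFSet from rfl, ft_wT hL hA hb]
  funext B h'
  exact propext ⟨fun ⟨_, h1⟩ => h1, fun h1 => ⟨h, h1⟩⟩

/-! ### definability for the class of all worlds -/

theorem DN.lsW (hL : Lb) (hA : Amb D κ) (hb : b.Ok D κ) (he : TN D.N e) :
    DN D.N (fun u => b.Ls D (b.Wd D) (e u).rank) :=
  (DN.ls hL hA.ok hb (TN.wP hL hA hb he) he).congr fun u _ =>
    ls_cgF (ftP hL hA hb le_rfl)

theorem TN.cnW (hL : Lb) (hA : Amb D κ) (hb : b.Ok D κ) (he : TN D.N e) :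
    TN D.N (fun u => (b.cn D (b.Wd D) (e u).rank).toZFSet) :=
  (TN.cnx hL hA.ok hb (TN.wR hL hA hb he) he).congr fun u _ => by
    rw [cn_cgF fun e he => ftR hL hA hb he]

theorem TN.sjW (hL : Lb) (hA : Amb D κ) (hb : b.Ok D κ) (he : TN D.N e) (hf : TN D.N f) :
    TN D.N (fun u => (b.sj D (b.Wd D) (e u).rank (f u)).toZFSet) :=
  (TN.sjx hL hA.ok hb (TN.wR hL hA hb he) he hf).congr fun u _ => by
    rw [sj_cgF _ fun e he => ftR hL hA hb he]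

theorem Dc.kbW (hL : Lb) (hA : Amb D κ) (hb : b.Ok D κ) (he : TN D.N e)
    (hB : TN D.N Bt) (hh : TN D.N h) (h1 : Et D A1) (h2 : Et D A2) :
    Dc D C (fun u => b.u (Bt u)) (fun u G => b.Kb D (b.Wd D) (e u).rank (Bt u) (h u) G
      (A1 u G) (A2 u G)) :=
  (Dc.kb hL hA.ok hb (TN.wP hL hA hb he) he hB hh h1 h2).cg fun u _ _ _ G _ =>
    kb_cgF (ftP hL hA hb le_rfl)

theorem Dc.nnW (hL : Lb) (hA : Amb D κ) (hb : b.Ok D κ) (he : TN D.N e)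
    (hB : TN D.N Bt) (hh : TN D.N h) (h1 : Et D A1) :
    Dc D C (fun u => b.u (Bt u)) (fun u G => b.Nn D (b.Wd D) (e u).rank (Bt u) (h u) G
      (A1 u G)) :=
  (Dc.nn hL hA.ok hb (TN.wP hL hA hb he) he hB hh h1).cg fun u _ _ _ G _ =>
    nn_cgF (ftP hL hA hb le_rfl)

theorem Dc.rgW (hL : Lb) (hA : Amb D κ) (hb : b.Ok D κ) (he : TN D.N e)
    (hB : TN D.N Bt) (hh : TN D.N h) (h1 : Et D A1) :
    Dc D C (fun u => b.u (Bt u)) (fun u G => b.Rg D (b.Wd D) (e u).rank (Bt u) (h u) G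
      (A1 u G)) :=
  (Dc.rg hL hA.ok hb (TN.wP hL hA hb he) he hB hh h1).cg fun u _ _ _ G _ =>
    rg_cgF (ftP hL hA hb le_rfl)

/-- `e` is the L-stage with the number `ζ` -/
theorem DN.rhoW (hL : Lb) (hA : Amb D κ) (hb : b.Ok D κ) (hf : TN D.N f) (he : TN D.N e) :
    DN D.N (fun u => b.Ls D (b.Wd D) (e u).rank ∧
      (b.cn D (b.Wd D) (e u).rank).toZFSet = f u) :=
  (DN.lsW hL hA hb he).and hA.ok.zfm (DN.eq hA.ok.zfm (TN.cnW hL hA hb he) hf)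

/-! ### the targets -/

theorem sj_le (F : Fam) (σ : Ordinal.{0}) (τ : V) : b.sj D F σ τ ≤ σ := csInf_le' (Or.inl rfl)

theorem cn_le (F : Fam) : ∀ σ : Ordinal.{0}, b.cn D F σ ≤ σ := by
  intro σ
  induction σ using WellFoundedLT.induction with
  | _ σ ih =>
    refine le_of_not_gt fun h => ?_
    obtain ⟨d, hd, _, h1⟩ := (mem_toZFSet_cn F σ σ.toZFSet).1 (toZFSet_mem.2 h)
    have h2 := lt_succ_iff.1 (toZFSet_mem.1 h1)
    exact absurd (lt_of_le_of_lt (h2.trans (ih d hd)) hd) (lt_irrefl _)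

theorem pf_IWd (hL : Lb) : T_IWd := by
  intro D κ b hA hb
  have hN := hA.ok.zfm
  refine ((DN.isOrd hN (TN.var hN 0)).and hN (DN.lsW hL hA hb (TN.var hN 0))).congr
    fun u hu => ?_
  constructor
  · rintro ⟨⟨σ, h1⟩, h2⟩
    rw [h1, Ordinal.rank_toZFSet] at h2
    exact ⟨σ, h1, h2⟩
  · rintro ⟨σ, h1, h2⟩
    refine ⟨⟨σ, h1⟩, ?_⟩
    rw [h1, Ordinal.rank_toZFSet]
    exact h2

theorem pf_IW (hL : Lb) : T_IW := by
  intro D κ b hA hb θ hθ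
  have hN := hA.ok.zfm
  refine ⟨?_, ?_, fun τ => sj_le _ _ _, cn_le _ _⟩
  · have h1 : TN D.N (fun u => (⋃₀ (imS (u 0) fun σ => imS (wT b D σ) fun z =>
        ZFSet.pair σ z) : ZFSet)) := by
      refine TN.iUn (F := fun u => u 0) (G := fun w => imS (wT b D (w 0)) fun z =>
        ZFSet.pair (w 0) z) hN (TN.var hN 0) ?_
      exact TN.image (F := fun w => wT b D (w 0)) (G := fun w => ZFSet.pair (w 1) (w 0)) hN
        (TN.wT0 hL hA hb) (TN.pair hN (TN.var hN 1) (TN.var hN 0))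
    refine ⟨_, TN.mem hN h1 (u := fun _ => θ.toZFSet) fun _ => hθ, fun z => ?_⟩
    rw [ZFSet.mem_sUnion]
    constructor
    · rintro ⟨_, h2, h3⟩
      obtain ⟨σ', h4, rfl⟩ := mem_imS.1 h2
      obtain ⟨σ, h5, rfl⟩ := Ordinal.mem_toZFSet_iff.1 h4
      obtain ⟨z', h6, rfl⟩ := mem_imS.1 h3
      obtain ⟨B, h, rfl, h7⟩ := (mem_wT hL hA hb).1 h6
      rw [Ordinal.rank_toZFSet] at h7
      exact ⟨σ, h5, B, h, h7, rfl⟩
    · rintro ⟨σ, h5, B, h, h7, rfl⟩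
      refine ⟨_, mem_imS.2 ⟨σ.toZFSet, toZFSet_mem.2 h5, rfl⟩, mem_imS.2 ⟨ZFSet.pair B h, ?_, rfl⟩⟩
      rw [pair_mem_wT hL hA hb, Ordinal.rank_toZFSet]
      exact h7
  · refine ⟨_, (DN.lsW hL hA hb (TN.var hN 0)).sepN hN hθ (u := fun _ => θ.toZFSet) fun _ => hθ,
      fun z => ?_⟩
    rw [ZFSet.mem_sep]
    constructor
    · rintro ⟨h1, h2⟩
      obtain ⟨σ, h5, rfl⟩ := Ordinal.mem_toZFSet_iff.1 h1
      rw [cons_zero, Ordinal.rank_toZFSet] at h2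
      exact ⟨σ, h5, h2, rfl⟩
    · rintro ⟨σ, h5, h2, rfl⟩
      rw [cons_zero, Ordinal.rank_toZFSet]
      exact ⟨toZFSet_mem.2 h5, h2⟩

theorem dec_cgG {ρ : V} {Z Z' : V → Prop} (h : D.Dec ρ Z)
    (h2 : ∀ G, D.Gn ρ G → (Z G ↔ Z' G)) : D.Dec ρ Z' := by
  obtain ⟨E, hE, h1⟩ := h
  exact ⟨E, hE, fun G hG => (h2 G hG).symm.trans (h1 G hG)⟩

/-- the decided notions, with the parameters `σ, B, h, X, Y` given by an assignment -/
theorem id_all (hL : Lb) (hA : Amb D κ) (hb : b.Ok D κ) {u : ℕ → V} (hu : In D.N u)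
    (hB : u 1 ∈ b.Ob) :
    D.Dec (b.u (u 1)) (fun G => b.Kb D (b.Wd D) (u 0).rank (u 1) (u 2) G (ev G (u 3))
      (ev G (u 4))) ∧
    D.Dec (b.u (u 1)) (fun G => b.Nn D (b.Wd D) (u 0).rank (u 1) (u 2) G (ev G (u 3))) ∧
    D.Dec (b.u (u 1)) (fun G => b.Rg D (b.Wd D) (u 0).rank (u 1) (u 2) G (ev G (u 3))) ∧
    D.Dec (b.u (u 1)) (fun G => Dcc (u 2) G (ev G (u 3))) ∧
    D.Dec (b.u (u 1)) (fun G => Ent (u 2) G (ev G (u 3)) (ev G (u 4)) (u 0).rank) ∧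
    D.Dec (b.u (u 1)) (fun G => b.Kil D (u 1) G (ev G (u 3)) (ev G (u 4))) ∧
    D.Dec (b.u (u 1)) (fun G => b.Se (u 1) G (ev G (u 3)) (ev G (u 4))) ∧
    D.Dec (b.u (u 1)) (fun G => b.Ss D (u 1) G (ev G (u 3)) (ev G (u 4))) ∧
    D.Dec (b.u (u 1)) (fun G => b.Pt (u 1) G (ev G (u 3))) := by
  have hD := hA.ok
  have hN := hD.zfm
  have v0 := TN.var (N := D.N) hN 0
  have v1 := TN.var (N := D.N) hN 1
  have v2 := TN.var (N := D.N) hN 2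
  have hr := TN.bu hD hb v1
  have a1 : Et D (fun u G => ev G (u 3)) := Et.ev hL hD (Et.G hD) (Et.gr (TN.var hN 3))
  have a2 : Et D (fun u G => ev G (u 4)) := Et.ev hL hD (Et.G hD) (Et.gr (TN.var hN 4))
  have hc : Cr D (fun u => b.u (u 1)) u := cs_cr (hb.cs _ hB)
  have key : ∀ {Z : (ℕ → V) → V → Prop}, Dc D (fun _ => True) (fun u => b.u (u 1)) Z →
      D.Dec (b.u (u 1)) (Z u) := fun h1 => Dc.dec hL hD hr h1 hu hc trivial
  exact ⟨key (Dc.kbW hL hA hb v0 v1 v2 a1 a2), key (Dc.nnW hL hA hb v0 v1 v2 a1),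
    key (Dc.rgW hL hA hb v0 v1 v2 a1), key (Dc.dcc hL hD hr v2 a1),
    key (Dc.entO hL hD hr v2 a1 a2 v0), key (Dc.kil hL hD hb v1 a1 a2),
    key (Dc.se hL hD hb hr v1 a1 a2), key (Dc.ss hL hD hb v1 a1 a2),
    key (Dc.pt hL hD hb hr v1 a1)⟩

theorem id_entX (hL : Lb) (hA : Amb D κ) (hb : b.Ok D κ) {u : ℕ → V} (hu : In D.N u)
    (hB : u 1 ∈ b.Ob) :
    D.Dec (b.u (u 1)) (fun G => ∃ e, Ent (u 2) G (ev G (u 3)) (ev G (u 4)) e) := by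
  have hD := hA.ok
  have hN := hD.zfm
  have hr := TN.bu hD hb (TN.var (N := D.N) hN 1)
  have h3 : Dfb ZFm (fun M v => ∃ z, M z ∧ IsOrd z ∧ Entv (v 0) (v 1) (v 2) (v 3) z) :=
    Dfb.ex ((Dfb.isOrd (Tm.var 0)).and (Dfb.entv hL (Tm.var 1) (Tm.var 2) (Tm.var 3)
      (Tm.var 4) (Tm.var 0)))
  have h4 : Dc D (fun _ => True) (fun u => b.u (u 1)) (fun u G => ∃ z, D.W G z ∧ IsOrd z ∧
      Entv (u 2) G (ev G (u 3)) (ev G (u 4)) z) :=
    Dc.e4 (P := fun M a b c d => ∃ z, M z ∧ IsOrd z ∧ Entv a b c d z) hL hD hr h3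
      (Et.gr (TN.var hN 2)) (Et.G hD) (Et.ev hL hD (Et.G hD) (Et.gr (TN.var hN 3)))
        (Et.ev hL hD (Et.G hD) (Et.gr (TN.var hN 4)))
  refine dec_cgG (Dc.dec hL hD hr h4 hu (cs_cr (hb.cs _ hB)) trivial) fun G hG => ?_
  obtain ⟨_, _, c1, c2, c3⟩ := fcO hL hD hb hB hG
  constructor
  · rintro ⟨_, _, ⟨e, rfl⟩, h5⟩
    exact ⟨e, h5⟩
  · rintro ⟨e, h5⟩
    exact ⟨_, (entv_mem hL c1 (c2 _ (hu 2)) c3 h5).2.2, ⟨e, rfl⟩, h5⟩

theorem id_rr (hL : Lb) (hA : Amb D κ) (hb : b.Ok D κ) {u : ℕ → V} (hu : In D.N u)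
    (hB : u 1 ∈ b.Ob) {s : V} (hs : s ⊆ b.u (u 1)) (hcs : CS D s) :
    D.Dec (b.u (u 1)) (fun G => RR D s G (ev G (u 3))) := by
  have hD := hA.ok
  have hN := hD.zfm
  have hr := TN.bu hD hb (TN.var (N := D.N) hN 1)
  exact Dc.dec (C := fun u => s ⊆ b.u (u 1)) hL hD hr (Dc.rr hL hD hr
      (TN.cst (hD.nH hcs.h)) (Et.ev hL hD (Et.G hD) (Et.gr (TN.var hN 3)))
        fun u _ _ h5 => ⟨hcs.c, h5⟩) hu (cs_cr (hb.cs _ hB)) hs

theorem id_sn (hL : Lb) (hA : Amb D κ) (hb : b.Ok D κ) {u : ℕ → V} (hu : In D.N u)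
    (hB : u 1 ∈ b.Ob) :
    D.Dec (b.u (u 1)) (fun G => ∃ j ∈ b.u (u 1), b.Co j ∧ vw j ⊆ b.u (u 1) ∧ CS D (vw j) ∧
      Sn D G (ev G (u 3)) (ev G (u 4)) j) := by
  have hD := hA.ok
  have hN := hD.zfm
  have v0 := TN.var (N := D.N) hN 0
  have v2 := TN.var (N := D.N) hN 2
  have hr := TN.bu hD hb (TN.var (N := D.N) hN 1)
  have hr2 := TN.bu hD hb v2
  have h1 : Dc D (fun w => w 0 ∈ b.u (w 2) ∧ b.Co (w 0) ∧ vw (w 0) ⊆ b.u (w 2) ∧
      (vw (w 0) ∈ D.H ∧ Cld D.L (vw (w 0)))) (fun w => b.u (w 2))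
        (fun w G => Sn D G (ev G (w 4)) (ev G (w 5)) (w 0)) :=
    Dc.sn hL hD hr2 v0 (Et.ev hL hD (Et.G hD) (Et.gr (TN.var hN 4)))
      (Et.ev hL hD (Et.G hD) (Et.gr (TN.var hN 5))) fun w _ _ h5 => ⟨h5.2.2.2.2, h5.2.2.1⟩
  have h2 : DN D.N (fun w => w 0 ∈ b.u (w 2) ∧ b.Co (w 0) ∧ vw (w 0) ⊆ b.u (w 2) ∧
      (vw (w 0) ∈ D.H ∧ Cld D.L (vw (w 0)))) :=
    (DN.mem hN v0 hr2).and hN ((DN.co hL hD b v0).and hN
      ((DN.subset hN (TN.vw hL hD v0) hr2).and hN (dnCr hL hD (TN.vw hL hD v0))))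
  have h3 : Dc D (fun _ => True) (fun u => b.u (u 1)) (fun u G => ∃ j, D.N j ∧
      (j ∈ b.u (u 1) ∧ b.Co j ∧ vw j ⊆ b.u (u 1) ∧ (vw j ∈ D.H ∧ Cld D.L (vw j))) ∧
        Sn D G (ev G (u 3)) (ev G (u 4)) j) :=
    Dc.ex (C := fun _ => True) (r := fun u => b.u (u 1))
      (X := fun w G => Sn D G (ev G (w 4)) (ev G (w 5)) (w 0)) hL hD h2 h1 fun _ _ _ _ _ _ h => h
  have hc := cs_cr (hb.cs _ hB)
  refine dec_cgG (Dc.dec hL hD hr h3 hu hc trivial) fun G hG => ?_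
  constructor
  · rintro ⟨j, _, ⟨h3, h4, h5, h6⟩, h7⟩
    exact ⟨j, h3, h4, h5, ⟨h6.1, h6.2, fun i hi => (hb.cs _ hB).g i (h5 hi)⟩, h7⟩
  · rintro ⟨j, h3, h4, h5, h6, h7⟩
    exact ⟨j, hN.trans _ (hD.nH hc.1) _ h3, ⟨h3, h4, h5, h6.h, h6.c⟩, h7⟩

theorem pf_ID (hL : Lb) : T_ID := by
  intro D κ b hA hb σ hσ B hB h X Y hh hX hY
  have hBN := hA.ok.zfm.trans _ hb.nO _ hB
  have hu : In D.N (cons σ.toZFSet (cons B (cons h (cons X fun _ => Y)))) :=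
    ((((show In D.N fun _ => Y from fun _ => hY).cons hX).cons hh).cons hBN).cons hσ
  obtain ⟨h1, h2, h3, h4, h5, h6, h7, h8, h9⟩ := id_all hL hA hb hu hB
  have h10 := id_entX hL hA hb hu hB
  have h11 := fun s hs hcs => id_rr (s := s) hL hA hb hu hB hs hcs
  have h12 := id_sn hL hA hb hu hB
  simp only [cons_zero, cons_succ, Ordinal.rank_toZFSet] at h1 h2 h3 h4 h5 h6 h7 h8 h9 h10 h11 h12
  exact ⟨h1, h2, h3, h4, h5, h10, h6, h7, h8, h9, h11, h12⟩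

end UZ

end SE
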