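import Pool.Agent.H41.UZ.UJ
import Pool.Agent.H45.UZ.TarA

/-!
# Existence of histories (AH)
-/

set_option linter.unusedVariables false

open Ordinal Order Set
open scoped ZFSet

namespace UZ

open SF

variable {N : V → Prop}

/-- recursion on ordinals, for functions of one variable -/
theorem exists_recO (hN : ZFm N) {G : V → V → V} (hG : TN N (fun u => G (u 0) (u 1))) :
    ∃ F : V → V, TN N (fun u => F (u 0)) ∧ ∀ k, F k = G (rkS k) (resS (rkS k) F) := by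
  let F : V → V := fun k => Rcr (fun _ v => rkS (v 0)) (fun _ w => G (rkS (w 1)) (w 0))
    (fun _ => True) (fun _ => ∅) k
  have hF : ∀ k, F k = G (rkS k) (resS (rkS k) F) := by
    intro k
    have h1 : F k = _ := rcr_eq _ _ _ _ _
    rw [h1]
    have e1 : ((rkS (cons k (fun _ => (∅ : V)) 0)).sep fun y => y.rank < k.rank) = rkS k := by
      ext y
      rw [ZFSet.mem_sep]
      refine ⟨fun h => h.1, fun h => ⟨h, ?_⟩⟩
      obtain ⟨α, hα, rfl⟩ := Ordinal.mem_toZFSet_iff.1 h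
      rw [Ordinal.rank_toZFSet]
      exact hα
    rw [e1]
    rfl
  refine ⟨F, ?_, hF⟩
  refine TN.recu (E := fun u => rkS (u 0)) (G := fun w => G (rkS (w 1)) (w 0)) hN
    (TN.rkS hN (TN.var hN 0)) ?_ ?_ ?_
  · exact TN.at2 (P := fun x y => G x y) hN hG (TN.rkS hN (TN.var hN 1)) (TN.var hN 0)
  · intro u hu y hy
    obtain ⟨α, hα, rfl⟩ := Ordinal.mem_toZFSet_iff.1 hy
    rw [Ordinal.rank_toZFSet]
    exact hα
  · intro u hu
    exact hF _

end UZ

namespace SE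

open SF

namespace UZ

open _root_.UZ

variable {D : Cx} {C C' : (ℕ → V) → Prop} {r s f g h t e f1 f2 f3 f4 Bt Ct : (ℕ → V) → V}
  {X Y : (ℕ → V) → V → Prop} {S : (ℕ → V) → Prop} {A B E A1 A2 A3 A4 A5 A6 : (ℕ → V) → V → V}
  {b : BS} {κ : V}

namespace AHaux

/-- the entries of the stage `k` with the history `a` below `k` -/
def EV (D : Cx) (b : BS) (I B h sf Bp f k a G x y : V) : Prop :=
  (∃ v, D.N v ∧ (v ∈ I ∧ k ∈ app sf v) ∧ RR D (b.u (app B v)) G x ∧ Entv (app h v) G x y k) ∨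
  ((∀ v, D.N v → (v ∈ I ∧ k ∈ app sf v) → ¬ RR D (b.u (app B v)) G x) ∧
    ¬ b.Ls D (b.Wd D) k.rank ∧ ¬ Dcc a G x ∧ b.Rg D (b.Wd D) k.rank Bp a G x ∧
    ∃ β, D.N β ∧ β ∈ dm f ∧ y = ev G (app f β) ∧
      ¬ b.Kb D (b.Wd D) k.rank Bp a G x (ev G (app f β)) ∧
      ∀ γ, D.N γ → γ ∈ β → b.Kb D (b.Wd D) k.rank Bp a G x (ev G (app f γ)))

/-- the entries are decided -/
theorem dc_EV (hL : Lb) (hA : Amb D κ) (hb : b.Ok D κ) {I B h sf Bp f : V} (hI : D.N I)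
    (hB : D.N B) (hh : D.N h) (hs : D.N sf) (hBp : Bp ∈ b.Ob) (hf : D.N f)
    (hle : ∀ v ∈ I, b.Le (app B v) Bp) :
    -- the variables are `Y, X, k, a`
    Dc D (fun _ => True) (fun _ => b.u Bp) (fun u G => EV D b I B h sf Bp f (u 2) (u 3) G
      (ev G (u 1)) (ev G (u 0))) := by
  have hD := hA.ok
  have hN := hD.zfm
  have v0 := TN.var (N := D.N) hN 0
  have v1 := TN.var (N := D.N) hN 1
  have v2 := TN.var (N := D.N) hN 2
  have v3 := TN.var (N := D.N) hN 3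
  have v4 := TN.var (N := D.N) hN 4
  have v5 := TN.var (N := D.N) hN 5
  have cI := TN.cst (N := D.N) hI
  have cB := TN.cst (N := D.N) hB
  have ch := TN.cst (N := D.N) hh
  have cs := TN.cst (N := D.N) hs
  have cf := TN.cst (N := D.N) hf
  have cP := TN.cst (N := D.N) (hN.trans _ hb.nO _ hBp)
  have cr : TN D.N (fun _ => b.u Bp) := TN.bu hD hb cP
  have evv : ∀ i, Et D (fun u G => ev G (u i)) := fun i =>
    Et.ev hL hD (Et.G hD) (Et.gr (TN.var hN i))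
  have hS : DN D.N (fun w => w 0 ∈ I ∧ w 3 ∈ app sf (w 0)) :=
    (DN.mem hN v0 cI).and hN (DN.mem hN v3 (TN.app hN cs v0))
  have hC : ∀ w : ℕ → V, In D.N w → Cr D (fun _ => b.u Bp) w → (w 0 ∈ I ∧ w 3 ∈ app sf (w 0)) →
      Cld D.L (b.u (app B (w 0))) ∧ b.u (app B (w 0)) ⊆ b.u Bp := by
    intro w _ _ h1
    have h2 := hb.leO _ _ (hle _ h1.1)
    exact ⟨(hb.cs _ h2.1).c, h2.2.2⟩
  have hrr : Dc D (fun w => w 0 ∈ I ∧ w 3 ∈ app sf (w 0)) (fun _ => b.u Bp)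
      (fun w G => RR D (b.u (app B (w 0))) G (ev G (w 2))) :=
    Dc.rr hL hD cr (TN.bu hD hb (TN.app hN cB v0)) (evv 2) hC
  -- the first part
  have p1 : Dc D (fun _ => True) (fun _ => b.u Bp) (fun u G => ∃ v, D.N v ∧
      (v ∈ I ∧ u 2 ∈ app sf v) ∧ (RR D (b.u (app B v)) G (ev G (u 1)) ∧
        Entv (app h v) G (ev G (u 1)) (ev G (u 0)) (u 2))) := by
    refine Dc.ex (C := fun _ => True) (r := fun _ => b.u Bp)
      (C' := fun w => w 0 ∈ I ∧ w 3 ∈ app sf (w 0))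
      (X := fun w G => RR D (b.u (app B (w 0))) G (ev G (w 2)) ∧
        Entv (app h (w 0)) G (ev G (w 2)) (ev G (w 1)) (w 3)) hL hD hS ?_
          fun _ _ _ _ _ _ h => h
    exact hrr.and hL hD cr (Dc.ent hL hD cr (Et.gr (TN.app hN ch v0)) (evv 2) (evv 1)
      (Et.gr v3))
  -- the second part
  have p2 : Dc D (fun _ => True) (fun _ => b.u Bp) (fun u G => ∀ v, D.N v →
      (v ∈ I ∧ u 2 ∈ app sf v) → ¬ RR D (b.u (app B v)) G (ev G (u 1))) :=
    Dc.all (C := fun _ => True) (r := fun _ => b.u Bp)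
      (X := fun w G => ¬ RR D (b.u (app B (w 0))) G (ev G (w 2))) hL hD cr hS
        (hrr.not hL hD cr) fun _ _ _ _ _ _ h => h
  have p3 : Dc D (fun _ => True) (fun _ => b.u Bp) (fun u G => ∃ β, D.N β ∧ β ∈ dm f ∧
      (ev G (u 0) = ev G (app f β) ∧
      (¬ b.Kb D (b.Wd D) (u 2).rank Bp (u 3) G (ev G (u 1)) (ev G (app f β)) ∧
      ∀ γ, D.N γ → γ ∈ β → b.Kb D (b.Wd D) (u 2).rank Bp (u 3) G (ev G (u 1))
        (ev G (app f γ))))) := by
    refine Dc.ex (C := fun _ => True) (r := fun _ => b.u Bp) (S := fun w => w 0 ∈ dm f)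
      (X := fun w G => ev G (w 1) = ev G (app f (w 0)) ∧
      (¬ b.Kb D (b.Wd D) (w 3).rank Bp (w 4) G (ev G (w 2)) (ev G (app f (w 0))) ∧
      ∀ γ, D.N γ → γ ∈ w 0 → b.Kb D (b.Wd D) (w 3).rank Bp (w 4) G (ev G (w 2))
        (ev G (app f γ)))) (C' := fun _ => True) hL hD (DN.mem hN v0 (TN.dm hN cf)) ?_
          fun _ _ _ _ _ _ _ => trivial
    have a1 : Et D (fun w G => ev G (app f (w 0))) :=
      Et.ev hL hD (Et.G hD) (Et.gr (TN.app hN cf v0))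
    refine (Dc.eq hL hD cr (evv 1) a1).and hL hD cr ((Dc.not hL hD cr
      (Dc.kbW hL hA hb v3 cP v4 (evv 2) a1)).and hL hD cr ?_)
    exact Dc.all (C := fun _ => True) (r := fun _ => b.u Bp) (S := fun w => w 0 ∈ w 1)
      (X := fun w G => b.Kb D (b.Wd D) (w 4).rank Bp (w 5) G (ev G (w 3))
        (ev G (app f (w 0)))) (C' := fun _ => True) hL hD cr (DN.mem hN v0 v1)
          (Dc.kbW hL hA hb v4 cP v5 (evv 3) a1) fun _ _ _ _ _ _ _ => trivial
  have p4 : Dc D (fun _ => True) (fun _ => b.u Bp) (fun u G =>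
      ¬ b.Ls D (b.Wd D) (u 2).rank) :=
    Dc.gr (DN.lsW hL hA hb v2).not
  exact p1.or hL hD cr (p2.and hL hD cr (p4.and hL hD cr ((Dc.not hL hD cr
    (Dc.dcc hL hD cr v3 (evv 1))).and hL hD cr ((Dc.rgW hL hA hb v2 cP v3 (evv 1)).and hL hD cr
      p3))))

end AHaux

end UZ

end SE
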