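import Pool.Agent.H41.UZ.UK

/-!
# Existence of histories (AH), second part
-/

set_option linter.unusedVariables false

open Ordinal Order Set
open scoped ZFSet

namespace UZ

open SF

variable {N : V → Prop} {F0 F1 F2 F3 F4 : (ℕ → V) → V}

theorem DN.at5 (hN : ZFm N) {P : V → V → V → V → V → Prop}
    (hP : DN N (fun u => P (u 0) (u 1) (u 2) (u 3) (u 4))) (h0 : TN N F0) (h1 : TN N F1)
    (h2 : TN N F2) (h3 : TN N F3) (h4 : TN N F4) :
    DN N (fun u => P (F0 u) (F1 u) (F2 u) (F3 u) (F4 u)) := by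
  have a0 : DN N (fun u => P (F0 fun i => u (i + 4)) (u 0) (u 1) (u 2) (u 3)) :=
    DN.push hN hP (h0.rn (fun i => i + 4)) (fun i => i)
  have a1 : DN N (fun u => P (F0 fun i => u (i + 3)) (F1 fun i => u (i + 3)) (u 0) (u 1) (u 2)) :=
    DN.push hN a0 (h1.rn (fun i => i + 3)) (fun i => i)
  have a2 : DN N (fun u => P (F0 fun i => u (i + 2)) (F1 fun i => u (i + 2))
      (F2 fun i => u (i + 2)) (u 0) (u 1)) :=
    DN.push hN a1 (h2.rn (fun i => i + 2)) (fun i => i)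
  have a3 : DN N (fun u => P (F0 fun i => u (i + 1)) (F1 fun i => u (i + 1))
      (F2 fun i => u (i + 1)) (F3 fun i => u (i + 1)) (u 0)) :=
    DN.push hN a2 (h3.rn (fun i => i + 1)) (fun i => i)
  exact DN.push hN a3 h4 id

/-- an enumeration of a set -/
theorem exists_enum (hN : ZFCm N) {A : V} (hA : N A) : ∃ (α : Ordinal.{0}) (f : V), N f ∧
    dm f = α.toZFSet ∧ (∀ β < α, app f β.toZFSet ∈ A) ∧
      ∀ y ∈ A, ∃ β < α, app f β.toZFSet = y := by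
  obtain ⟨α, f, hf, hon⟩ := hN.wo A hA
  have happ : ∀ β < α, ∀ w, ZFSet.pair β.toZFSet w ∈ f → app f β.toZFSet = w := by
    intro β hβ w hw
    refine app_eq ?_ hw
    intro x y z hy hz
    have hx := (ZFSet.pair_mem_prod.1 (hon.1.1 hy)).1
    obtain ⟨w', _, h2⟩ := hon.1.2 x hx
    rw [h2 y hy, h2 z hz]
  refine ⟨α, f, hf, ?_, fun β hβ => ?_, fun y hy => ?_⟩
  · ext z
    rw [mem_dm]
    constructor
    · rintro ⟨y, hy⟩
      exact (ZFSet.pair_mem_prod.1 (hon.1.1 hy)).1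
    · intro hz
      obtain ⟨w, hw, _⟩ := hon.1.2 z hz
      exact ⟨w, hw⟩
  · obtain ⟨w, hw, _⟩ := hon.1.2 β.toZFSet (toZFSet_mem.2 hβ)
    rw [happ β hβ w hw]
    exact (ZFSet.pair_mem_prod.1 (hon.1.1 hw)).2
  · obtain ⟨a, ha, hay⟩ := hon.2 y hy
    obtain ⟨β, hβ, rfl⟩ := Ordinal.mem_toZFSet_iff.1 ha
    exact ⟨β, hβ, happ β hβ y hay⟩

end UZ

namespace SE

open SF

namespace UZ

open _root_.UZ

variable {D : Cx} {b : BS} {κ : V}

namespace AHaux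

/-- the set of the entries of the stage `k` with the history `a` -/
noncomputable def Tk (P S : V) (R : V → V → V → V → V → Prop) (k a : V) : V :=
  (ZFSet.prod P (ZFSet.prod S (ZFSet.prod S {k}))).sep fun z =>
    R (fst z) (fst (snd (snd z))) (fst (snd z)) k a

theorem mem_Tk {P S : V} {R : V → V → V → V → V → Prop} {k a z : V} : z ∈ Tk P S R k a ↔
    ∃ p ∈ P, ∃ X ∈ S, ∃ Y ∈ S, z = ht p X Y k ∧ R p Y X k a := by
  unfold Tk ht
  rw [ZFSet.mem_sep]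
  constructor
  · rintro ⟨h1, h2⟩
    simp only [ZFSet.mem_prod, ZFSet.mem_singleton] at h1
    obtain ⟨p, hp, _, ⟨X, hX, _, ⟨Y, hY, _, rfl, rfl⟩, rfl⟩, rfl⟩ := h1
    simp only [fst_pair, snd_pair] at h2
    exact ⟨p, hp, X, hX, Y, hY, rfl, h2⟩
  · rintro ⟨p, hp, X, hX, Y, hY, rfl, h2⟩
    simp only [fst_pair, snd_pair, ZFSet.pair_mem_prod, ZFSet.mem_singleton]
    exact ⟨⟨hp, hX, hY, trivial⟩, h2⟩

/-- the recursion: from a definable relation to the history -/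
theorem exists_H (hL : Lb) (hD : D.Ok) {P S : V} (hP : D.N P) (hS : D.N S)
    {R : V → V → V → V → V → Prop}
    (hR : DN D.N (fun u => R (u 0) (u 1) (u 2) (u 3) (u 4))) {σ : Ordinal.{0}}
    (hσ : D.N σ.toZFSet) :
    ∃ H, D.N H ∧ ∀ z, z ∈ H ↔ ∃ e < σ, ∃ p ∈ P, ∃ X ∈ S, ∃ Y ∈ S, z = ht p X Y e.toZFSet ∧
      R p Y X e.toZFSet (hr H e) := by
  have hN := hD.zfm
  have v0 := TN.var (N := D.N) hN 0
  have v1 := TN.var (N := D.N) hN 1
  have v2 := TN.var (N := D.N) hN 2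
  have hG : TN D.N (fun u => Tk P S R (u 0) (⋃₀ rg (u 1))) := by
    refine TN.sep (F := fun u => ZFSet.prod P (ZFSet.prod S (ZFSet.prod S {u 0})))
      (S := fun w => R (fst (w 0)) (fst (snd (snd (w 0)))) (fst (snd (w 0))) (w 1)
        (⋃₀ rg (w 2))) hN ?_ (TN.prod hN (TN.cst hP) (TN.prod hN (TN.cst hS)
          (TN.prod hN (TN.cst hS) (TN.sing hN v0))))
    exact DN.at5 (P := R) hN hR (TN.fst hN v0) (TN.fst hN (TN.snd hN (TN.snd hN v0)))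
      (TN.fst hN (TN.snd hN v0)) v1 (TN.sUnion hN (TN.rg hN v2))
  obtain ⟨F, hF, hF2⟩ := exists_recO hN (G := fun x y => Tk P S R x (⋃₀ rg y)) hG
  -- the history below `e`
  let A : Ordinal.{0} → V := fun e => ⋃₀ (imS e.toZFSet F)
  have hrg : ∀ x, (⋃₀ rg (resS x F) : ZFSet) = ⋃₀ (imS x F) := by
    intro x
    ext z
    rw [ZFSet.mem_sUnion, ZFSet.mem_sUnion]
    constructor
    · rintro ⟨y, hy, hz⟩
      obtain ⟨w, hw⟩ := mem_rg.1 hy
      obtain ⟨w', hw', h1⟩ := mem_resS.1 hw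
      obtain ⟨rfl, h2⟩ := ZFSet.pair_injective h1
      exact ⟨_, mem_imS.2 ⟨w', hw', h2⟩, hz⟩
    · rintro ⟨y, hy, hz⟩
      obtain ⟨w, hw, rfl⟩ := mem_imS.1 hy
      exact ⟨_, mem_rg.2 ⟨w, mem_resS.2 ⟨w, hw, rfl⟩⟩, hz⟩
  have hFe : ∀ e : Ordinal.{0}, F e.toZFSet = Tk P S R e.toZFSet (A e) := by
    intro e
    have h1 : rkS e.toZFSet = e.toZFSet := IsOrd.rk ⟨e, rfl⟩
    rw [hF2, h1, hrg]
  have hmem : ∀ (θ : Ordinal.{0}) z, z ∈ A θ ↔ ∃ e < θ, ∃ p ∈ P, ∃ X ∈ S, ∃ Y ∈ S,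
      z = ht p X Y e.toZFSet ∧ R p Y X e.toZFSet (A e) := by
    intro θ z
    show z ∈ (⋃₀ (imS θ.toZFSet F) : ZFSet) ↔ _
    rw [ZFSet.mem_sUnion]
    constructor
    · rintro ⟨y, hy, hz⟩
      obtain ⟨w, hw, rfl⟩ := mem_imS.1 hy
      obtain ⟨e, he, rfl⟩ := Ordinal.mem_toZFSet_iff.1 hw
      rw [hFe, mem_Tk] at hz
      exact ⟨e, he, hz⟩
    · rintro ⟨e, he, h1⟩
      refine ⟨_, mem_imS.2 ⟨e.toZFSet, toZFSet_mem.2 he, rfl⟩, ?_⟩
      rw [hFe, mem_Tk]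
      exact h1
  have hhr : ∀ e ≤ σ, hr (A σ) e = A e := by
    intro e he
    ext z
    unfold UZ.hr
    rw [ZFSet.mem_sep, hmem, hmem]
    constructor
    · rintro ⟨⟨e', he', p, hp, X, hX, Y, hY, rfl, h1⟩, h2⟩
      unfold ht at h2
      simp only [snd_pair] at h2
      exact ⟨e', toZFSet_mem.1 h2, p, hp, X, hX, Y, hY, rfl, h1⟩
    · rintro ⟨e', he', p, hp, X, hX, Y, hY, rfl, h1⟩
      refine ⟨⟨e', lt_of_lt_of_le he' he, p, hp, X, hX, Y, hY, rfl, h1⟩, ?_⟩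
      unfold ht
      simp only [snd_pair]
      exact toZFSet_mem.2 he'
  refine ⟨A σ, ?_, fun z => ?_⟩
  · have h1 : TN D.N (fun u => (⋃₀ (imS (u 0) F) : ZFSet)) :=
      TN.iUn (F := fun u => u 0) (G := fun w => F (w 0)) hN v0 hF
    exact TN.mem hN h1 (u := fun _ => σ.toZFSet) fun _ => hσ
  · rw [hmem]
    refine exists_congr fun e => and_congr_right fun he => ?_
    rw [hhr e he.le]

end AHaux

end UZ

end SE
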