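import Pool.Agent.H41.UZ.UL

/-!
# Existence of histories (AH), the proof
-/

set_option linter.unusedVariables false

open Ordinal Order Set
open scoped ZFSet

namespace SE

open SF

namespace UZ

open _root_.UZ

variable {D : Cx} {b : BS} {κ : V}

namespace AHaux

theorem ht_inj {q X Y e q' X' Y' e' : V} (h : ht q X Y e = ht q' X' Y' e') :
    q = q' ∧ X = X' ∧ Y = Y' ∧ e = e' := by
  unfold ht at h
  obtain ⟨h2, h3⟩ := ZFSet.pair_injective h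
  obtain ⟨h4, h5⟩ := ZFSet.pair_injective h3
  obtain ⟨h6, h7⟩ := ZFSet.pair_injective h5
  exact ⟨h2, h4, h6, h7⟩

theorem rr_mono (hL : Lb) (hD : D.Ok) {ρ s G x : V} (hρ : D.N ρ) (hc : Cld D.L ρ)
    (hG : D.Gn ρ G) (hs : D.N s) (hcs : Cld D.L s) (hsρ : s ⊆ ρ) (h : RR D s G x) :
    RR D ρ G x := by
  refine ⟨?_, h.2⟩
  rw [gs_gn hG]
  exact ((hL.BL D hD ρ G hρ hc hG).2 s hs hsρ fun i hi => (hcs i hi).2).2.2.1 x h.1

theorem ent_gs (hL : Lb) (hD : D.Ok) {ρ s G h X y : V} {e σ : Ordinal.{0}} (hρ : D.N ρ)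
    (hc : Cld D.L ρ) (hG : D.Gn ρ G) (hs : D.N s) (hcs : Cld D.L s) (hsρ : s ⊆ ρ)
    (hh : His D s h σ) : Ent h G X y e ↔ Ent h (gs G s) X y e := by
  have key : ∀ q X' Y' e', ht q X' Y' e' ∈ h → (q ∈ G ↔ q ∈ gs G s) ∧
      ev (gs G s) X' = ev G X' ∧ ev (gs G s) Y' = ev G Y' := by
    intro q X' Y' e' hz
    obtain ⟨q1, hq1, X1, Y1, e1, he1, hX, hY, h1⟩ := hh.m _ hz
    obtain ⟨rfl, rfl, rfl, rfl⟩ := ht_inj h1
    have hk := (hL.BK D hD ρ G hρ hc hG).1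
    refine ⟨?_, (hk s _ hs hsρ (fun i hi => (hcs i hi).2) hX.1 hX.2).2.2.2.2.2 s fun _ h => h,
      (hk s _ hs hsρ (fun i hi => (hcs i hi).2) hY.1 hY.2).2.2.2.2.2 s fun _ h => h⟩
    unfold SE.gs
    rw [ZFSet.mem_sep]
    exact ⟨fun h => ⟨h, ((hL.B.sub D.L ρ s q hc hcs hsρ).1 hq1).2⟩, fun h => h.1⟩
  constructor
  · rintro ⟨q, hq, X', Y', hz, h1, h2⟩
    obtain ⟨k1, k2, k3⟩ := key _ _ _ _ hz
    exact ⟨q, k1.1 hq, X', Y', hz, k2.trans h1, k3.trans h2⟩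
  · rintro ⟨q, hq, X', Y', hz, h1, h2⟩
    obtain ⟨k1, k2, k3⟩ := key _ _ _ _ hz
    exact ⟨q, k1.2 hq, X', Y', hz, k2.symm.trans h1, k3.symm.trans h2⟩

end AHaux

open AHaux

theorem pf_AH (hL : Lb) (hQRM : T_QRM) : SE.UZ.T_AH := by
  intro D κ b hA hb σ hσ I B h s Bp H0
  have hD := hA.ok
  have hN := hD.zfm
  have hcP := cs_cr (hb.cs _ H0.o)
  have hρ := hD.nH hcP.1
  have hsub : ∀ v ∈ I, D.N (b.u (app B v)) ∧ Cld D.L (b.u (app B v)) ∧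
      b.u (app B v) ⊆ b.u Bp := by
    intro v hv
    have h1 := hb.leO _ _ (H0.le v hv)
    have h2 := cs_cr (hb.cs _ h1.1)
    exact ⟨hD.nH h2.1, h2.2, h1.2.2⟩
  have hlt : ∀ v ∈ I, ∀ k : Ordinal.{0}, k.toZFSet ∈ app (resS I fun v => (s v).toZFSet) v ↔
      k < s v := by
    intro v hv k
    rw [app_resS hv, toZFSet_mem]
  obtain ⟨hSN, hSm⟩ := nmS_spec hA (b.u Bp)
  obtain ⟨α, f, hf, hdm, hfS, hfo⟩ := exists_enum hD.zfc.toZFCm hSN
  obtain ⟨R, hR, hR2⟩ := dc_EV hL hA hb H0.nI H0.nB H0.nh H0.ns H0.o hf H0.le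
  let R' : V → V → V → V → V → Prop := fun p Y X k a =>
    R (cons p (cons Y (cons X (cons k fun _ => a))))
  have hR' : DN D.N (fun u => R' (u 0) (u 1) (u 2) (u 3) (u 4)) := by
    refine (hR.rn (fun i => match i with
      | 0 => 0
      | 1 => 1
      | 2 => 2
      | 3 => 3
      | i + 4 => 4)).congr fun w hw => ?_
    have e : (fun i => w (match i with
      | 0 => 0
      | 1 => 1
      | 2 => 2
      | 3 => 3
      | i + 4 => 4)) = cons (w 0) (cons (w 1) (cons (w 2) (cons (w 3) fun _ => w 4))) := by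
        funext i
        match i with
        | 0 => rfl
        | 1 => rfl
        | 2 => rfl
        | 3 => rfl
        | i + 4 => rfl
    rw [e]
  have hEV : ∀ X ∈ nmS D (b.u Bp), ∀ Y ∈ nmS D (b.u Bp), ∀ k a, D.N k → D.N a → ∀ G,
      D.Gn (b.u Bp) G → (EV D b I B h (resS I fun v => (s v).toZFSet) Bp f k a G (ev G X)
        (ev G Y) ↔ ∃ p ∈ G, R' p Y X k a) := by
    intro X hX Y hY k a hk ha G hG
    have hX' := hN.trans _ hSN _ hX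
    have hY' := hN.trans _ hSN _ hY
    exact hR2 (cons Y (cons X (cons k fun _ => a)))
      ((((show In D.N fun _ => a from fun _ => ha).cons hk).cons hX').cons hY') hcP trivial G hG
  have hPN : D.N (D.P (b.u Bp)) :=
    TN.mem hN (tnP hL hD (TN.cst hρ)) (u := fun _ => b.u Bp) fun _ => hρ
  obtain ⟨H, hH, hHm⟩ := exists_H hL hD hPN hSN hR' hσ
  have hhr : ∀ e < σ, D.N e.toZFSet ∧ D.N (hr H e) := by
    intro e he
    have h1 : D.N e.toZFSet := hN.trans _ hσ _ (toZFSet_mem.2 he)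
    refine ⟨h1, ?_⟩
    have h2 := TN.mem hN (TN.hr hD (TN.cst hH) (TN.cst h1)) (u := fun _ => H) fun _ => hH
    rw [Ordinal.rank_toZFSet] at h2
    exact h2
  have nam : ∀ G, D.Gn (b.u Bp) G → ∀ x, RR D (b.u Bp) G x ↔ ∃ X ∈ nmS D (b.u Bp),
      ev G X = x := by
    intro G hG x
    rw [rr_iff hL hD hρ hcP.2 hρ hcP.2 (fun _ h => h) hG]
    constructor
    · rintro ⟨Y, hY, h1, h2⟩
      rw [evs_gn hG] at h2
      exact ⟨Y, (hSm Y).2 ⟨hcP, hY, h1⟩, h2⟩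
    · rintro ⟨Y, hY, h2⟩
      have h3 := ((hSm Y).1 hY).2
      exact ⟨Y, h3.1, h3.2, by rw [evs_gn hG, h2]⟩
  -- the entries of `H`
  have key : ∀ G, D.Gn (b.u Bp) G → ∀ x y e, Ent H G x y e ↔ e < σ ∧ RR D (b.u Bp) G x ∧
      RR D (b.u Bp) G y ∧ EV D b I B h (resS I fun v => (s v).toZFSet) Bp f e.toZFSet (hr H e)
        G x y := by
    intro G hG x y e
    constructor
    · rintro ⟨q, hq, X', Y', hz, rfl, rfl⟩
      obtain ⟨e', he', p, hp, X, hX, Y, hY, h1, h2⟩ := (hHm _).1 hz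
      obtain ⟨rfl, rfl, rfl, h3⟩ := ht_inj h1
      have h4 := Ordinal.toZFSet_injective h3
      subst h4
      obtain ⟨n1, n2⟩ := hhr e he'
      exact ⟨he', (nam G hG _).2 ⟨X', hX, rfl⟩, (nam G hG _).2 ⟨Y', hY, rfl⟩,
        (hEV _ hX _ hY _ _ n1 n2 G hG).2 ⟨q, hq, h2⟩⟩
    · rintro ⟨he, hx, hy, h1⟩
      obtain ⟨X, hX, rfl⟩ := (nam G hG _).1 hx
      obtain ⟨Y, hY, rfl⟩ := (nam G hG _).1 hy
      obtain ⟨n1, n2⟩ := hhr e he
      obtain ⟨p, hp, h2⟩ := (hEV _ hX _ hY _ _ n1 n2 G hG).1 h1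
      exact ⟨p, hp, X, Y, (hHm _).2 ⟨e, he, p, gn_sub hG hp, X, hX, Y, hY, rfl, h2⟩, rfl, rfl⟩
  -- compatibility
  have comp : ∀ G, D.Gn (b.u Bp) G → ∀ v ∈ I, ∀ v' ∈ I, ∀ x y e, e < s v → e < s v' →
      RR D (b.u (app B v)) G x → RR D (b.u (app B v')) G x →
        (Ent (app h v) G x y e ↔ Ent (app h v') G x y e) := by
    intro G hG v hv v' hv' x y e he he' hx hx'
    obtain ⟨n1, c1, s1⟩ := hsub v hv
    obtain ⟨n2, c2, s2⟩ := hsub v' hv'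
    exact H0.a1 G hG v hv v' hv' x (hQRM D hD (b.u Bp) G _ _ hρ hcP.2 hG n1 n2 s1 s2
      (fun i hi => (c1 i hi).2) (fun i hi => (c2 i hi).2) x hx hx') y e he he'
  have func : ∀ G, D.Gn (b.u Bp) G → ∀ v ∈ I, ∀ x y y' e e', Ent (app h v) G x y e →
      Ent (app h v) G x y' e' → y = y' ∧ e = e' := by
    intro G hG v hv x y y' e e' h1 h2
    obtain ⟨n1, c1, s1⟩ := hsub v hv
    obtain ⟨h3, h4⟩ := H0.w v hv
    have hg := hL.B.res D hD _ _ G ⟨hcP.1, hcP.2, hG⟩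
      (cs_cr (hb.cs _ (hb.leO _ _ (H0.le v hv)).1)).1 c1 s1
    exact h4 _ hg x y y' e e' ((ent_gs hL hD hρ hcP.2 hG n1 c1 s1 h3).1 h1)
      ((ent_gs hL hD hρ hcP.2 hG n1 c1 s1 h3).1 h2)
  refine ⟨H, ⟨hH, fun z hz => ?_⟩, fun G hG => ⟨?_, ?_, ?_, ?_⟩⟩
  · obtain ⟨e, he, p, hp, X, hX, Y, hY, h1, h2⟩ := (hHm _).1 hz
    exact ⟨p, hp, X, Y, e, he, ((hSm X).1 hX).2, ((hSm Y).1 hY).2, h1⟩
  · -- (1)
    intro x y e h1
    obtain ⟨_, h2, h3, _⟩ := (key G hG x y e).1 h1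
    exact ⟨h2, h3⟩
  · -- (2)
    intro x y y' e h1 h2
    obtain ⟨he, hx, hy, h3⟩ := (key G hG x y e).1 h1
    obtain ⟨_, _, hy', h4⟩ := (key G hG x y' e).1 h2
    rcases h3 with ⟨v, _, ⟨hv, hev⟩, hxv, h5⟩ | ⟨h5, _, _, _, β, _, hβ, h6, h7, h8⟩
    · rcases h4 with ⟨v', _, ⟨hv', hev'⟩, hxv', h5'⟩ | ⟨h5', _⟩
      · have h6 := (comp G hG v hv v' hv' x y e ((hlt v hv e).1 hev) ((hlt v' hv' e).1 hev')
          hxv hxv').1 h5
        exact (func G hG v' hv' x y y' e e h6 h5').1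
      · exact absurd hxv (h5' v (hN.trans _ H0.nI _ hv) ⟨hv, hev⟩)
    · rcases h4 with ⟨v', hvN', ⟨hv', hev'⟩, hxv', h5'⟩ | ⟨h5', _, _, _, β', _, hβ', h6', h7', h8'⟩
      · exact absurd hxv' (h5 v' hvN' ⟨hv', hev'⟩)
      · rw [hdm] at hβ hβ'
        obtain ⟨γ, hγ, rfl⟩ := Ordinal.mem_toZFSet_iff.1 hβ
        obtain ⟨γ', hγ', rfl⟩ := Ordinal.mem_toZFSet_iff.1 hβ'
        have hαN : D.N α.toZFSet := by
          rw [← hdm]
          exact TN.mem hN (TN.dm hN (TN.cst hf)) (u := fun _ => f) fun _ => hf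
        rcases lt_trichotomy γ γ' with h9 | h9 | h9
        · exact absurd (h8' _ (hN.trans _ hαN _ (toZFSet_mem.2 hγ)) (toZFSet_mem.2 h9)) h7
        · rw [h6, h6', h9]
        · exact absurd (h8 _ (hN.trans _ hαN _ (toZFSet_mem.2 hγ')) (toZFSet_mem.2 h9)) h7'
  · -- (3)
    intro v hv x hx y e he
    obtain ⟨n1, c1, s1⟩ := hsub v hv
    have heσ : e < σ := lt_of_lt_of_le he (H0.ls v hv)
    constructor
    · intro h1
      obtain ⟨_, _, _, h3⟩ := (key G hG x y e).1 h1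
      rcases h3 with ⟨v', _, ⟨hv', hev'⟩, hxv', h5⟩ | ⟨h5, _⟩
      · exact (comp G hG v hv v' hv' x y e he ((hlt v' hv' e).1 hev') hx hxv').2 h5
      · exact absurd hx (h5 v (hN.trans _ H0.nI _ hv) ⟨hv, (hlt v hv e).2 he⟩)
    · intro h1
      have h2 := (H0.w v hv).1
      have hg := hL.B.res D hD _ _ G ⟨hcP.1, hcP.2, hG⟩
        (cs_cr (hb.cs _ (hb.leO _ _ (H0.le v hv)).1)).1 c1 s1
      have h3 := (ent_rr hL hD n1 c1 hg h2 ((ent_gs hL hD hρ hcP.2 hG n1 c1 s1 h2).1 h1)).2.1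
      have h4 : RR D (b.u (app B v)) G y := by
        unfold RR at h3 ⊢
        rw [gs_gs (fun _ h => h)] at h3
        exact h3
      exact (key G hG x y e).2 ⟨heσ, rr_mono hL hD hρ hcP.2 hG n1 c1 s1 hx,
        rr_mono hL hD hρ hcP.2 hG n1 c1 s1 h4, Or.inl ⟨v, hN.trans _ H0.nI _ hv,
          ⟨hv, (hlt v hv e).2 he⟩, hx, h1⟩⟩
  · -- (4)
    intro x hx e he hno
    have hno' : ∀ v, D.N v → (v ∈ I ∧ e.toZFSet ∈ app (resS I fun v => (s v).toZFSet) v) →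
        ¬ RR D (b.u (app B v)) G x := fun v _ h1 => hno v h1.1 ((hlt v h1.1 e).1 h1.2)
    have sec : ∀ y, Ent H G x y e → ¬ b.Ls D (b.Wd D) e ∧ ¬ Dcc (hr H e) G x ∧
        b.Rg D (b.Wd D) e Bp (hr H e) G x ∧ ¬ b.Kb D (b.Wd D) e Bp (hr H e) G x y := by
      intro y h1
      obtain ⟨_, _, _, h3⟩ := (key G hG x y e).1 h1
      rcases h3 with ⟨v', hvN', ⟨hv', hev'⟩, hxv', h5⟩ | ⟨_, h5, h6, h7, β, _, _, h8, h9, _⟩
      · exact absurd hxv' (hno' v' hvN' ⟨hv', hev'⟩)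
      · rw [Ordinal.rank_toZFSet] at h5 h7 h9
        rw [← h8] at h9
        exact ⟨h5, h6, h7, h9⟩
    refine ⟨fun hl y h1 => (sec y h1).1 hl, fun hl => ⟨⟨?_, ?_⟩, fun y h1 => (sec y h1).2.2.2⟩⟩
    · rintro ⟨y, h1⟩
      exact ⟨(sec y h1).2.1, (sec y h1).2.2.1⟩
    · rintro ⟨h1, h2⟩
      obtain ⟨_, y, hy, h3⟩ := id h2
      obtain ⟨Y, hY, rfl⟩ := (nam G hG _).1 hy
      obtain ⟨β, hβ, rfl⟩ := hfo Y hY
      -- the least index
      have hne : {γ : Ordinal.{0} | γ < α ∧ ¬ b.Kb D (b.Wd D) e Bp (hr H e) G x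
          (ev G (app f γ.toZFSet))}.Nonempty := ⟨β, hβ, h3⟩
      obtain ⟨h4, h5⟩ := csInf_mem hne
      have h6 : ∀ γ < sInf {γ : Ordinal.{0} | γ < α ∧ ¬ b.Kb D (b.Wd D) e Bp (hr H e) G x
          (ev G (app f γ.toZFSet))}, b.Kb D (b.Wd D) e Bp (hr H e) G x
            (ev G (app f γ.toZFSet)) := by
        intro γ hγ
        by_contra h7
        have h8 : sInf {γ : Ordinal.{0} | γ < α ∧ ¬ b.Kb D (b.Wd D) e Bp (hr H e) G x
          (ev G (app f γ.toZFSet))} ≤ γ := csInf_le' ⟨hγ.trans h4, h7⟩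
        exact absurd hγ (not_lt.2 h8)
      generalize sInf {γ : Ordinal.{0} | γ < α ∧ ¬ b.Kb D (b.Wd D) e Bp (hr H e) G x
          (ev G (app f γ.toZFSet))} = δ at h4 h5 h6
      have hαN : D.N α.toZFSet := by
        rw [← hdm]
        exact TN.mem hN (TN.dm hN (TN.cst hf)) (u := fun _ => f) fun _ => hf
      refine ⟨ev G (app f δ.toZFSet), (key G hG x _ e).2 ⟨he, hx, (nam G hG _).2
        ⟨_, hfS δ h4, rfl⟩, Or.inr ⟨hno', ?_, h1, ?_, δ.toZFSet,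
          hN.trans _ hαN _ (toZFSet_mem.2 h4), ?_, rfl, ?_, ?_⟩⟩⟩
      · rw [Ordinal.rank_toZFSet]
        exact hl
      · rw [Ordinal.rank_toZFSet]
        exact h2
      · rw [hdm]
        exact toZFSet_mem.2 h4
      · rw [Ordinal.rank_toZFSet]
        exact h5
      · intro γ _ hγ
        obtain ⟨ε, hε, rfl⟩ := Ordinal.mem_toZFSet_iff.1 hγ
        rw [Ordinal.rank_toZFSet]
        exact h6 ε hε

end UZ

end SE
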